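import Pool.Agent.N554.RG.Check

/-!
# Certificates for cone 0
-/

set_option autoImplicit false

namespace Pool.Agent.N554.RG

/-- The certificates of the cone 0, indexed by the sign pattern. -/
def certs0 : List Cert := [
  ⟨[⟨4,1,5,9,3,7⟩, ⟨5,1,7,5,9,3⟩, ⟨5,2,0,4,6,8⟩, ⟨2,2,8,0,6,4⟩, ⟨18,3,1,7,5,11⟩,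
    ⟨7,3,7,1,5,11⟩, ⟨19,3,7,5,11,1⟩],
   [⟨195,0,2,0,0,0⟩, ⟨195,0,0,2,0,0⟩, ⟨195,0,0,0,2,0⟩, ⟨195,0,0,0,0,2⟩, ⟨147,1,1,1,1,1⟩,
    ⟨178,1,(-1),(-1),(-1),(-1)⟩]⟩,
  ⟨[⟨2,1,9,9,3,5⟩, ⟨18,1,9,9,5,3⟩, ⟨23,2,8,8,0,4⟩, ⟨17,3,3,3,7,11⟩],
   [⟨170,0,2,0,0,0⟩, ⟨170,0,0,2,0,0⟩, ⟨192,0,0,0,2,0⟩, ⟨208,0,0,0,0,2⟩, ⟨76,1,1,1,1,1⟩,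
    ⟨45,1,(-1),1,1,1⟩, ⟨45,1,1,(-1),1,1⟩, ⟨55,1,(-1),1,(-1),(-1)⟩, ⟨55,1,1,(-1),(-1),(-1)⟩,
    ⟨81,1,(-1),(-1),(-1),(-1)⟩]⟩,
  ⟨[⟨2,1,9,3,9,5⟩, ⟨18,1,9,5,9,3⟩, ⟨23,2,8,0,8,4⟩, ⟨17,3,3,7,3,11⟩],
   [⟨170,0,2,0,0,0⟩, ⟨192,0,0,2,0,0⟩, ⟨170,0,0,0,2,0⟩, ⟨208,0,0,0,0,2⟩, ⟨21,1,1,1,1,1⟩,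
    ⟨45,1,(-1),1,1,1⟩, ⟨100,1,1,1,(-1),1⟩, ⟨55,1,1,(-1),(-1),(-1)⟩,
    ⟨136,1,(-1),(-1),(-1),(-1)⟩]⟩,
  ⟨[⟨36,1,3,3,5,9⟩, ⟨5,1,3,5,3,9⟩, ⟨47,2,4,4,0,8⟩, ⟨33,3,3,1,5,9⟩],
   [⟨343,0,2,0,0,0⟩, ⟨419,0,0,2,0,0⟩, ⟨388,0,0,0,2,0⟩, ⟨343,0,0,0,0,2⟩, ⟨55,1,(-1),1,1,1⟩,
    ⟨202,1,(-1),1,1,(-1)⟩, ⟨261,1,1,(-1),(-1),(-1)⟩, ⟨202,1,(-1),(-1),(-1),(-1)⟩]⟩,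
  ⟨[⟨2,1,3,7,9,3⟩, ⟨18,1,9,3,5,9⟩, ⟨23,2,4,8,0,4⟩, ⟨17,3,9,1,5,9⟩],
   [⟨170,0,2,0,0,0⟩, ⟨208,0,0,2,0,0⟩, ⟨192,0,0,0,2,0⟩, ⟨170,0,0,0,0,2⟩,
    ⟨100,1,(-1),(-1),(-1),1⟩, ⟨100,1,1,(-1),(-1),(-1)⟩, ⟨157,1,(-1),(-1),(-1),(-1)⟩]⟩,
  ⟨[⟨18,1,3,3,9,5⟩, ⟨2,1,3,5,9,3⟩, ⟨23,2,4,4,8,0⟩, ⟨17,3,9,7,3,11⟩],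
   [⟨170,0,2,0,0,0⟩, ⟨208,0,0,2,0,0⟩, ⟨170,0,0,0,2,0⟩, ⟨192,0,0,0,0,2⟩, ⟨45,1,1,1,1,1⟩,
    ⟨76,1,(-1),1,1,1⟩, ⟨45,1,(-1),1,(-1),1⟩, ⟨55,1,1,(-1),1,(-1)⟩, ⟨81,1,1,(-1),(-1),(-1)⟩,
    ⟨55,1,(-1),(-1),(-1),(-1)⟩]⟩,
  ⟨[⟨2,1,3,9,3,5⟩, ⟨18,1,9,3,7,9⟩, ⟨23,2,8,4,0,8⟩, ⟨17,3,3,9,1,5⟩],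
   [⟨170,0,2,0,0,0⟩, ⟨170,0,0,2,0,0⟩, ⟨192,0,0,0,2,0⟩, ⟨208,0,0,0,0,2⟩, ⟨103,1,(-1),1,1,1⟩,
    ⟨29,1,(-1),(-1),1,1⟩, ⟨72,1,1,1,(-1),(-1)⟩, ⟨54,1,1,(-1),(-1),(-1)⟩,
    ⟨100,1,(-1),(-1),(-1),(-1)⟩]⟩,
  ⟨[⟨5,2,0,6,4,8⟩, ⟨17,2,4,0,4,6⟩, ⟨13,2,4,6,4,0⟩, ⟨5,2,8,6,0,8⟩, ⟨1,3,1,5,1,7⟩,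
    ⟨4,3,7,7,1,11⟩, ⟨14,3,7,11,7,1⟩],
   [⟨192,0,2,0,0,0⟩, ⟨192,0,0,2,0,0⟩, ⟨192,0,0,0,2,0⟩, ⟨192,0,0,0,0,2⟩, ⟨135,1,(-1),1,1,1⟩,
    ⟨185,1,1,(-1),(-1),(-1)⟩]⟩,
  ⟨[⟨2,1,5,9,9,3⟩, ⟨18,1,9,3,3,7⟩, ⟨23,2,8,4,4,0⟩, ⟨17,3,1,9,9,5⟩],
   [⟨208,0,2,0,0,0⟩, ⟨170,0,0,2,0,0⟩, ⟨170,0,0,0,2,0⟩, ⟨192,0,0,0,0,2⟩, ⟨74,1,1,1,1,1⟩,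
    ⟨29,1,1,(-1),1,1⟩, ⟨29,1,1,1,(-1),1⟩, ⟨72,1,(-1),(-1),1,(-1)⟩, ⟨72,1,(-1),1,(-1),(-1)⟩,
    ⟨83,1,(-1),(-1),(-1),(-1)⟩]⟩,
  ⟨[⟨18,1,3,3,5,9⟩, ⟨2,1,5,3,3,9⟩, ⟨23,2,4,4,0,8⟩, ⟨17,3,7,9,11,3⟩],
   [⟨208,0,2,0,0,0⟩, ⟨170,0,0,2,0,0⟩, ⟨192,0,0,0,2,0⟩, ⟨170,0,0,0,0,2⟩, ⟨45,1,1,1,1,1⟩,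
    ⟨76,1,1,(-1),1,1⟩, ⟨55,1,(-1),1,(-1),1⟩, ⟨45,1,1,(-1),1,(-1)⟩, ⟨81,1,(-1),1,(-1),(-1)⟩,
    ⟨55,1,(-1),(-1),(-1),(-1)⟩]⟩,
  ⟨[⟨2,1,3,5,3,9⟩, ⟨18,1,5,3,3,9⟩, ⟨23,2,0,4,4,8⟩, ⟨17,3,7,11,9,3⟩],
   [⟨192,0,2,0,0,0⟩, ⟨208,0,0,2,0,0⟩, ⟨170,0,0,0,2,0⟩, ⟨170,0,0,0,0,2⟩, ⟨45,1,1,1,1,1⟩,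
    ⟨55,1,(-1),(-1),1,1⟩, ⟨76,1,1,1,(-1),1⟩, ⟨81,1,(-1),(-1),1,(-1)⟩, ⟨45,1,1,1,(-1),(-1)⟩,
    ⟨55,1,(-1),(-1),(-1),(-1)⟩]⟩,
  ⟨[⟨46,1,9,9,9,3⟩, ⟨14,3,3,3,3,9⟩],
   [⟨216,0,2,0,0,0⟩, ⟨216,0,0,2,0,0⟩, ⟨216,0,0,0,2,0⟩, ⟨216,0,0,0,0,2⟩, ⟨30,1,(-1),1,1,1⟩,
    ⟨30,1,1,(-1),1,1⟩, ⟨30,1,1,1,(-1),1⟩, ⟨48,1,(-1),(-1),1,(-1)⟩, ⟨48,1,(-1),1,(-1),(-1)⟩,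
    ⟨48,1,1,(-1),(-1),(-1)⟩]⟩,
  ⟨[⟨46,1,3,9,9,3⟩, ⟨14,3,9,3,3,9⟩],
   [⟨216,0,2,0,0,0⟩, ⟨216,0,0,2,0,0⟩, ⟨216,0,0,0,2,0⟩, ⟨216,0,0,0,0,2⟩, ⟨30,1,1,1,1,1⟩,
    ⟨30,1,(-1),(-1),1,1⟩, ⟨30,1,(-1),1,(-1),1⟩, ⟨48,1,1,(-1),1,(-1)⟩, ⟨48,1,1,1,(-1),(-1)⟩,
    ⟨48,1,(-1),(-1),(-1),(-1)⟩]⟩,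
  ⟨[⟨18,1,3,7,9,3⟩, ⟨2,1,7,3,3,9⟩, ⟨23,2,4,0,8,4⟩, ⟨17,3,7,1,3,9⟩],
   [⟨208,0,2,0,0,0⟩, ⟨192,0,0,2,0,0⟩, ⟨170,0,0,0,2,0⟩, ⟨170,0,0,0,0,2⟩, ⟨29,1,(-1),1,1,1⟩,
    ⟨72,1,1,(-1),1,1⟩, ⟨74,1,(-1),1,(-1),1⟩, ⟨83,1,1,(-1),1,(-1)⟩, ⟨29,1,(-1),1,(-1),(-1)⟩,
    ⟨72,1,1,(-1),(-1),(-1)⟩]⟩,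
  ⟨[⟨10,1,3,9,7,3⟩, ⟨10,1,5,9,9,3⟩, ⟨12,2,0,8,8,4⟩, ⟨12,2,4,8,0,4⟩, ⟨17,3,7,3,1,9⟩],
   [⟨203,0,2,0,0,0⟩, ⟨173,0,0,2,0,0⟩, ⟨203,0,0,0,2,0⟩, ⟨173,0,0,0,0,2⟩, ⟨40,1,(-1),1,1,1⟩,
    ⟨82,1,(-1),(-1),1,1⟩, ⟨62,1,1,1,(-1),1⟩, ⟨40,1,(-1),(-1),1,(-1)⟩, ⟨77,1,1,1,(-1),(-1)⟩,
    ⟨62,1,1,(-1),(-1),(-1)⟩]⟩,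
  ⟨[⟨2,1,7,9,9,3⟩, ⟨18,1,9,9,9,5⟩, ⟨23,2,4,4,4,0⟩, ⟨17,3,7,9,9,1⟩],
   [⟨208,0,2,0,0,0⟩, ⟨170,0,0,2,0,0⟩, ⟨170,0,0,0,2,0⟩, ⟨192,0,0,0,0,2⟩, ⟨20,1,(-1),1,1,1⟩,
    ⟨98,1,(-1),(-1),1,1⟩, ⟨98,1,(-1),1,(-1),1⟩, ⟨3,1,1,(-1),1,(-1)⟩, ⟨3,1,1,1,(-1),(-1)⟩,
    ⟨137,1,1,(-1),(-1),(-1)⟩]⟩,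
  ⟨[⟨2,1,7,3,9,3⟩, ⟨18,1,9,3,7,3⟩, ⟨23,2,8,4,0,4⟩, ⟨17,3,7,3,11,3⟩],
   [⟨208,0,2,0,0,0⟩, ⟨170,0,0,2,0,0⟩, ⟨192,0,0,0,2,0⟩, ⟨170,0,0,0,0,2⟩, ⟨79,1,1,(-1),1,1⟩,
    ⟨100,1,(-1),(-1),(-1),1⟩, ⟨21,1,(-1),1,(-1),(-1)⟩, ⟨157,1,(-1),(-1),(-1),(-1)⟩]⟩,
  ⟨[⟨2,1,3,3,9,5⟩, ⟨18,1,5,3,9,3⟩, ⟨23,2,0,4,8,4⟩, ⟨17,3,1,3,9,5⟩],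
   [⟨192,0,2,0,0,0⟩, ⟨170,0,0,2,0,0⟩, ⟨170,0,0,0,2,0⟩, ⟨208,0,0,0,0,2⟩, ⟨73,1,1,(-1),(-1),1⟩,
    ⟨27,1,(-1),1,1,(-1)⟩, ⟨157,1,(-1),1,(-1),(-1)⟩, ⟨100,1,(-1),(-1),(-1),(-1)⟩]⟩,
  ⟨[⟨46,1,3,9,3,9⟩, ⟨14,3,9,3,9,3⟩],
   [⟨216,0,2,0,0,0⟩, ⟨216,0,0,2,0,0⟩, ⟨216,0,0,0,2,0⟩, ⟨216,0,0,0,0,2⟩, ⟨30,1,1,1,1,1⟩,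
    ⟨30,1,(-1),(-1),1,1⟩, ⟨48,1,1,(-1),(-1),1⟩, ⟨30,1,(-1),1,1,(-1)⟩, ⟨48,1,1,1,(-1),(-1)⟩,
    ⟨48,1,(-1),(-1),(-1),(-1)⟩]⟩,
  ⟨[⟨2,1,7,3,9,3⟩, ⟨18,1,9,5,9,3⟩, ⟨23,2,4,0,4,8⟩, ⟨17,3,7,1,9,3⟩],
   [⟨208,0,2,0,0,0⟩, ⟨192,0,0,2,0,0⟩, ⟨170,0,0,0,2,0⟩, ⟨170,0,0,0,0,2⟩, ⟨82,1,(-1),1,1,1⟩,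
    ⟨18,1,1,(-1),1,1⟩, ⟨137,1,1,(-1),(-1),1⟩, ⟨20,1,(-1),1,1,(-1)⟩, ⟨82,1,(-1),1,(-1),(-1)⟩,
    ⟨18,1,1,(-1),(-1),(-1)⟩]⟩,
  ⟨[⟨2,1,3,5,9,3⟩, ⟨18,1,7,9,3,9⟩, ⟨23,2,0,4,8,4⟩, ⟨17,3,7,11,3,9⟩],
   [⟨192,0,2,0,0,0⟩, ⟨208,0,0,2,0,0⟩, ⟨170,0,0,0,2,0⟩, ⟨170,0,0,0,0,2⟩, ⟨9,1,1,1,1,1⟩,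
    ⟨91,1,(-1),(-1),1,1⟩, ⟨27,1,(-1),(-1),(-1),1⟩, ⟨130,1,1,1,1,(-1)⟩, ⟨9,1,1,1,(-1),(-1)⟩,
    ⟨91,1,(-1),(-1),(-1),(-1)⟩]⟩,
  ⟨[⟨46,1,9,9,3,9⟩, ⟨14,3,3,3,9,3⟩],
   [⟨216,0,2,0,0,0⟩, ⟨216,0,0,2,0,0⟩, ⟨216,0,0,0,2,0⟩, ⟨216,0,0,0,0,2⟩, ⟨30,1,(-1),1,1,1⟩,
    ⟨30,1,1,(-1),1,1⟩, ⟨48,1,(-1),(-1),(-1),1⟩, ⟨30,1,1,1,1,(-1)⟩, ⟨48,1,(-1),1,(-1),(-1)⟩,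
    ⟨48,1,1,(-1),(-1),(-1)⟩]⟩,
  ⟨[⟨10,1,3,9,3,7⟩, ⟨10,1,5,9,3,9⟩, ⟨12,2,0,8,4,8⟩, ⟨12,2,4,8,4,0⟩, ⟨17,3,7,3,9,1⟩],
   [⟨203,0,2,0,0,0⟩, ⟨173,0,0,2,0,0⟩, ⟨173,0,0,0,2,0⟩, ⟨203,0,0,0,0,2⟩, ⟨40,1,(-1),1,1,1⟩,
    ⟨82,1,(-1),(-1),1,1⟩, ⟨40,1,(-1),(-1),(-1),1⟩, ⟨62,1,1,1,1,(-1)⟩, ⟨77,1,1,1,(-1),(-1)⟩,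
    ⟨62,1,1,(-1),(-1),(-1)⟩]⟩,
  ⟨[⟨10,1,3,3,7,3⟩, ⟨10,1,5,3,9,3⟩, ⟨12,2,0,4,8,4⟩, ⟨12,2,4,4,0,4⟩, ⟨17,3,1,3,7,3⟩],
   [⟨203,0,2,0,0,0⟩, ⟨173,0,0,2,0,0⟩, ⟨203,0,0,0,2,0⟩, ⟨173,0,0,0,0,2⟩, ⟨112,1,(-1),1,1,1⟩,
    ⟨102,1,1,(-1),(-1),1⟩, ⟨102,1,1,1,(-1),(-1)⟩, ⟨47,1,1,(-1),(-1),(-1)⟩]⟩,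
  ⟨[⟨18,1,3,9,7,9⟩, ⟨2,1,9,3,3,5⟩, ⟨23,2,8,4,0,4⟩, ⟨17,3,3,9,7,11⟩],
   [⟨170,0,2,0,0,0⟩, ⟨170,0,0,2,0,0⟩, ⟨192,0,0,0,2,0⟩, ⟨208,0,0,0,0,2⟩, ⟨9,1,1,1,1,1⟩,
    ⟨130,1,1,(-1),1,1⟩, ⟨9,1,(-1),(-1),1,1⟩, ⟨91,1,1,1,(-1),(-1)⟩, ⟨27,1,(-1),1,(-1),(-1)⟩,
    ⟨91,1,(-1),(-1),(-1),(-1)⟩]⟩,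
  ⟨[⟨5,2,0,6,4,8⟩, ⟨13,2,4,4,0,6⟩, ⟨16,2,4,4,6,0⟩, ⟨8,2,8,0,4,6⟩, ⟨17,3,7,7,11,1⟩],
   [⟨192,0,2,0,0,0⟩, ⟨192,0,0,2,0,0⟩, ⟨192,0,0,0,2,0⟩, ⟨192,0,0,0,0,2⟩, ⟨128,1,1,(-1),1,1⟩,
    ⟨191,1,(-1),1,(-1),(-1)⟩]⟩,
  ⟨[⟨2,1,3,7,3,9⟩, ⟨18,1,3,9,5,9⟩, ⟨23,2,8,4,0,4⟩, ⟨17,3,3,7,1,9⟩],
   [⟨170,0,2,0,0,0⟩, ⟨208,0,0,2,0,0⟩, ⟨192,0,0,0,2,0⟩, ⟨170,0,0,0,0,2⟩, ⟨82,1,1,(-1),1,1⟩,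
    ⟨20,1,(-1),(-1),1,1⟩, ⟨18,1,1,1,(-1),1⟩, ⟨82,1,(-1),(-1),1,(-1)⟩, ⟨137,1,1,1,(-1),(-1)⟩,
    ⟨18,1,(-1),1,(-1),(-1)⟩]⟩,
  ⟨[⟨10,1,3,3,3,7⟩, ⟨10,1,3,5,3,9⟩, ⟨12,2,4,0,4,8⟩, ⟨12,2,4,4,4,0⟩, ⟨17,3,3,1,3,7⟩],
   [⟨173,0,2,0,0,0⟩, ⟨203,0,0,2,0,0⟩, ⟨173,0,0,0,2,0⟩, ⟨203,0,0,0,0,2⟩, ⟨112,1,1,(-1),1,1⟩,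
    ⟨102,1,(-1),1,1,(-1)⟩, ⟨102,1,1,1,(-1),(-1)⟩, ⟨47,1,(-1),1,(-1),(-1)⟩]⟩,
  ⟨[⟨2,1,3,7,9,3⟩, ⟨18,1,3,9,9,5⟩, ⟨23,2,8,4,4,0⟩, ⟨17,3,3,7,9,1⟩],
   [⟨170,0,2,0,0,0⟩, ⟨208,0,0,2,0,0⟩, ⟨170,0,0,0,2,0⟩, ⟨192,0,0,0,0,2⟩, ⟨82,1,1,(-1),1,1⟩,
    ⟨20,1,(-1),(-1),1,1⟩, ⟨82,1,(-1),(-1),(-1),1⟩, ⟨18,1,1,1,1,(-1)⟩, ⟨137,1,1,1,(-1),(-1)⟩,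
    ⟨18,1,(-1),1,(-1),(-1)⟩]⟩,
  ⟨[⟨36,1,3,3,7,3⟩, ⟨5,1,9,7,3,9⟩, ⟨47,2,4,4,0,4⟩, ⟨33,3,3,1,7,3⟩],
   [⟨343,0,2,0,0,0⟩, ⟨419,0,0,2,0,0⟩, ⟨388,0,0,0,2,0⟩, ⟨343,0,0,0,0,2⟩, ⟨299,1,1,(-1),1,1⟩,
    ⟨202,1,(-1),1,(-1),1⟩, ⟨202,1,1,1,(-1),(-1)⟩, ⟨17,1,(-1),1,(-1),(-1)⟩]⟩,
  ⟨[⟨16,2,0,4,4,6⟩, ⟨8,2,6,0,4,8⟩, ⟨13,2,6,4,4,0⟩, ⟨5,2,8,6,0,8⟩, ⟨17,3,1,5,5,1⟩],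
   [⟨192,0,2,0,0,0⟩, ⟨192,0,0,2,0,0⟩, ⟨192,0,0,0,2,0⟩, ⟨192,0,0,0,0,2⟩,
    ⟨144,1,(-1),(-1),1,1⟩, ⟨176,1,1,1,(-1),(-1)⟩]⟩,
  ⟨[⟨2,1,3,3,3,5⟩, ⟨18,1,3,3,5,3⟩, ⟨23,2,8,8,0,8⟩, ⟨17,3,3,3,1,5⟩],
   [⟨170,0,2,0,0,0⟩, ⟨170,0,0,2,0,0⟩, ⟨192,0,0,0,2,0⟩, ⟨208,0,0,0,0,2⟩, ⟨82,1,(-1),1,1,1⟩,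
    ⟨82,1,1,(-1),1,1⟩, ⟨20,1,(-1),(-1),1,1⟩, ⟨137,1,1,1,(-1),(-1)⟩, ⟨18,1,(-1),1,(-1),(-1)⟩,
    ⟨18,1,1,(-1),(-1),(-1)⟩]⟩,
  ⟨[⟨18,1,5,3,9,9⟩, ⟨2,1,9,7,3,3⟩, ⟨23,2,0,8,4,4⟩, ⟨17,3,7,11,3,3⟩],
   [⟨192,0,2,0,0,0⟩, ⟨208,0,0,2,0,0⟩, ⟨170,0,0,0,2,0⟩, ⟨170,0,0,0,0,2⟩, ⟨133,1,1,1,1,1⟩,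
    ⟨100,1,(-1),(-1),(-1),1⟩, ⟨100,1,(-1),(-1),1,(-1)⟩, ⟨24,1,(-1),(-1),(-1),(-1)⟩]⟩,
  ⟨[⟨46,1,3,3,9,9⟩, ⟨3,3,3,3,9,9⟩, ⟨10,3,9,9,3,3⟩],
   [⟨212,0,2,0,0,0⟩, ⟨212,0,0,2,0,0⟩, ⟨212,0,0,0,2,0⟩, ⟨212,0,0,0,0,2⟩, ⟨77,1,1,(-1),(-1),1⟩,
    ⟨77,1,1,(-1),1,(-1)⟩, ⟨77,1,(-1),(-1),(-1),(-1)⟩]⟩,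
  ⟨[⟨2,1,3,9,3,5⟩, ⟨18,1,5,9,3,3⟩, ⟨23,2,0,8,4,4⟩, ⟨17,3,1,9,3,5⟩],
   [⟨192,0,2,0,0,0⟩, ⟨170,0,0,2,0,0⟩, ⟨170,0,0,0,2,0⟩, ⟨208,0,0,0,0,2⟩, ⟨73,1,1,(-1),(-1),1⟩,
    ⟨27,1,(-1),1,1,(-1)⟩, ⟨157,1,(-1),(-1),1,(-1)⟩, ⟨100,1,(-1),(-1),(-1),(-1)⟩]⟩,
  ⟨[⟨2,1,3,3,7,9⟩, ⟨18,1,5,3,9,9⟩, ⟨23,2,0,8,4,4⟩, ⟨17,3,1,3,7,9⟩],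
   [⟨192,0,2,0,0,0⟩, ⟨170,0,0,2,0,0⟩, ⟨208,0,0,0,2,0⟩, ⟨170,0,0,0,0,2⟩, ⟨3,1,(-1),1,1,1⟩,
    ⟨118,1,1,(-1),(-1),1⟩, ⟨39,1,(-1),1,1,(-1)⟩, ⟨100,1,(-1),(-1),1,(-1)⟩,
    ⟨98,1,1,(-1),(-1),(-1)⟩]⟩,
  ⟨[⟨2,1,5,9,3,3⟩, ⟨18,1,9,3,7,9⟩, ⟨23,2,8,4,0,8⟩, ⟨17,3,1,9,5,3⟩],
   [⟨208,0,2,0,0,0⟩, ⟨170,0,0,2,0,0⟩, ⟨192,0,0,0,2,0⟩, ⟨170,0,0,0,0,2⟩, ⟨29,1,1,1,1,1⟩,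
    ⟨72,1,(-1),1,(-1),1⟩, ⟨83,1,(-1),(-1),(-1),1⟩, ⟨74,1,1,1,1,(-1)⟩, ⟨29,1,1,(-1),1,(-1)⟩,
    ⟨72,1,(-1),(-1),(-1),(-1)⟩]⟩,
  ⟨[⟨18,1,3,3,9,7⟩, ⟨2,1,7,9,3,3⟩, ⟨23,2,4,4,8,0⟩, ⟨17,3,7,9,3,1⟩],
   [⟨208,0,2,0,0,0⟩, ⟨170,0,0,2,0,0⟩, ⟨170,0,0,0,2,0⟩, ⟨192,0,0,0,0,2⟩, ⟨29,1,(-1),1,1,1⟩,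
    ⟨74,1,(-1),1,(-1),1⟩, ⟨29,1,(-1),(-1),(-1),1⟩, ⟨72,1,1,1,1,(-1)⟩, ⟨83,1,1,(-1),1,(-1)⟩,
    ⟨72,1,1,(-1),(-1),(-1)⟩]⟩,
  ⟨[⟨46,1,3,9,3,3⟩, ⟨12,3,3,9,3,3⟩, ⟨2,3,9,3,9,9⟩],
   [⟨216,0,2,0,0,0⟩, ⟨216,0,0,2,0,0⟩, ⟨216,0,0,0,2,0⟩, ⟨216,0,0,0,0,2⟩,
    ⟨78,1,(-1),(-1),(-1),1⟩, ⟨78,1,(-1),(-1),1,(-1)⟩, ⟨78,1,1,(-1),(-1),(-1)⟩]⟩,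
  ⟨[⟨36,1,3,7,3,3⟩, ⟨5,1,7,3,9,9⟩, ⟨47,2,4,0,4,4⟩, ⟨33,3,1,7,3,3⟩],
   [⟨419,0,2,0,0,0⟩, ⟨388,0,0,2,0,0⟩, ⟨343,0,0,0,2,0⟩, ⟨343,0,0,0,0,2⟩, ⟨299,1,(-1),1,1,1⟩,
    ⟨202,1,1,(-1),(-1),1⟩, ⟨202,1,1,(-1),1,(-1)⟩, ⟨17,1,1,(-1),(-1),(-1)⟩]⟩,
  ⟨[⟨2,1,3,9,9,7⟩, ⟨18,1,9,5,3,3⟩, ⟨23,2,4,0,8,8⟩, ⟨17,3,9,1,3,5⟩],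
   [⟨170,0,2,0,0,0⟩, ⟨192,0,0,2,0,0⟩, ⟨170,0,0,0,2,0⟩, ⟨208,0,0,0,0,2⟩, ⟨27,1,1,1,(-1),1⟩,
    ⟨100,1,1,(-1),1,(-1)⟩, ⟨130,1,(-1),(-1),1,(-1)⟩, ⟨100,1,(-1),(-1),(-1),(-1)⟩]⟩,
  ⟨[⟨2,1,3,3,7,9⟩, ⟨18,1,9,7,3,3⟩, ⟨23,2,8,0,4,4⟩, ⟨17,3,3,1,7,9⟩],
   [⟨170,0,2,0,0,0⟩, ⟨192,0,0,2,0,0⟩, ⟨208,0,0,0,2,0⟩, ⟨170,0,0,0,0,2⟩, ⟨38,1,1,(-1),1,1⟩,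
    ⟨62,1,1,1,(-1),1⟩, ⟨74,1,(-1),1,(-1),1⟩, ⟨83,1,1,(-1),1,(-1)⟩, ⟨38,1,(-1),(-1),1,(-1)⟩,
    ⟨62,1,(-1),1,(-1),(-1)⟩]⟩,
  ⟨[⟨14,2,0,4,4,6⟩, ⟨12,2,4,6,4,0⟩, ⟨11,2,6,0,4,4⟩, ⟨5,2,6,8,0,4⟩, ⟨8,3,1,5,1,7⟩,
    ⟨6,3,7,1,1,5⟩, ⟨4,3,7,5,11,11⟩],
   [⟨195,0,2,0,0,0⟩, ⟨195,0,0,2,0,0⟩, ⟨195,0,0,0,2,0⟩, ⟨195,0,0,0,0,2⟩, ⟨74,1,1,1,(-1),1⟩,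
    ⟨251,1,(-1),(-1),1,(-1)⟩]⟩,
  ⟨[⟨2,1,9,9,7,3⟩, ⟨18,1,9,9,9,5⟩, ⟨23,2,4,4,4,0⟩, ⟨17,3,3,3,1,7⟩],
   [⟨170,0,2,0,0,0⟩, ⟨170,0,0,2,0,0⟩, ⟨208,0,0,0,2,0⟩, ⟨192,0,0,0,0,2⟩, ⟨157,1,1,1,(-1),1⟩,
    ⟨9,1,(-1),1,(-1),1⟩, ⟨100,1,(-1),1,1,(-1)⟩, ⟨91,1,1,(-1),1,(-1)⟩]⟩,
  ⟨[⟨2,1,9,3,3,7⟩, ⟨18,1,9,3,5,9⟩, ⟨23,2,4,8,0,4⟩, ⟨17,3,9,3,1,7⟩],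
   [⟨170,0,2,0,0,0⟩, ⟨170,0,0,2,0,0⟩, ⟨192,0,0,0,2,0⟩, ⟨208,0,0,0,0,2⟩, ⟨18,1,1,1,(-1),1⟩,
    ⟨137,1,(-1),1,(-1),1⟩, ⟨18,1,(-1),(-1),(-1),1⟩, ⟨82,1,1,1,1,(-1)⟩, ⟨20,1,1,(-1),1,(-1)⟩,
    ⟨82,1,(-1),(-1),1,(-1)⟩]⟩,
  ⟨[⟨14,2,0,4,4,6⟩, ⟨5,2,4,6,0,4⟩, ⟨5,2,4,6,8,0⟩, ⟨11,2,6,0,8,8⟩, ⟨7,2,6,4,4,0⟩,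
    ⟨6,3,1,1,7,7⟩, ⟨12,3,1,5,5,1⟩],
   [⟨195,0,2,0,0,0⟩, ⟨195,0,0,2,0,0⟩, ⟨195,0,0,0,2,0⟩, ⟨195,0,0,0,0,2⟩,
    ⟨143,1,(-1),1,(-1),1⟩, ⟨182,1,1,(-1),1,(-1)⟩]⟩,
  ⟨[⟨36,1,3,7,3,3⟩, ⟨5,1,3,9,5,3⟩, ⟨47,2,4,0,4,4⟩, ⟨33,3,3,7,1,3⟩],
   [⟨343,0,2,0,0,0⟩, ⟨388,0,0,2,0,0⟩, ⟨419,0,0,0,2,0⟩, ⟨343,0,0,0,0,2⟩,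
    ⟨202,1,(-1),(-1),1,1⟩, ⟨160,1,1,1,(-1),1⟩, ⟨202,1,1,(-1),1,(-1)⟩, ⟨156,1,(-1),(-1),1,(-1)⟩]⟩,
  ⟨[⟨18,1,3,5,3,3⟩, ⟨2,1,9,9,9,7⟩, ⟨23,2,8,0,8,8⟩, ⟨4,3,3,1,3,5⟩, ⟨13,3,9,7,9,11⟩],
   [⟨170,0,2,0,0,0⟩, ⟨192,0,0,2,0,0⟩, ⟨170,0,0,0,2,0⟩, ⟨208,0,0,0,0,2⟩,
    ⟨144,1,(-1),1,(-1),1⟩, ⟨13,1,1,(-1),1,(-1)⟩, ⟨100,1,(-1),(-1),1,(-1)⟩,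
    ⟨100,1,1,(-1),(-1),(-1)⟩]⟩,
  ⟨[⟨18,1,3,9,7,9⟩, ⟨2,1,9,5,3,3⟩, ⟨23,2,4,8,0,8⟩, ⟨5,3,3,7,11,9⟩, ⟨12,3,9,1,5,3⟩],
   [⟨170,0,2,0,0,0⟩, ⟨208,0,0,2,0,0⟩, ⟨192,0,0,0,2,0⟩, ⟨170,0,0,0,0,2⟩,
    ⟨100,1,1,(-1),(-1),1⟩, ⟨40,1,(-1),(-1),(-1),1⟩, ⟨117,1,1,1,1,(-1)⟩,
    ⟨100,1,(-1),(-1),(-1),(-1)⟩]⟩,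
  ⟨[⟨18,1,3,3,9,7⟩, ⟨2,1,9,7,3,3⟩, ⟨7,2,4,4,8,0⟩, ⟨17,2,8,8,4,0⟩, ⟨17,3,9,7,3,1⟩],
   [⟨173,0,2,0,0,0⟩, ⟨211,0,0,2,0,0⟩, ⟨173,0,0,0,2,0⟩, ⟨195,0,0,0,0,2⟩, ⟨97,1,1,(-1),1,1⟩,
    ⟨7,1,1,(-1),(-1),1⟩, ⟨97,1,(-1),(-1),(-1),1⟩, ⟨5,1,1,1,1,(-1)⟩, ⟨152,1,(-1),1,1,(-1)⟩,
    ⟨5,1,(-1),1,(-1),(-1)⟩]⟩,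
  ⟨[⟨18,1,9,3,7,3⟩, ⟨2,1,9,3,9,5⟩, ⟨23,2,8,4,0,4⟩, ⟨17,3,3,9,1,7⟩],
   [⟨170,0,2,0,0,0⟩, ⟨170,0,0,2,0,0⟩, ⟨192,0,0,0,2,0⟩, ⟨208,0,0,0,0,2⟩, ⟨45,1,1,1,(-1),1⟩,
    ⟨76,1,1,(-1),(-1),1⟩, ⟨45,1,(-1),(-1),(-1),1⟩, ⟨55,1,1,1,1,(-1)⟩, ⟨81,1,(-1),1,1,(-1)⟩,
    ⟨55,1,(-1),(-1),1,(-1)⟩]⟩,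
  ⟨[⟨5,2,0,6,4,4⟩, ⟨11,2,0,8,6,8⟩, ⟨10,2,6,0,4,4⟩, ⟨11,2,6,4,0,4⟩, ⟨5,2,8,6,8,0⟩,
    ⟨5,3,1,1,5,5⟩, ⟨14,3,1,7,1,7⟩],
   [⟨198,0,2,0,0,0⟩, ⟨198,0,0,2,0,0⟩, ⟨198,0,0,0,2,0⟩, ⟨198,0,0,0,0,2⟩,
    ⟨180,1,1,(-1),(-1),1⟩, ⟨151,1,(-1),1,1,(-1)⟩]⟩,
  ⟨[⟨11,2,0,4,8,6⟩, ⟨8,2,4,0,6,4⟩, ⟨3,2,6,0,8,8⟩, ⟨9,2,6,4,0,4⟩, ⟨11,2,8,6,4,0⟩,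
    ⟨7,3,1,5,7,1⟩, ⟨10,3,7,1,5,1⟩],
   [⟨192,0,2,0,0,0⟩, ⟨192,0,0,2,0,0⟩, ⟨192,0,0,0,2,0⟩, ⟨192,0,0,0,0,2⟩,
    ⟨171,1,(-1),(-1),(-1),1⟩, ⟨149,1,1,1,1,(-1)⟩]⟩,
  ⟨[⟨10,1,9,9,3,7⟩, ⟨10,1,9,9,5,9⟩, ⟨12,2,8,8,0,8⟩, ⟨12,2,8,8,4,0⟩, ⟨17,3,3,3,7,1⟩],
   [⟨173,0,2,0,0,0⟩, ⟨173,0,0,2,0,0⟩, ⟨203,0,0,0,2,0⟩, ⟨203,0,0,0,0,2⟩, ⟨40,1,(-1),1,(-1),1⟩,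
    ⟨40,1,1,(-1),(-1),1⟩, ⟨82,1,(-1),(-1),(-1),1⟩, ⟨77,1,1,1,1,(-1)⟩, ⟨62,1,(-1),1,1,(-1)⟩,
    ⟨62,1,1,(-1),1,(-1)⟩]⟩,
  ⟨[⟨2,1,9,3,9,7⟩, ⟨18,1,9,5,9,9⟩, ⟨23,2,4,0,4,4⟩, ⟨17,3,3,7,3,1⟩],
   [⟨170,0,2,0,0,0⟩, ⟨192,0,0,2,0,0⟩, ⟨170,0,0,0,2,0⟩, ⟨208,0,0,0,0,2⟩, ⟨91,1,(-1),(-1),1,1⟩,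
    ⟨100,1,1,(-1),(-1),1⟩, ⟨157,1,1,1,1,(-1)⟩, ⟨9,1,1,1,(-1),(-1)⟩]⟩,
  ⟨[⟨2,1,3,3,5,3⟩, ⟨18,1,9,7,9,9⟩, ⟨23,2,4,0,4,4⟩, ⟨17,3,3,1,5,3⟩],
   [⟨170,0,2,0,0,0⟩, ⟨192,0,0,2,0,0⟩, ⟨208,0,0,0,2,0⟩, ⟨170,0,0,0,0,2⟩, ⟨100,1,(-1),1,1,1⟩,
    ⟨157,1,1,(-1),(-1),1⟩, ⟨3,1,(-1),(-1),(-1),1⟩, ⟨98,1,1,1,1,(-1)⟩]⟩,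
  ⟨[⟨46,1,9,3,3,3⟩, ⟨14,3,3,9,9,9⟩],
   [⟨216,0,2,0,0,0⟩, ⟨216,0,0,2,0,0⟩, ⟨216,0,0,0,2,0⟩, ⟨216,0,0,0,0,2⟩, ⟨48,1,1,(-1),1,1⟩,
    ⟨30,1,1,1,(-1),1⟩, ⟨48,1,(-1),(-1),(-1),1⟩, ⟨30,1,1,1,1,(-1)⟩, ⟨48,1,(-1),(-1),1,(-1)⟩,
    ⟨30,1,(-1),1,(-1),(-1)⟩]⟩,
  ⟨[⟨18,1,5,9,9,9⟩, ⟨2,1,9,5,3,3⟩, ⟨23,2,0,4,4,4⟩, ⟨17,3,1,7,9,9⟩],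
   [⟨192,0,2,0,0,0⟩, ⟨208,0,0,2,0,0⟩, ⟨170,0,0,0,2,0⟩, ⟨170,0,0,0,0,2⟩, ⟨5,1,1,(-1),1,1⟩,
    ⟨78,1,1,(-1),(-1),1⟩, ⟨23,1,(-1),1,1,(-1)⟩, ⟨100,1,1,(-1),1,(-1)⟩,
    ⟨152,1,(-1),1,(-1),(-1)⟩]⟩,
  ⟨[⟨18,1,5,9,9,9⟩, ⟨2,1,9,3,5,3⟩, ⟨23,2,0,4,4,4⟩, ⟨17,3,1,9,7,9⟩],
   [⟨192,0,2,0,0,0⟩, ⟨170,0,0,2,0,0⟩, ⟨208,0,0,0,2,0⟩, ⟨170,0,0,0,0,2⟩, ⟨5,1,1,1,(-1),1⟩,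
    ⟨78,1,1,(-1),(-1),1⟩, ⟨23,1,(-1),1,1,(-1)⟩, ⟨152,1,(-1),(-1),1,(-1)⟩,
    ⟨100,1,1,1,(-1),(-1)⟩]⟩,
  ⟨[⟨2,1,3,3,3,5⟩, ⟨18,1,5,3,3,3⟩, ⟨23,2,0,4,4,4⟩, ⟨17,3,1,3,3,5⟩],
   [⟨192,0,2,0,0,0⟩, ⟨170,0,0,2,0,0⟩, ⟨170,0,0,0,2,0⟩, ⟨208,0,0,0,0,2⟩, ⟨59,1,1,(-1),1,1⟩,
    ⟨157,1,1,(-1),(-1),1⟩, ⟨100,1,(-1),(-1),1,(-1)⟩, ⟨41,1,(-1),1,(-1),(-1)⟩]⟩,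
  ⟨[⟨18,1,5,9,9,9⟩, ⟨2,1,9,3,3,5⟩, ⟨23,2,0,4,4,4⟩, ⟨17,3,1,9,9,7⟩],
   [⟨192,0,2,0,0,0⟩, ⟨170,0,0,2,0,0⟩, ⟨170,0,0,0,2,0⟩, ⟨208,0,0,0,0,2⟩, ⟨23,1,(-1),1,(-1),1⟩,
    ⟨152,1,(-1),(-1),(-1),1⟩, ⟨5,1,1,1,1,(-1)⟩, ⟨78,1,1,(-1),1,(-1)⟩, ⟨100,1,1,1,(-1),(-1)⟩]⟩,
  ⟨[⟨18,1,3,3,5,3⟩, ⟨2,1,5,3,3,3⟩, ⟨23,2,8,8,0,8⟩, ⟨17,3,1,3,5,3⟩],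
   [⟨208,0,2,0,0,0⟩, ⟨170,0,0,2,0,0⟩, ⟨192,0,0,0,2,0⟩, ⟨170,0,0,0,0,2⟩, ⟨28,1,1,(-1),1,1⟩,
    ⟨100,1,(-1),(-1),(-1),1⟩, ⟨157,1,1,(-1),1,(-1)⟩, ⟨72,1,(-1),1,(-1),(-1)⟩]⟩,
  ⟨[⟨18,1,7,9,9,9⟩, ⟨2,1,9,7,9,9⟩, ⟨23,2,0,8,8,8⟩, ⟨17,3,1,5,3,3⟩],
   [⟨192,0,2,0,0,0⟩, ⟨208,0,0,2,0,0⟩, ⟨170,0,0,0,2,0⟩, ⟨170,0,0,0,0,2⟩, ⟨76,1,(-1),(-1),1,1⟩,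
    ⟨24,1,1,1,(-1),1⟩, ⟨76,1,(-1),(-1),(-1),1⟩, ⟨24,1,1,1,1,(-1)⟩, ⟨76,1,(-1),(-1),1,(-1)⟩,
    ⟨81,1,1,1,(-1),(-1)⟩]⟩,
  ⟨[⟨3,1,3,3,3,3⟩, ⟨44,1,9,9,9,9⟩, ⟨14,3,3,3,3,3⟩],
   [⟨220,0,2,0,0,0⟩, ⟨220,0,0,2,0,0⟩, ⟨220,0,0,0,2,0⟩, ⟨220,0,0,0,0,2⟩, ⟨40,1,(-1),(-1),1,1⟩,
    ⟨40,1,(-1),1,(-1),1⟩, ⟨40,1,1,(-1),(-1),1⟩, ⟨40,1,(-1),1,1,(-1)⟩, ⟨40,1,1,(-1),1,(-1)⟩,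
    ⟨40,1,1,1,(-1),(-1)⟩]⟩]

lemma check_certs0 : checkAll 0 certs0 = true := by
  decide +kernel

end Pool.Agent.N554.RG
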