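import Pool.Agent.N554.RG.Check

/-!
# Certificates for cone 1
-/

set_option autoImplicit false

namespace Pool.Agent.N554.RG

/-- The certificates of the cone 1, indexed by the sign pattern. -/
def certs1 : List Cert := [
  ⟨[⟨2,0,2,4,6,8⟩, ⟨17,0,2,6,4,8⟩, ⟨18,0,2,6,8,4⟩, ⟨16,0,6,0,4,8⟩, ⟨2,0,6,2,4,8⟩,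
    ⟨4,0,6,2,8,4⟩],
   [⟨120,0,2,0,0,0⟩, ⟨103,0,0,2,0,0⟩, ⟨212,0,0,0,2,0⟩, ⟨210,0,0,0,0,2⟩, ⟨219,1,1,1,1,1⟩,
    ⟨219,1,(-1),(-1),(-1),(-1)⟩]⟩,
  ⟨[⟨9,0,0,6,4,8⟩, ⟨18,0,2,4,8,6⟩, ⟨9,0,4,2,6,8⟩, ⟨19,0,6,2,4,8⟩, ⟨5,0,6,2,8,4⟩],
   [⟨72,0,2,0,0,0⟩, ⟨85,0,0,2,0,0⟩, ⟨184,0,0,0,2,0⟩, ⟨193,0,0,0,0,2⟩, ⟨168,1,1,1,1,1⟩,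
    ⟨5,1,(-1),1,1,1⟩, ⟨109,1,(-1),1,(-1),(-1)⟩, ⟨114,1,1,(-1),(-1),(-1)⟩,
    ⟨168,1,(-1),(-1),(-1),(-1)⟩]⟩,
  ⟨[⟨1,0,0,4,6,8⟩, ⟨9,0,2,4,6,8⟩, ⟨30,0,2,6,4,8⟩, ⟨10,0,2,8,4,6⟩, ⟨10,0,4,0,4,8⟩],
   [⟨30,0,2,0,0,0⟩, ⟨138,0,0,2,0,0⟩, ⟨197,0,0,0,2,0⟩, ⟨197,0,0,0,0,2⟩, ⟨135,1,1,1,1,1⟩,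
    ⟨133,1,(-1),1,1,1⟩, ⟨133,1,1,(-1),(-1),(-1)⟩, ⟨135,1,(-1),(-1),(-1),(-1)⟩]⟩,
  ⟨[⟨1,0,0,4,6,8⟩, ⟨1,0,0,4,8,6⟩, ⟨19,0,2,4,6,8⟩, ⟨60,0,2,6,4,8⟩, ⟨19,0,2,8,4,6⟩,
    ⟨20,0,4,0,4,8⟩],
   [⟨60,0,2,0,0,0⟩, ⟨276,0,0,2,0,0⟩, ⟨394,0,0,0,2,0⟩, ⟨394,0,0,0,0,2⟩, ⟨268,1,1,1,1,1⟩,
    ⟨268,1,(-1),1,1,1⟩, ⟨268,1,1,(-1),(-1),(-1)⟩, ⟨268,1,(-1),(-1),(-1),(-1)⟩]⟩,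
  ⟨[⟨1,0,0,4,6,8⟩, ⟨1,0,0,4,8,6⟩, ⟨19,0,2,4,8,6⟩, ⟨60,0,2,6,8,4⟩, ⟨19,0,2,8,6,4⟩,
    ⟨20,0,4,0,8,4⟩],
   [⟨60,0,2,0,0,0⟩, ⟨276,0,0,2,0,0⟩, ⟨394,0,0,0,2,0⟩, ⟨394,0,0,0,0,2⟩, ⟨268,1,1,1,1,1⟩,
    ⟨268,1,(-1),1,1,1⟩, ⟨268,1,1,(-1),(-1),(-1)⟩, ⟨268,1,(-1),(-1),(-1),(-1)⟩]⟩,
  ⟨[⟨1,0,0,4,6,8⟩, ⟨10,0,2,4,8,6⟩, ⟨30,0,2,6,8,4⟩, ⟨9,0,2,8,6,4⟩, ⟨10,0,4,0,8,4⟩],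
   [⟨30,0,2,0,0,0⟩, ⟨138,0,0,2,0,0⟩, ⟨197,0,0,0,2,0⟩, ⟨197,0,0,0,0,2⟩, ⟨133,1,1,1,1,1⟩,
    ⟨135,1,(-1),1,1,1⟩, ⟨135,1,1,(-1),(-1),(-1)⟩, ⟨133,1,(-1),(-1),(-1),(-1)⟩]⟩,
  ⟨[⟨12,0,2,6,4,8⟩, ⟨12,0,2,6,8,4⟩, ⟨13,0,2,8,4,6⟩, ⟨13,0,2,8,6,4⟩, ⟨9,0,6,0,4,8⟩],
   [⟨31,0,2,0,0,0⟩, ⟨124,0,0,2,0,0⟩, ⟨185,0,0,0,2,0⟩, ⟨185,0,0,0,0,2⟩, ⟨97,1,1,1,1,1⟩,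
    ⟨150,1,(-1),1,1,1⟩, ⟨30,1,(-1),(-1),1,1⟩, ⟨180,1,1,(-1),(-1),(-1)⟩,
    ⟨97,1,(-1),(-1),(-1),(-1)⟩]⟩,
  ⟨[⟨16,0,0,6,4,8⟩, ⟨2,0,2,6,4,8⟩, ⟨3,0,2,6,8,4⟩, ⟨2,0,2,8,4,6⟩, ⟨20,0,6,2,4,8⟩,
    ⟨18,0,6,2,8,4⟩],
   [⟨108,0,2,0,0,0⟩, ⟨123,0,0,2,0,0⟩, ⟨217,0,0,0,2,0⟩, ⟨220,0,0,0,0,2⟩, ⟨227,1,(-1),1,1,1⟩,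
    ⟨227,1,1,(-1),(-1),(-1)⟩]⟩,
  ⟨[⟨20,0,0,4,4,8⟩, ⟨1,0,4,0,6,8⟩, ⟨1,0,4,0,8,6⟩, ⟨19,0,4,2,6,8⟩, ⟨19,0,4,10,8,6⟩,
    ⟨60,0,6,2,4,8⟩],
   [⟨276,0,2,0,0,0⟩, ⟨60,0,0,2,0,0⟩, ⟨394,0,0,0,2,0⟩, ⟨394,0,0,0,0,2⟩, ⟨268,1,1,1,1,1⟩,
    ⟨268,1,1,(-1),1,1⟩, ⟨268,1,(-1),1,(-1),(-1)⟩, ⟨268,1,(-1),(-1),(-1),(-1)⟩]⟩,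
  ⟨[⟨10,0,0,4,4,8⟩, ⟨1,0,4,0,8,6⟩, ⟨10,0,4,2,6,8⟩, ⟨9,0,4,10,8,6⟩, ⟨30,0,6,2,4,8⟩],
   [⟨138,0,2,0,0,0⟩, ⟨30,0,0,2,0,0⟩, ⟨197,0,0,0,2,0⟩, ⟨197,0,0,0,0,2⟩, ⟨133,1,1,1,1,1⟩,
    ⟨135,1,1,(-1),1,1⟩, ⟨135,1,(-1),1,(-1),(-1)⟩, ⟨133,1,(-1),(-1),(-1),(-1)⟩]⟩,
  ⟨[⟨30,0,2,4,4,8⟩, ⟨30,0,4,2,4,8⟩],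
   [⟨112,2,0,0,0,0⟩, ⟨142,0,2,0,0,0⟩, ⟨142,0,0,2,0,0⟩, ⟨232,0,0,0,2,0⟩, ⟨232,0,0,0,0,2⟩,
    ⟨120,1,(-1),(-1),1,1⟩, ⟨120,1,(-1),(-1),(-1),(-1)⟩]⟩,
  ⟨[⟨36,0,2,4,4,8⟩, ⟨16,0,6,2,2,8⟩, ⟨8,0,6,2,4,10⟩],
   [⟨160,2,0,0,0,0⟩, ⟨196,0,2,0,0,0⟩, ⟨208,0,0,2,0,0⟩, ⟨232,0,0,0,2,0⟩, ⟨256,0,0,0,0,2⟩,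
    ⟨16,1,1,1,1,1⟩, ⟨8,1,1,(-1),1,1⟩, ⟨8,1,(-1),1,(-1),(-1)⟩, ⟨16,1,(-1),(-1),(-1),(-1)⟩]⟩,
  ⟨[⟨28,0,2,8,8,4⟩, ⟨19,0,6,2,4,8⟩, ⟨13,1,9,5,3,9⟩],
   [⟨168,2,0,0,0,0⟩, ⟨172,0,2,0,0,0⟩, ⟨206,0,0,2,0,0⟩, ⟨238,0,0,0,2,0⟩, ⟨238,0,0,0,0,2⟩,
    ⟨13,1,(-1),1,1,1⟩, ⟨6,1,(-1),(-1),1,1⟩, ⟨32,1,(-1),1,(-1),(-1)⟩, ⟨19,1,1,(-1),(-1),(-1)⟩,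
    ⟨6,1,(-1),(-1),(-1),(-1)⟩]⟩,
  ⟨[⟨30,0,2,8,8,4⟩, ⟨30,0,4,10,8,4⟩],
   [⟨112,2,0,0,0,0⟩, ⟨142,0,2,0,0,0⟩, ⟨142,0,0,2,0,0⟩, ⟨232,0,0,0,2,0⟩, ⟨232,0,0,0,0,2⟩,
    ⟨60,1,(-1),1,1,1⟩, ⟨60,1,1,(-1),1,1⟩, ⟨60,1,(-1),1,(-1),(-1)⟩, ⟨60,1,1,(-1),(-1),(-1)⟩]⟩,
  ⟨[⟨20,0,0,4,4,8⟩, ⟨1,0,4,0,4,6⟩, ⟨1,0,4,0,6,4⟩, ⟨19,0,4,2,4,6⟩, ⟨19,0,4,10,6,4⟩,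
    ⟨60,0,6,2,4,8⟩],
   [⟨276,0,2,0,0,0⟩, ⟨60,0,0,2,0,0⟩, ⟨394,0,0,0,2,0⟩, ⟨394,0,0,0,0,2⟩, ⟨268,1,(-1),1,1,1⟩,
    ⟨268,1,(-1),(-1),1,1⟩, ⟨268,1,1,1,(-1),(-1)⟩, ⟨268,1,1,(-1),(-1),(-1)⟩]⟩,
  ⟨[⟨10,0,0,4,4,8⟩, ⟨1,0,4,0,6,4⟩, ⟨10,0,4,2,4,6⟩, ⟨9,0,4,10,6,4⟩, ⟨30,0,6,2,4,8⟩],
   [⟨138,0,2,0,0,0⟩, ⟨30,0,0,2,0,0⟩, ⟨197,0,0,0,2,0⟩, ⟨197,0,0,0,0,2⟩, ⟨135,1,(-1),1,1,1⟩,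
    ⟨133,1,(-1),(-1),1,1⟩, ⟨133,1,1,1,(-1),(-1)⟩, ⟨135,1,1,(-1),(-1),(-1)⟩]⟩,
  ⟨[⟨10,0,0,4,8,4⟩, ⟨1,0,4,0,8,6⟩, ⟨9,0,4,2,8,6⟩, ⟨10,0,4,10,6,8⟩, ⟨30,0,6,2,8,4⟩],
   [⟨138,0,2,0,0,0⟩, ⟨30,0,0,2,0,0⟩, ⟨197,0,0,0,2,0⟩, ⟨197,0,0,0,0,2⟩, ⟨135,1,1,1,1,1⟩,
    ⟨133,1,1,(-1),1,1⟩, ⟨133,1,(-1),1,(-1),(-1)⟩, ⟨135,1,(-1),(-1),(-1),(-1)⟩]⟩,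
  ⟨[⟨20,0,0,4,8,4⟩, ⟨1,0,4,0,6,8⟩, ⟨1,0,4,0,8,6⟩, ⟨19,0,4,2,8,6⟩, ⟨19,0,4,10,6,8⟩,
    ⟨60,0,6,2,8,4⟩],
   [⟨276,0,2,0,0,0⟩, ⟨60,0,0,2,0,0⟩, ⟨394,0,0,0,2,0⟩, ⟨394,0,0,0,0,2⟩, ⟨268,1,1,1,1,1⟩,
    ⟨268,1,1,(-1),1,1⟩, ⟨268,1,(-1),1,(-1),(-1)⟩, ⟨268,1,(-1),(-1),(-1),(-1)⟩]⟩,
  ⟨[⟨9,0,2,6,4,8⟩, ⟨17,0,2,8,4,8⟩, ⟨17,0,6,2,8,4⟩, ⟨9,1,3,7,3,9⟩, ⟨9,1,7,3,9,3⟩],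
   [⟨192,2,0,0,0,0⟩, ⟨201,0,2,0,0,0⟩, ⟨218,0,0,2,0,0⟩, ⟨244,0,0,0,2,0⟩, ⟨244,0,0,0,0,2⟩,
    ⟨9,1,1,(-1),1,1⟩, ⟨9,1,1,(-1),(-1),(-1)⟩]⟩,
  ⟨[⟨30,0,2,8,4,8⟩, ⟨30,0,4,10,4,8⟩],
   [⟨112,2,0,0,0,0⟩, ⟨142,0,2,0,0,0⟩, ⟨142,0,0,2,0,0⟩, ⟨232,0,0,0,2,0⟩, ⟨232,0,0,0,0,2⟩,
    ⟨60,1,(-1),1,1,1⟩, ⟨60,1,1,(-1),1,1⟩, ⟨60,1,(-1),1,(-1),(-1)⟩, ⟨60,1,1,(-1),(-1),(-1)⟩]⟩,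
  ⟨[⟨30,0,2,4,8,4⟩, ⟨30,0,4,2,8,4⟩],
   [⟨112,2,0,0,0,0⟩, ⟨142,0,2,0,0,0⟩, ⟨142,0,0,2,0,0⟩, ⟨232,0,0,0,2,0⟩, ⟨232,0,0,0,0,2⟩,
    ⟨60,1,1,1,1,1⟩, ⟨60,1,(-1),(-1),1,1⟩, ⟨60,1,1,1,(-1),(-1)⟩, ⟨60,1,(-1),(-1),(-1),(-1)⟩]⟩,
  ⟨[⟨36,0,2,4,8,4⟩, ⟨14,0,6,2,8,4⟩, ⟨10,1,5,3,9,3⟩],
   [⟨155,2,0,0,0,0⟩, ⟨162,0,2,0,0,0⟩, ⟨193,0,0,2,0,0⟩, ⟨236,0,0,0,2,0⟩, ⟨236,0,0,0,0,2⟩,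
    ⟨24,1,1,1,1,1⟩, ⟨5,1,(-1),1,1,1⟩, ⟨14,1,(-1),(-1),1,1⟩, ⟨38,1,1,1,(-1),(-1)⟩,
    ⟨5,1,(-1),1,(-1),(-1)⟩, ⟨29,1,(-1),(-1),(-1),(-1)⟩]⟩,
  ⟨[⟨10,0,0,4,8,4⟩, ⟨1,0,4,0,4,6⟩, ⟨1,0,4,0,6,4⟩, ⟨10,0,4,2,6,4⟩, ⟨10,0,4,10,4,6⟩,
    ⟨30,0,6,2,8,4⟩],
   [⟨142,0,2,0,0,0⟩, ⟨31,0,0,2,0,0⟩, ⟨203,0,0,0,2,0⟩, ⟨203,0,0,0,0,2⟩, ⟨277,1,(-1),(-1),1,1⟩,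
    ⟨277,1,1,(-1),(-1),(-1)⟩]⟩,
  ⟨[⟨20,0,0,4,8,4⟩, ⟨1,0,4,0,4,6⟩, ⟨1,0,4,0,6,4⟩, ⟨19,0,4,2,6,4⟩, ⟨19,0,4,10,4,6⟩,
    ⟨60,0,6,2,8,4⟩],
   [⟨276,0,2,0,0,0⟩, ⟨60,0,0,2,0,0⟩, ⟨394,0,0,0,2,0⟩, ⟨394,0,0,0,0,2⟩, ⟨268,1,(-1),1,1,1⟩,
    ⟨268,1,(-1),(-1),1,1⟩, ⟨268,1,1,1,(-1),(-1)⟩, ⟨268,1,1,(-1),(-1),(-1)⟩]⟩,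
  ⟨[⟨9,0,0,6,4,8⟩, ⟨5,0,2,6,4,8⟩, ⟨21,0,2,8,8,6⟩, ⟨5,0,4,10,6,8⟩, ⟨19,0,6,2,8,4⟩],
   [⟨39,0,2,0,0,0⟩, ⟨116,0,0,2,0,0⟩, ⟨177,0,0,0,2,0⟩, ⟨193,0,0,0,0,2⟩, ⟨29,1,1,1,1,1⟩,
    ⟨165,1,1,(-1),1,1⟩, ⟨83,1,(-1),(-1),1,1⟩, ⟨83,1,1,1,(-1),(-1)⟩, ⟨165,1,(-1),1,(-1),(-1)⟩,
    ⟨29,1,(-1),(-1),(-1),(-1)⟩]⟩,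
  ⟨[⟨18,0,2,6,4,8⟩, ⟨20,0,2,6,8,4⟩, ⟨2,0,4,10,6,8⟩, ⟨16,0,6,0,4,8⟩, ⟨3,0,6,2,4,8⟩,
    ⟨2,0,6,2,8,4⟩],
   [⟨123,0,2,0,0,0⟩, ⟨108,0,0,2,0,0⟩, ⟨220,0,0,0,2,0⟩, ⟨217,0,0,0,0,2⟩, ⟨227,1,1,(-1),1,1⟩,
    ⟨227,1,(-1),1,(-1),(-1)⟩]⟩,
  ⟨[⟨1,0,0,4,4,6⟩, ⟨1,0,0,4,6,4⟩, ⟨19,0,2,4,4,6⟩, ⟨60,0,2,6,4,8⟩, ⟨19,0,2,8,6,8⟩,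
    ⟨20,0,4,0,4,8⟩],
   [⟨60,0,2,0,0,0⟩, ⟨276,0,0,2,0,0⟩, ⟨394,0,0,0,2,0⟩, ⟨394,0,0,0,0,2⟩, ⟨268,1,1,(-1),1,1⟩,
    ⟨268,1,(-1),(-1),1,1⟩, ⟨268,1,1,1,(-1),(-1)⟩, ⟨268,1,(-1),1,(-1),(-1)⟩]⟩,
  ⟨[⟨1,0,0,4,4,6⟩, ⟨1,0,0,4,6,4⟩, ⟨19,0,2,4,4,6⟩, ⟨60,0,2,6,4,8⟩, ⟨19,0,2,8,6,8⟩,
    ⟨20,0,4,0,4,8⟩],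
   [⟨60,0,2,0,0,0⟩, ⟨276,0,0,2,0,0⟩, ⟨394,0,0,0,2,0⟩, ⟨394,0,0,0,0,2⟩, ⟨268,1,1,(-1),1,1⟩,
    ⟨268,1,(-1),(-1),1,1⟩, ⟨268,1,1,1,(-1),(-1)⟩, ⟨268,1,(-1),1,(-1),(-1)⟩]⟩,
  ⟨[⟨1,0,0,4,6,4⟩, ⟨9,0,2,4,6,4⟩, ⟨30,0,2,6,8,4⟩, ⟨10,0,2,8,8,6⟩, ⟨10,0,4,0,8,4⟩],
   [⟨30,0,2,0,0,0⟩, ⟨138,0,0,2,0,0⟩, ⟨197,0,0,0,2,0⟩, ⟨197,0,0,0,0,2⟩, ⟨133,1,1,(-1),1,1⟩,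
    ⟨135,1,(-1),(-1),1,1⟩, ⟨135,1,1,1,(-1),(-1)⟩, ⟨133,1,(-1),1,(-1),(-1)⟩]⟩,
  ⟨[⟨1,0,0,4,4,6⟩, ⟨10,0,2,4,6,4⟩, ⟨30,0,2,6,8,4⟩, ⟨9,0,2,8,8,6⟩, ⟨10,0,4,0,8,4⟩],
   [⟨30,0,2,0,0,0⟩, ⟨138,0,0,2,0,0⟩, ⟨197,0,0,0,2,0⟩, ⟨197,0,0,0,0,2⟩, ⟨135,1,1,(-1),1,1⟩,
    ⟨133,1,(-1),(-1),1,1⟩, ⟨133,1,1,1,(-1),(-1)⟩, ⟨135,1,(-1),1,(-1),(-1)⟩]⟩,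
  ⟨[⟨16,0,0,6,4,8⟩, ⟨2,0,2,4,6,4⟩, ⟨3,0,2,6,4,8⟩, ⟨2,0,2,6,8,4⟩, ⟨20,0,6,2,4,8⟩,
    ⟨18,0,6,2,8,4⟩],
   [⟨108,0,2,0,0,0⟩, ⟨123,0,0,2,0,0⟩, ⟨220,0,0,0,2,0⟩, ⟨217,0,0,0,0,2⟩,
    ⟨227,1,(-1),(-1),1,1⟩, ⟨227,1,1,1,(-1),(-1)⟩]⟩,
  ⟨[⟨9,0,0,6,4,8⟩, ⟨18,0,2,4,6,4⟩, ⟨9,0,4,2,4,6⟩, ⟨19,0,6,2,4,8⟩, ⟨5,0,6,2,8,4⟩],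
   [⟨72,0,2,0,0,0⟩, ⟨85,0,0,2,0,0⟩, ⟨193,0,0,0,2,0⟩, ⟨184,0,0,0,0,2⟩, ⟨55,1,(-1),1,1,1⟩,
    ⟨59,1,1,(-1),1,1⟩, ⟨168,1,(-1),(-1),1,1⟩, ⟨168,1,1,1,(-1),(-1)⟩, ⟨59,1,(-1),1,(-1),(-1)⟩,
    ⟨55,1,1,(-1),(-1),(-1)⟩]⟩,
  ⟨[⟨30,0,2,4,8,8⟩, ⟨30,0,4,2,8,8⟩],
   [⟨112,2,0,0,0,0⟩, ⟨142,0,2,0,0,0⟩, ⟨142,0,0,2,0,0⟩, ⟨232,0,0,0,2,0⟩, ⟨232,0,0,0,0,2⟩,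
    ⟨60,1,1,1,(-1),1⟩, ⟨60,1,(-1),(-1),(-1),1⟩, ⟨60,1,1,1,1,(-1)⟩, ⟨60,1,(-1),(-1),1,(-1)⟩]⟩,
  ⟨[⟨36,0,2,4,8,8⟩, ⟨7,0,6,2,8,8⟩, ⟨13,0,6,2,8,10⟩, ⟨4,1,7,9,3,3⟩],
   [⟨157,2,0,0,0,0⟩, ⟨180,0,2,0,0,0⟩, ⟨201,0,0,2,0,0⟩, ⟨260,0,0,0,2,0⟩, ⟨221,0,0,0,0,2⟩,
    ⟨13,1,(-1),1,(-1),1⟩, ⟨33,1,(-1),(-1),(-1),1⟩, ⟨20,1,1,1,1,(-1)⟩, ⟨13,1,1,(-1),1,(-1)⟩]⟩,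
  ⟨[⟨20,0,0,4,8,8⟩, ⟨1,0,4,0,4,6⟩, ⟨1,0,4,0,6,8⟩, ⟨19,0,4,2,6,8⟩, ⟨19,0,4,10,4,6⟩,
    ⟨60,0,6,2,8,8⟩],
   [⟨276,0,2,0,0,0⟩, ⟨60,0,0,2,0,0⟩, ⟨394,0,0,0,2,0⟩, ⟨394,0,0,0,0,2⟩, ⟨268,1,1,1,(-1),1⟩,
    ⟨268,1,1,(-1),(-1),1⟩, ⟨268,1,(-1),1,1,(-1)⟩, ⟨268,1,(-1),(-1),1,(-1)⟩]⟩,
  ⟨[⟨10,0,0,4,8,8⟩, ⟨1,0,4,0,4,6⟩, ⟨10,0,4,2,6,8⟩, ⟨9,0,4,10,4,6⟩, ⟨30,0,6,2,8,8⟩],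
   [⟨138,0,2,0,0,0⟩, ⟨30,0,0,2,0,0⟩, ⟨197,0,0,0,2,0⟩, ⟨197,0,0,0,0,2⟩, ⟨133,1,1,1,(-1),1⟩,
    ⟨135,1,1,(-1),(-1),1⟩, ⟨135,1,(-1),1,1,(-1)⟩, ⟨133,1,(-1),(-1),1,(-1)⟩]⟩,
  ⟨[⟨20,0,0,4,8,8⟩, ⟨1,0,4,0,6,4⟩, ⟨1,0,4,0,8,6⟩, ⟨19,0,4,2,8,6⟩, ⟨19,0,4,10,6,4⟩,
    ⟨60,0,6,2,8,8⟩],
   [⟨276,0,2,0,0,0⟩, ⟨60,0,0,2,0,0⟩, ⟨394,0,0,0,2,0⟩, ⟨394,0,0,0,0,2⟩, ⟨268,1,(-1),1,(-1),1⟩,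
    ⟨268,1,(-1),(-1),(-1),1⟩, ⟨268,1,1,1,1,(-1)⟩, ⟨268,1,1,(-1),1,(-1)⟩]⟩,
  ⟨[⟨10,0,0,4,8,8⟩, ⟨1,0,4,0,6,4⟩, ⟨10,0,4,2,8,6⟩, ⟨9,0,4,10,6,4⟩, ⟨30,0,6,2,8,8⟩],
   [⟨138,0,2,0,0,0⟩, ⟨30,0,0,2,0,0⟩, ⟨197,0,0,0,2,0⟩, ⟨197,0,0,0,0,2⟩, ⟨135,1,(-1),1,(-1),1⟩,
    ⟨133,1,(-1),(-1),(-1),1⟩, ⟨133,1,1,1,1,(-1)⟩, ⟨135,1,1,(-1),1,(-1)⟩]⟩,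
  ⟨[⟨36,0,2,8,4,4⟩, ⟨14,0,6,2,8,8⟩, ⟨10,1,5,9,3,3⟩],
   [⟨14,0,0,0,2,(-2)⟩, ⟨169,2,0,0,0,0⟩, ⟨176,0,2,0,0,0⟩, ⟨208,0,0,2,0,0⟩, ⟨236,0,0,0,2,0⟩,
    ⟨236,0,0,0,0,2⟩, ⟨10,1,1,(-1),(-1),1⟩, ⟨5,1,(-1),(-1),(-1),1⟩, ⟨14,1,1,1,1,(-1)⟩,
    ⟨10,1,1,(-1),1,(-1)⟩, ⟨19,1,(-1),(-1),1,(-1)⟩]⟩,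
  ⟨[⟨30,0,2,8,4,4⟩, ⟨30,0,4,10,4,4⟩],
   [⟨112,2,0,0,0,0⟩, ⟨142,0,2,0,0,0⟩, ⟨142,0,0,2,0,0⟩, ⟨232,0,0,0,2,0⟩, ⟨232,0,0,0,0,2⟩,
    ⟨60,1,(-1),1,(-1),1⟩, ⟨60,1,1,(-1),(-1),1⟩, ⟨60,1,(-1),1,1,(-1)⟩, ⟨60,1,1,(-1),1,(-1)⟩]⟩,
  ⟨[⟨1,0,0,4,6,8⟩, ⟨9,0,2,4,6,8⟩, ⟨30,0,2,6,8,8⟩, ⟨10,0,2,8,8,6⟩, ⟨10,0,4,0,8,8⟩],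
   [⟨30,0,2,0,0,0⟩, ⟨138,0,0,2,0,0⟩, ⟨197,0,0,0,2,0⟩, ⟨197,0,0,0,0,2⟩, ⟨135,1,1,1,(-1),1⟩,
    ⟨133,1,(-1),1,(-1),1⟩, ⟨133,1,1,(-1),1,(-1)⟩, ⟨135,1,(-1),(-1),1,(-1)⟩]⟩,
  ⟨[⟨1,0,0,4,4,6⟩, ⟨10,0,2,4,6,8⟩, ⟨30,0,2,6,8,8⟩, ⟨9,0,2,8,8,6⟩, ⟨10,0,4,0,8,8⟩],
   [⟨30,0,2,0,0,0⟩, ⟨138,0,0,2,0,0⟩, ⟨197,0,0,0,2,0⟩, ⟨197,0,0,0,0,2⟩, ⟨133,1,1,1,(-1),1⟩,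
    ⟨135,1,(-1),1,(-1),1⟩, ⟨135,1,1,(-1),1,(-1)⟩, ⟨133,1,(-1),(-1),1,(-1)⟩]⟩,
  ⟨[⟨16,0,0,6,4,4⟩, ⟨4,0,2,6,4,4⟩, ⟨2,0,2,6,8,8⟩, ⟨2,0,4,2,6,8⟩, ⟨18,0,6,2,4,4⟩,
    ⟨17,0,6,2,8,8⟩],
   [⟨103,0,2,0,0,0⟩, ⟨120,0,0,2,0,0⟩, ⟨212,0,0,0,2,0⟩, ⟨210,0,0,0,0,2⟩, ⟨219,1,1,1,(-1),1⟩,
    ⟨219,1,(-1),(-1),1,(-1)⟩]⟩,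
  ⟨[⟨5,0,2,4,4,6⟩, ⟨21,0,2,4,6,8⟩, ⟨8,0,2,6,4,4⟩, ⟨9,0,6,0,4,4⟩, ⟨16,0,6,2,4,4⟩],
   [⟨95,0,2,0,0,0⟩, ⟨60,0,0,2,0,0⟩, ⟨193,0,0,0,2,0⟩, ⟨177,0,0,0,0,2⟩, ⟨52,1,1,1,(-1),1⟩,
    ⟨100,1,(-1),1,(-1),1⟩, ⟨125,1,1,(-1),(-1),1⟩, ⟨277,1,(-1),(-1),1,(-1)⟩]⟩,
  ⟨[⟨9,0,0,6,4,4⟩, ⟨13,0,4,10,6,4⟩, ⟨13,0,4,10,8,6⟩, ⟨12,0,6,2,4,4⟩, ⟨12,0,6,2,8,8⟩],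
   [⟨124,0,2,0,0,0⟩, ⟨31,0,0,2,0,0⟩, ⟨185,0,0,0,2,0⟩, ⟨185,0,0,0,0,2⟩, ⟨15,1,1,1,(-1),1⟩,
    ⟨165,1,(-1),1,(-1),1⟩, ⟨97,1,(-1),(-1),(-1),1⟩, ⟨97,1,1,1,1,(-1)⟩, ⟨165,1,1,(-1),1,(-1)⟩,
    ⟨15,1,(-1),(-1),1,(-1)⟩]⟩,
  ⟨[⟨16,0,0,6,4,4⟩, ⟨3,0,2,6,4,4⟩, ⟨2,0,2,6,8,8⟩, ⟨2,0,2,8,8,6⟩, ⟨18,0,6,2,4,4⟩,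
    ⟨20,0,6,2,8,8⟩],
   [⟨108,0,2,0,0,0⟩, ⟨123,0,0,2,0,0⟩, ⟨217,0,0,0,2,0⟩, ⟨220,0,0,0,0,2⟩,
    ⟨227,1,(-1),1,(-1),1⟩, ⟨227,1,1,(-1),1,(-1)⟩]⟩,
  ⟨[⟨1,0,0,4,4,6⟩, ⟨1,0,0,4,6,8⟩, ⟨19,0,2,4,4,6⟩, ⟨60,0,2,6,4,4⟩, ⟨19,0,2,8,6,4⟩,
    ⟨20,0,4,0,4,4⟩],
   [⟨60,0,2,0,0,0⟩, ⟨276,0,0,2,0,0⟩, ⟨394,0,0,0,2,0⟩, ⟨394,0,0,0,0,2⟩, ⟨268,1,1,1,(-1),1⟩,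
    ⟨268,1,(-1),1,(-1),1⟩, ⟨268,1,1,(-1),1,(-1)⟩, ⟨268,1,(-1),(-1),1,(-1)⟩]⟩,
  ⟨[⟨1,0,0,4,4,6⟩, ⟨1,0,0,4,6,8⟩, ⟨19,0,2,4,4,6⟩, ⟨60,0,2,6,4,4⟩, ⟨19,0,2,8,6,4⟩,
    ⟨20,0,4,0,4,4⟩],
   [⟨60,0,2,0,0,0⟩, ⟨276,0,0,2,0,0⟩, ⟨394,0,0,0,2,0⟩, ⟨394,0,0,0,0,2⟩, ⟨268,1,1,1,(-1),1⟩,
    ⟨268,1,(-1),1,(-1),1⟩, ⟨268,1,1,(-1),1,(-1)⟩, ⟨268,1,(-1),(-1),1,(-1)⟩]⟩,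
  ⟨[⟨1,0,0,4,8,6⟩, ⟨9,0,2,4,8,6⟩, ⟨30,0,2,6,8,8⟩, ⟨10,0,2,8,6,8⟩, ⟨10,0,4,0,8,8⟩],
   [⟨30,0,2,0,0,0⟩, ⟨138,0,0,2,0,0⟩, ⟨197,0,0,0,2,0⟩, ⟨197,0,0,0,0,2⟩, ⟨133,1,1,(-1),(-1),1⟩,
    ⟨135,1,(-1),(-1),(-1),1⟩, ⟨135,1,1,1,1,(-1)⟩, ⟨133,1,(-1),1,1,(-1)⟩]⟩,
  ⟨[⟨1,0,0,4,6,4⟩, ⟨10,0,2,4,8,6⟩, ⟨30,0,2,6,8,8⟩, ⟨9,0,2,8,6,8⟩, ⟨10,0,4,0,8,8⟩],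
   [⟨30,0,2,0,0,0⟩, ⟨138,0,0,2,0,0⟩, ⟨197,0,0,0,2,0⟩, ⟨197,0,0,0,0,2⟩, ⟨135,1,1,(-1),(-1),1⟩,
    ⟨133,1,(-1),(-1),(-1),1⟩, ⟨133,1,1,1,1,(-1)⟩, ⟨135,1,(-1),1,1,(-1)⟩]⟩,
  ⟨[⟨9,0,0,6,4,4⟩, ⟨13,0,4,10,4,6⟩, ⟨13,0,4,10,6,8⟩, ⟨12,0,6,2,4,4⟩, ⟨12,0,6,2,8,8⟩],
   [⟨124,0,2,0,0,0⟩, ⟨31,0,0,2,0,0⟩, ⟨185,0,0,0,2,0⟩, ⟨185,0,0,0,0,2⟩, ⟨97,1,1,1,(-1),1⟩,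
    ⟨165,1,1,(-1),(-1),1⟩, ⟨15,1,(-1),(-1),(-1),1⟩, ⟨15,1,1,1,1,(-1)⟩, ⟨165,1,(-1),1,1,(-1)⟩,
    ⟨97,1,(-1),(-1),1,(-1)⟩]⟩,
  ⟨[⟨16,0,0,6,4,4⟩, ⟨2,0,2,6,4,4⟩, ⟨3,0,2,6,8,8⟩, ⟨2,0,2,8,4,6⟩, ⟨20,0,6,2,4,4⟩,
    ⟨18,0,6,2,8,8⟩],
   [⟨108,0,2,0,0,0⟩, ⟨123,0,0,2,0,0⟩, ⟨217,0,0,0,2,0⟩, ⟨220,0,0,0,0,2⟩,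
    ⟨227,1,1,(-1),(-1),1⟩, ⟨227,1,(-1),1,1,(-1)⟩]⟩,
  ⟨[⟨16,0,0,6,4,4⟩, ⟨2,0,2,4,8,6⟩, ⟨3,0,2,6,4,4⟩, ⟨2,0,2,6,8,8⟩, ⟨20,0,6,2,4,4⟩,
    ⟨18,0,6,2,8,8⟩],
   [⟨108,0,2,0,0,0⟩, ⟨123,0,0,2,0,0⟩, ⟨217,0,0,0,2,0⟩, ⟨220,0,0,0,0,2⟩,
    ⟨227,1,(-1),(-1),(-1),1⟩, ⟨227,1,1,1,1,(-1)⟩]⟩,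
  ⟨[⟨7,0,0,6,4,4⟩, ⟨13,0,4,2,6,4⟩, ⟨13,0,4,2,8,6⟩, ⟨3,0,6,0,4,4⟩, ⟨12,0,6,2,4,4⟩,
    ⟨12,0,6,2,8,8⟩],
   [⟨148,0,2,0,0,0⟩, ⟨9,0,0,2,0,0⟩, ⟨188,0,0,0,2,0⟩, ⟨188,0,0,0,0,2⟩, ⟨114,1,(-1),1,(-1),1⟩,
    ⟨168,1,(-1),(-1),(-1),1⟩, ⟨168,1,1,1,1,(-1)⟩, ⟨114,1,1,(-1),1,(-1)⟩]⟩,
  ⟨[⟨1,0,0,4,6,4⟩, ⟨9,0,2,4,6,4⟩, ⟨30,0,2,6,4,4⟩, ⟨10,0,2,8,4,6⟩, ⟨10,0,4,0,4,4⟩],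
   [⟨30,0,2,0,0,0⟩, ⟨138,0,0,2,0,0⟩, ⟨197,0,0,0,2,0⟩, ⟨197,0,0,0,0,2⟩, ⟨133,1,1,(-1),(-1),1⟩,
    ⟨135,1,(-1),(-1),(-1),1⟩, ⟨135,1,1,1,1,(-1)⟩, ⟨133,1,(-1),1,1,(-1)⟩]⟩,
  ⟨[⟨1,0,0,4,8,6⟩, ⟨10,0,2,4,6,4⟩, ⟨30,0,2,6,4,4⟩, ⟨9,0,2,8,4,6⟩, ⟨10,0,4,0,4,4⟩],
   [⟨30,0,2,0,0,0⟩, ⟨138,0,0,2,0,0⟩, ⟨197,0,0,0,2,0⟩, ⟨197,0,0,0,0,2⟩, ⟨135,1,1,(-1),(-1),1⟩,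
    ⟨133,1,(-1),(-1),(-1),1⟩, ⟨133,1,1,1,1,(-1)⟩, ⟨135,1,(-1),1,1,(-1)⟩]⟩,
  ⟨[⟨9,0,2,6,8,8⟩, ⟨17,0,2,8,8,8⟩, ⟨17,0,6,2,4,4⟩, ⟨9,1,3,7,9,9⟩, ⟨9,1,7,3,3,3⟩],
   [⟨192,2,0,0,0,0⟩, ⟨201,0,2,0,0,0⟩, ⟨218,0,0,2,0,0⟩, ⟨244,0,0,0,2,0⟩, ⟨244,0,0,0,0,2⟩,
    ⟨9,1,(-1),1,(-1),1⟩, ⟨9,1,(-1),1,1,(-1)⟩]⟩,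
  ⟨[⟨30,0,2,8,8,8⟩, ⟨30,0,4,10,8,8⟩],
   [⟨112,2,0,0,0,0⟩, ⟨142,0,2,0,0,0⟩, ⟨142,0,0,2,0,0⟩, ⟨232,0,0,0,2,0⟩, ⟨232,0,0,0,0,2⟩,
    ⟨60,1,(-1),1,(-1),1⟩, ⟨60,1,1,(-1),(-1),1⟩, ⟨60,1,(-1),1,1,(-1)⟩, ⟨60,1,1,(-1),1,(-1)⟩]⟩,
  ⟨[⟨10,0,0,4,4,4⟩, ⟨1,0,4,0,4,6⟩, ⟨9,0,4,2,4,6⟩, ⟨10,0,4,10,6,8⟩, ⟨30,0,6,2,4,4⟩],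
   [⟨138,0,2,0,0,0⟩, ⟨30,0,0,2,0,0⟩, ⟨197,0,0,0,2,0⟩, ⟨197,0,0,0,0,2⟩, ⟨135,1,1,1,(-1),1⟩,
    ⟨133,1,1,(-1),(-1),1⟩, ⟨133,1,(-1),1,1,(-1)⟩, ⟨135,1,(-1),(-1),1,(-1)⟩]⟩,
  ⟨[⟨10,0,0,4,4,4⟩, ⟨1,0,4,0,6,8⟩, ⟨10,0,4,2,4,6⟩, ⟨9,0,4,10,6,8⟩, ⟨30,0,6,2,4,4⟩],
   [⟨138,0,2,0,0,0⟩, ⟨30,0,0,2,0,0⟩, ⟨197,0,0,0,2,0⟩, ⟨197,0,0,0,0,2⟩, ⟨133,1,1,1,(-1),1⟩,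
    ⟨135,1,1,(-1),(-1),1⟩, ⟨135,1,(-1),1,1,(-1)⟩, ⟨133,1,(-1),(-1),1,(-1)⟩]⟩,
  ⟨[⟨20,0,0,4,4,4⟩, ⟨1,0,4,0,6,4⟩, ⟨1,0,4,0,8,6⟩, ⟨19,0,4,2,6,4⟩, ⟨19,0,4,10,8,6⟩,
    ⟨60,0,6,2,4,4⟩],
   [⟨276,0,2,0,0,0⟩, ⟨60,0,0,2,0,0⟩, ⟨394,0,0,0,2,0⟩, ⟨394,0,0,0,0,2⟩, ⟨268,1,(-1),1,(-1),1⟩,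
    ⟨268,1,(-1),(-1),(-1),1⟩, ⟨268,1,1,1,1,(-1)⟩, ⟨268,1,1,(-1),1,(-1)⟩]⟩,
  ⟨[⟨10,0,0,4,4,4⟩, ⟨1,0,4,0,8,6⟩, ⟨10,0,4,2,6,4⟩, ⟨9,0,4,10,8,6⟩, ⟨30,0,6,2,4,4⟩],
   [⟨138,0,2,0,0,0⟩, ⟨30,0,0,2,0,0⟩, ⟨197,0,0,0,2,0⟩, ⟨197,0,0,0,0,2⟩, ⟨135,1,(-1),1,(-1),1⟩,
    ⟨133,1,(-1),(-1),(-1),1⟩, ⟨133,1,1,1,1,(-1)⟩, ⟨135,1,1,(-1),1,(-1)⟩]⟩,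
  ⟨[⟨30,0,2,4,4,4⟩, ⟨30,0,4,2,4,4⟩],
   [⟨112,2,0,0,0,0⟩, ⟨142,0,2,0,0,0⟩, ⟨142,0,0,2,0,0⟩, ⟨232,0,0,0,2,0⟩, ⟨232,0,0,0,0,2⟩,
    ⟨120,1,(-1),(-1),(-1),1⟩, ⟨120,1,(-1),(-1),1,(-1)⟩]⟩,
  ⟨[⟨36,0,2,4,4,4⟩, ⟨14,0,6,2,4,4⟩, ⟨10,1,5,3,3,3⟩],
   [⟨29,0,0,0,2,(-2)⟩, ⟨184,2,0,0,0,0⟩, ⟨191,0,2,0,0,0⟩, ⟨222,0,0,2,0,0⟩, ⟨236,0,0,0,2,0⟩,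
    ⟨236,0,0,0,0,2⟩]⟩]

lemma check_certs1 : checkAll 1 certs1 = true := by
  decide +kernel

end Pool.Agent.N554.RG
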