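import Pool.Agent.N554.RG.Check

/-!
# Certificates for cone 2
-/

set_option autoImplicit false

namespace Pool.Agent.N554.RG

/-- The certificates of the cone 2, indexed by the sign pattern. -/
def certs2 : List Cert := [
  ⟨[⟨7,0,0,4,6,8⟩, ⟨7,0,0,4,8,6⟩, ⟨11,0,0,6,4,8⟩, ⟨13,0,6,2,0,6⟩, ⟨13,0,6,4,0,6⟩,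
    ⟨7,1,7,9,1,5⟩],
   [⟨130,0,0,2,0,0⟩, ⟨206,0,0,0,2,0⟩, ⟨206,0,0,0,0,2⟩, ⟨519,1,(-1),(-1),(-1),(-1)⟩]⟩,
  ⟨[⟨6,0,0,4,8,6⟩, ⟨18,0,0,6,4,8⟩, ⟨3,0,4,4,0,8⟩, ⟨6,0,4,6,0,8⟩, ⟨3,0,6,4,0,8⟩, ⟨24,1,7,9,1,5⟩],
   [⟨45,2,0,0,0,0⟩, ⟨165,0,0,2,0,0⟩, ⟨237,0,0,0,2,0⟩, ⟨195,0,0,0,0,2⟩,
    ⟨180,1,1,(-1),(-1),(-1)⟩, ⟨276,1,(-1),(-1),(-1),(-1)⟩]⟩,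
  ⟨[⟨13,0,0,4,8,6⟩, ⟨6,0,0,6,4,8⟩, ⟨13,0,2,6,4,8⟩, ⟨15,0,6,4,0,8⟩, ⟨3,1,5,9,1,7⟩,
    ⟨10,1,7,9,1,5⟩],
   [⟨58,2,0,0,0,0⟩, ⟨164,0,0,2,0,0⟩, ⟨233,0,0,0,2,0⟩, ⟨185,0,0,0,0,2⟩,
    ⟨207,1,1,(-1),(-1),(-1)⟩, ⟨251,1,(-1),(-1),(-1),(-1)⟩]⟩,
  ⟨[⟨12,0,0,4,8,6⟩, ⟨7,0,0,6,4,8⟩, ⟨12,0,2,6,4,8⟩, ⟨2,0,4,6,0,8⟩, ⟨13,0,6,4,0,8⟩,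
    ⟨1,1,5,9,1,7⟩, ⟨13,1,7,9,1,5⟩],
   [⟨59,2,0,0,0,0⟩, ⟨165,0,0,2,0,0⟩, ⟨233,0,0,0,2,0⟩, ⟨185,0,0,0,0,2⟩,
    ⟨210,1,1,(-1),(-1),(-1)⟩, ⟨246,1,(-1),(-1),(-1),(-1)⟩]⟩,
  ⟨[⟨12,0,0,4,8,6⟩, ⟨6,0,0,6,4,8⟩, ⟨13,0,2,6,8,4⟩, ⟨2,0,4,6,0,4⟩, ⟨12,0,6,4,0,8⟩,
    ⟨15,1,5,9,1,5⟩],
   [⟨56,2,0,0,0,0⟩, ⟨166,0,0,2,0,0⟩, ⟨230,0,0,0,2,0⟩, ⟨187,0,0,0,0,2⟩, ⟨11,1,(-1),1,1,1⟩,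
    ⟨236,1,1,(-1),(-1),(-1)⟩, ⟨211,1,(-1),(-1),(-1),(-1)⟩]⟩,
  ⟨[⟨12,0,0,4,8,6⟩, ⟨6,0,0,6,4,8⟩, ⟨13,0,2,6,8,4⟩, ⟨1,0,4,6,0,4⟩, ⟨13,0,6,4,0,8⟩,
    ⟨14,1,5,9,1,5⟩, ⟨1,1,7,9,1,7⟩],
   [⟨56,2,0,0,0,0⟩, ⟨166,0,0,2,0,0⟩, ⟨230,0,0,0,2,0⟩, ⟨187,0,0,0,0,2⟩, ⟨13,1,(-1),1,1,1⟩,
    ⟨236,1,1,(-1),(-1),(-1)⟩, ⟨210,1,(-1),(-1),(-1),(-1)⟩]⟩,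
  ⟨[⟨5,0,0,4,8,6⟩, ⟨19,0,0,6,4,8⟩, ⟨1,0,4,6,0,4⟩, ⟨6,0,4,8,0,4⟩, ⟨1,1,3,7,1,5⟩, ⟨27,1,5,9,1,5⟩],
   [⟨29,2,0,0,0,0⟩, ⟨163,0,0,2,0,0⟩, ⟨224,0,0,0,2,0⟩, ⟨202,0,0,0,0,2⟩, ⟨51,1,(-1),1,1,1⟩,
    ⟨245,1,1,(-1),(-1),(-1)⟩, ⟨165,1,(-1),(-1),(-1),(-1)⟩]⟩,
  ⟨[⟨19,0,0,6,4,8⟩, ⟨2,0,6,2,0,6⟩, ⟨2,0,6,4,0,6⟩, ⟨37,1,5,9,1,5⟩],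
   [⟨159,0,0,2,0,0⟩, ⟨225,0,0,0,2,0⟩, ⟨225,0,0,0,0,2⟩, ⟨74,1,(-1),1,1,1⟩,
    ⟨340,1,1,(-1),(-1),(-1)⟩, ⟨74,1,(-1),(-1),(-1),(-1)⟩]⟩,
  ⟨[⟨7,0,0,4,4,8⟩, ⟨10,0,6,2,2,8⟩, ⟨17,0,6,4,2,8⟩, ⟨5,1,5,3,1,7⟩, ⟨22,2,0,4,4,8⟩],
   [⟨151,2,0,0,0,0⟩, ⟨151,0,2,0,0,0⟩, ⟨188,0,0,2,0,0⟩, ⟨249,0,0,0,2,0⟩, ⟨227,0,0,0,0,2⟩,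
    ⟨29,1,1,1,(-1),1⟩, ⟨68,1,(-1),1,(-1),(-1)⟩, ⟨54,1,(-1),(-1),(-1),(-1)⟩]⟩,
  ⟨[⟨15,0,2,4,4,8⟩, ⟨30,1,5,3,1,7⟩, ⟨15,2,0,4,4,8⟩],
   [⟨157,2,0,0,0,0⟩, ⟨157,0,2,0,0,0⟩, ⟨172,0,0,2,0,0⟩, ⟨232,0,0,0,2,0⟩, ⟨232,0,0,0,0,2⟩,
    ⟨30,1,1,1,(-1),1⟩, ⟨60,1,(-1),1,(-1),(-1)⟩, ⟨60,1,(-1),(-1),(-1),(-1)⟩]⟩,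
  ⟨[⟨3,0,2,4,4,8⟩, ⟨6,0,6,4,2,8⟩, ⟨9,1,1,5,3,7⟩, ⟨30,1,5,3,1,7⟩, ⟨12,2,0,4,4,8⟩],
   [⟨149,2,0,0,0,0⟩, ⟨140,0,2,0,0,0⟩, ⟨161,0,0,2,0,0⟩, ⟨221,0,0,0,2,0⟩, ⟨221,0,0,0,0,2⟩,
    ⟨60,1,1,1,(-1),1⟩, ⟨9,1,1,1,(-1),(-1)⟩, ⟨48,1,(-1),1,(-1),(-1)⟩,
    ⟨90,1,(-1),(-1),(-1),(-1)⟩]⟩,
  ⟨[⟨15,0,2,4,4,8⟩, ⟨30,1,5,3,1,7⟩, ⟨15,2,0,4,4,8⟩],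
   [⟨157,2,0,0,0,0⟩, ⟨157,0,2,0,0,0⟩, ⟨172,0,0,2,0,0⟩, ⟨232,0,0,0,2,0⟩, ⟨232,0,0,0,0,2⟩,
    ⟨30,1,1,1,(-1),1⟩, ⟨60,1,(-1),1,(-1),(-1)⟩, ⟨60,1,(-1),(-1),(-1),(-1)⟩]⟩,
  ⟨[⟨23,0,2,8,8,4⟩, ⟨10,0,6,2,2,8⟩, ⟨12,0,6,4,2,8⟩, ⟨15,2,0,4,4,8⟩],
   [⟨173,2,0,0,0,0⟩, ⟨158,0,2,0,0,0⟩, ⟨203,0,0,2,0,0⟩, ⟨241,0,0,0,2,0⟩, ⟨233,0,0,0,0,2⟩,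
    ⟨15,1,(-1),1,(-1),1⟩, ⟨10,1,1,1,(-1),(-1)⟩, ⟨30,1,(-1),1,(-1),(-1)⟩,
    ⟨35,1,1,(-1),(-1),(-1)⟩]⟩,
  ⟨[⟨19,0,2,8,8,4⟩, ⟨11,0,6,2,2,8⟩, ⟨14,0,6,4,2,8⟩, ⟨3,1,1,5,3,7⟩, ⟨14,2,0,4,4,8⟩],
   [⟨173,2,0,0,0,0⟩, ⟨159,0,2,0,0,0⟩, ⟨204,0,0,2,0,0⟩, ⟨240,0,0,0,2,0⟩, ⟨237,0,0,0,0,2⟩,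
    ⟨22,1,(-1),1,(-1),1⟩, ⟨14,1,1,1,(-1),(-1)⟩, ⟨22,1,(-1),1,(-1),(-1)⟩,
    ⟨44,1,1,(-1),(-1),(-1)⟩]⟩,
  ⟨[⟨14,0,2,8,8,4⟩, ⟨12,0,6,2,2,8⟩, ⟨15,0,6,4,2,8⟩, ⟨7,1,1,5,3,7⟩, ⟨12,2,0,4,4,8⟩],
   [⟨166,2,0,0,0,0⟩, ⟨155,0,2,0,0,0⟩, ⟨196,0,0,2,0,0⟩, ⟨229,0,0,0,2,0⟩, ⟨233,0,0,0,0,2⟩,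
    ⟨32,1,(-1),1,(-1),1⟩, ⟨27,1,1,1,(-1),(-1)⟩, ⟨2,1,(-1),1,(-1),(-1)⟩,
    ⟨49,1,1,(-1),(-1),(-1)⟩, ⟨8,1,(-1),(-1),(-1),(-1)⟩]⟩,
  ⟨[⟨10,0,2,8,8,4⟩, ⟨12,0,6,2,2,8⟩, ⟨15,0,6,4,2,8⟩, ⟨3,1,1,5,3,7⟩, ⟨4,1,1,7,7,3⟩,
    ⟨15,2,0,4,4,8⟩],
   [⟨160,2,0,0,0,0⟩, ⟨156,0,2,0,0,0⟩, ⟨193,0,0,2,0,0⟩, ⟨233,0,0,0,2,0⟩, ⟨222,0,0,0,0,2⟩,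
    ⟨32,1,(-1),1,(-1),1⟩, ⟨38,1,1,1,(-1),(-1)⟩, ⟨9,1,(-1),1,(-1),(-1)⟩,
    ⟨37,1,1,(-1),(-1),(-1)⟩]⟩,
  ⟨[⟨7,0,0,4,8,4⟩, ⟨22,0,2,8,4,8⟩, ⟨17,0,6,2,10,4⟩, ⟨10,0,6,4,10,4⟩, ⟨5,1,5,9,1,7⟩],
   [⟨151,2,0,0,0,0⟩, ⟨151,0,2,0,0,0⟩, ⟨188,0,0,2,0,0⟩, ⟨227,0,0,0,2,0⟩, ⟨249,0,0,0,0,2⟩,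
    ⟨29,1,1,(-1),(-1),1⟩, ⟨68,1,(-1),1,(-1),(-1)⟩, ⟨54,1,(-1),(-1),(-1),(-1)⟩]⟩,
  ⟨[⟨16,0,0,4,8,4⟩, ⟨11,0,6,2,10,4⟩, ⟨11,0,6,4,10,4⟩, ⟨22,1,5,9,1,7⟩],
   [⟨113,2,0,0,0,0⟩, ⟨113,0,2,0,0,0⟩, ⟨145,0,0,2,0,0⟩, ⟨222,0,0,0,2,0⟩, ⟨222,0,0,0,0,2⟩,
    ⟨65,1,1,(-1),(-1),1⟩, ⟨109,1,(-1),1,(-1),(-1)⟩, ⟨109,1,(-1),(-1),(-1),(-1)⟩]⟩,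
  ⟨[⟨33,0,2,8,4,8⟩, ⟨18,0,6,2,10,4⟩, ⟨7,0,6,4,10,4⟩, ⟨2,1,1,7,5,9⟩],
   [⟨169,2,0,0,0,0⟩, ⟨170,0,2,0,0,0⟩, ⟨203,0,0,2,0,0⟩, ⟨223,0,0,0,2,0⟩, ⟨253,0,0,0,0,2⟩,
    ⟨14,1,1,(-1),(-1),1⟩, ⟨38,1,(-1),1,(-1),(-1)⟩, ⟨27,1,(-1),(-1),(-1),(-1)⟩]⟩,
  ⟨[⟨8,0,0,4,8,4⟩, ⟨15,0,2,8,4,8⟩, ⟨15,0,6,2,10,4⟩, ⟨15,0,6,4,10,4⟩, ⟨7,2,0,8,4,8⟩],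
   [⟨151,2,0,0,0,0⟩, ⟨143,0,2,0,0,0⟩, ⟨188,0,0,2,0,0⟩, ⟨233,0,0,0,2,0⟩, ⟨233,0,0,0,0,2⟩,
    ⟨30,1,1,(-1),(-1),1⟩, ⟨60,1,(-1),1,(-1),(-1)⟩, ⟨15,1,1,(-1),(-1),(-1)⟩,
    ⟨45,1,(-1),(-1),(-1),(-1)⟩]⟩,
  ⟨[⟨3,0,0,4,8,4⟩, ⟨25,0,2,4,8,4⟩, ⟨13,0,6,2,10,4⟩, ⟨13,0,6,4,10,4⟩, ⟨6,2,0,8,4,8⟩],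
   [⟨164,2,0,0,0,0⟩, ⟨145,0,2,0,0,0⟩, ⟨196,0,0,2,0,0⟩, ⟨233,0,0,0,2,0⟩, ⟨233,0,0,0,0,2⟩,
    ⟨25,1,(-1),(-1),(-1),1⟩, ⟨51,1,1,1,(-1),(-1)⟩, ⟨13,1,1,(-1),(-1),(-1)⟩,
    ⟨38,1,(-1),(-1),(-1),(-1)⟩]⟩,
  ⟨[⟨38,0,2,4,8,4⟩, ⟨15,0,6,2,10,4⟩, ⟨7,0,6,4,10,4⟩],
   [⟨173,2,0,0,0,0⟩, ⟨158,0,2,0,0,0⟩, ⟨203,0,0,2,0,0⟩, ⟨226,0,0,0,2,0⟩, ⟨248,0,0,0,0,2⟩,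
    ⟨15,1,(-1),(-1),(-1),1⟩, ⟨45,1,1,1,(-1),(-1)⟩, ⟨30,1,(-1),(-1),(-1),(-1)⟩]⟩,
  ⟨[⟨1,0,0,4,8,4⟩, ⟨20,0,2,4,8,4⟩, ⟨17,0,6,2,10,4⟩, ⟨11,0,6,4,10,4⟩, ⟨6,1,1,7,3,7⟩,
    ⟨6,2,0,8,4,8⟩],
   [⟨158,2,0,0,0,0⟩, ⟨161,0,2,0,0,0⟩, ⟨198,0,0,2,0,0⟩, ⟨220,0,0,0,2,0⟩, ⟨249,0,0,0,0,2⟩,
    ⟨17,1,(-1),(-1),1,1⟩, ⟨34,1,(-1),(-1),(-1),1⟩, ⟨51,1,1,1,(-1),(-1)⟩,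
    ⟨28,1,1,(-1),(-1),(-1)⟩]⟩,
  ⟨[⟨7,0,2,4,8,4⟩, ⟨12,0,6,2,10,4⟩, ⟨15,0,6,4,10,4⟩, ⟨7,1,1,5,7,3⟩, ⟨18,2,0,8,4,8⟩],
   [⟨157,2,0,0,0,0⟩, ⟨159,0,2,0,0,0⟩, ⟨193,0,0,2,0,0⟩, ⟨239,0,0,0,2,0⟩, ⟨216,0,0,0,0,2⟩,
    ⟨32,1,(-1),(-1),(-1),1⟩, ⟨13,1,1,1,(-1),(-1)⟩, ⟨9,1,(-1),1,(-1),(-1)⟩,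
    ⟨62,1,1,(-1),(-1),(-1)⟩]⟩,
  ⟨[⟨18,0,0,6,4,8⟩, ⟨9,0,2,8,6,8⟩, ⟨24,1,7,3,1,5⟩, ⟨9,2,0,4,4,6⟩],
   [⟨163,0,0,2,0,0⟩, ⟨201,0,0,0,2,0⟩, ⟨201,0,0,0,0,2⟩, ⟨128,1,1,(-1),1,1⟩,
    ⟨75,1,(-1),(-1),1,1⟩, ⟨128,1,1,1,(-1),(-1)⟩, ⟨193,1,(-1),1,(-1),(-1)⟩,
    ⟨11,1,(-1),(-1),(-1),(-1)⟩]⟩,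
  ⟨[⟨6,0,0,4,6,4⟩, ⟨18,0,0,6,4,8⟩, ⟨3,0,6,2,2,6⟩, ⟨24,1,7,3,1,5⟩, ⟨6,2,6,0,2,6⟩, ⟨3,2,6,2,2,6⟩],
   [⟨45,0,2,0,0,0⟩, ⟨165,0,0,2,0,0⟩, ⟨195,0,0,0,2,0⟩, ⟨237,0,0,0,0,2⟩, ⟨180,1,1,(-1),1,1⟩,
    ⟨276,1,(-1),1,(-1),(-1)⟩]⟩,
  ⟨[⟨2,0,0,4,4,6⟩, ⟨11,0,0,4,6,4⟩, ⟨2,0,0,6,4,8⟩, ⟨18,0,2,6,4,8⟩, ⟨18,1,7,3,1,5⟩,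
    ⟨9,2,0,4,4,6⟩],
   [⟨9,2,0,0,0,0⟩, ⟨169,0,0,2,0,0⟩, ⟨197,0,0,0,2,0⟩, ⟨197,0,0,0,0,2⟩, ⟨217,1,(-1),(-1),1,1⟩,
    ⟨18,1,1,1,(-1),(-1)⟩, ⟨291,1,(-1),1,(-1),(-1)⟩]⟩,
  ⟨[⟨2,0,0,4,4,6⟩, ⟨11,0,0,4,6,4⟩, ⟨2,0,0,6,4,8⟩, ⟨18,0,2,6,4,8⟩, ⟨18,1,7,3,1,5⟩,
    ⟨9,2,0,4,4,6⟩],
   [⟨9,2,0,0,0,0⟩, ⟨169,0,0,2,0,0⟩, ⟨197,0,0,0,2,0⟩, ⟨197,0,0,0,0,2⟩, ⟨118,1,1,(-1),1,1⟩,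
    ⟨99,1,(-1),(-1),1,1⟩, ⟨136,1,1,1,(-1),(-1)⟩, ⟨173,1,(-1),1,(-1),(-1)⟩]⟩,
  ⟨[⟨2,0,0,4,4,6⟩, ⟨11,0,0,4,6,4⟩, ⟨2,0,0,6,4,8⟩, ⟨18,0,2,6,8,4⟩, ⟨18,1,5,3,1,5⟩,
    ⟨9,2,0,4,4,6⟩],
   [⟨9,2,0,0,0,0⟩, ⟨169,0,0,2,0,0⟩, ⟨197,0,0,0,2,0⟩, ⟨197,0,0,0,0,2⟩, ⟨99,1,1,(-1),1,1⟩,
    ⟨118,1,(-1),(-1),1,1⟩, ⟨173,1,1,1,(-1),(-1)⟩, ⟨136,1,(-1),1,(-1),(-1)⟩]⟩,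
  ⟨[⟨2,0,0,4,4,6⟩, ⟨11,0,0,4,6,4⟩, ⟨2,0,0,6,4,8⟩, ⟨18,0,2,6,8,4⟩, ⟨18,1,5,3,1,5⟩,
    ⟨9,2,0,4,4,6⟩],
   [⟨9,2,0,0,0,0⟩, ⟨169,0,0,2,0,0⟩, ⟨197,0,0,0,2,0⟩, ⟨197,0,0,0,0,2⟩, ⟨99,1,1,(-1),1,1⟩,
    ⟨118,1,(-1),(-1),1,1⟩, ⟨173,1,1,1,(-1),(-1)⟩, ⟨136,1,(-1),1,(-1),(-1)⟩]⟩,
  ⟨[⟨5,0,0,4,6,4⟩, ⟨19,0,0,6,4,8⟩, ⟨27,1,5,3,1,5⟩, ⟨1,2,6,0,2,6⟩, ⟨6,2,6,2,2,6⟩, ⟨1,3,1,5,5,1⟩],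
   [⟨29,0,2,0,0,0⟩, ⟨163,0,0,2,0,0⟩, ⟨202,0,0,0,2,0⟩, ⟨224,0,0,0,0,2⟩, ⟨165,1,(-1),(-1),1,1⟩,
    ⟨245,1,1,1,(-1),(-1)⟩, ⟨51,1,(-1),1,(-1),(-1)⟩]⟩,
  ⟨[⟨18,0,0,6,4,8⟩, ⟨9,0,2,4,6,4⟩, ⟨24,1,5,3,1,5⟩, ⟨9,2,0,4,4,6⟩],
   [⟨163,0,0,2,0,0⟩, ⟨201,0,0,0,2,0⟩, ⟨201,0,0,0,0,2⟩, ⟨75,1,1,(-1),1,1⟩,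
    ⟨128,1,(-1),(-1),1,1⟩, ⟨193,1,1,1,(-1),(-1)⟩, ⟨128,1,(-1),1,(-1),(-1)⟩,
    ⟨11,1,1,(-1),(-1),(-1)⟩]⟩,
  ⟨[⟨3,0,0,4,8,8⟩, ⟨19,0,2,4,8,8⟩, ⟨13,0,6,2,10,8⟩, ⟨13,0,6,4,10,8⟩, ⟨13,2,0,8,4,4⟩],
   [⟨160,2,0,0,0,0⟩, ⟨154,0,2,0,0,0⟩, ⟨199,0,0,2,0,0⟩, ⟨237,0,0,0,2,0⟩, ⟨237,0,0,0,0,2⟩,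
    ⟨39,1,1,1,(-1),1⟩, ⟨26,1,1,(-1),(-1),1⟩, ⟨26,1,(-1),(-1),(-1),1⟩,
    ⟨13,1,(-1),(-1),1,(-1)⟩, ⟨26,1,(-1),(-1),(-1),(-1)⟩]⟩,
  ⟨[⟨38,0,2,4,8,8⟩, ⟨20,0,6,2,10,8⟩, ⟨2,0,6,4,10,8⟩],
   [⟨158,2,0,0,0,0⟩, ⟨173,0,2,0,0,0⟩, ⟨203,0,0,2,0,0⟩, ⟨211,0,0,0,2,0⟩, ⟨263,0,0,0,0,2⟩,
    ⟨35,1,1,1,(-1),1⟩, ⟨10,1,1,(-1),(-1),1⟩, ⟨10,1,(-1),1,1,(-1)⟩, ⟨20,1,(-1),(-1),1,(-1)⟩,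
    ⟨15,1,(-1),(-1),(-1),(-1)⟩]⟩,
  ⟨[⟨3,0,0,4,8,8⟩, ⟨13,0,2,4,8,8⟩, ⟨13,0,6,2,10,8⟩, ⟨13,0,6,4,10,8⟩, ⟨19,2,0,8,4,4⟩],
   [⟨154,2,0,0,0,0⟩, ⟨160,0,2,0,0,0⟩, ⟨199,0,0,2,0,0⟩, ⟨237,0,0,0,2,0⟩, ⟨237,0,0,0,0,2⟩,
    ⟨26,1,1,1,(-1),1⟩, ⟨39,1,1,(-1),(-1),1⟩, ⟨13,1,(-1),(-1),(-1),1⟩,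
    ⟨26,1,(-1),(-1),1,(-1)⟩, ⟨26,1,(-1),(-1),(-1),(-1)⟩]⟩,
  ⟨[⟨14,0,2,4,8,8⟩, ⟨14,0,6,2,10,8⟩, ⟨11,0,6,4,10,8⟩, ⟨3,1,1,5,7,9⟩, ⟨19,2,0,8,4,4⟩],
   [⟨159,2,0,0,0,0⟩, ⟨173,0,2,0,0,0⟩, ⟨204,0,0,2,0,0⟩, ⟨237,0,0,0,2,0⟩, ⟨240,0,0,0,0,2⟩,
    ⟨14,1,1,1,(-1),1⟩, ⟨44,1,1,(-1),(-1),1⟩, ⟨22,1,(-1),(-1),1,(-1)⟩,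
    ⟨22,1,(-1),(-1),(-1),(-1)⟩]⟩,
  ⟨[⟨12,0,2,8,4,4⟩, ⟨6,0,6,2,10,8⟩, ⟨9,1,1,7,5,3⟩, ⟨30,1,5,9,1,5⟩, ⟨3,2,0,8,4,4⟩],
   [⟨140,2,0,0,0,0⟩, ⟨149,0,2,0,0,0⟩, ⟨161,0,0,2,0,0⟩, ⟨221,0,0,0,2,0⟩, ⟨221,0,0,0,0,2⟩,
    ⟨48,1,(-1),1,(-1),1⟩, ⟨90,1,(-1),(-1),(-1),1⟩, ⟨9,1,1,(-1),1,(-1)⟩,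
    ⟨60,1,1,(-1),(-1),(-1)⟩]⟩,
  ⟨[⟨8,0,0,4,8,8⟩, ⟨7,0,2,8,4,4⟩, ⟨15,0,6,2,10,8⟩, ⟨15,0,6,4,10,8⟩, ⟨15,2,0,8,4,4⟩],
   [⟨143,2,0,0,0,0⟩, ⟨151,0,2,0,0,0⟩, ⟨188,0,0,2,0,0⟩, ⟨233,0,0,0,2,0⟩, ⟨233,0,0,0,0,2⟩,
    ⟨45,1,(-1),1,(-1),1⟩, ⟨60,1,(-1),(-1),(-1),1⟩, ⟨15,1,1,(-1),1,(-1)⟩,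
    ⟨30,1,1,(-1),(-1),(-1)⟩]⟩,
  ⟨[⟨32,0,2,8,4,4⟩, ⟨14,0,6,2,10,8⟩, ⟨11,1,5,9,1,5⟩, ⟨3,2,0,8,4,4⟩],
   [⟨155,2,0,0,0,0⟩, ⟨167,0,2,0,0,0⟩, ⟨191,0,0,2,0,0⟩, ⟨213,0,0,0,2,0⟩, ⟨255,0,0,0,0,2⟩,
    ⟨36,1,(-1),1,(-1),1⟩, ⟨33,1,(-1),(-1),(-1),1⟩, ⟨25,1,1,(-1),1,(-1)⟩,
    ⟨22,1,1,(-1),(-1),(-1)⟩]⟩,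
  ⟨[⟨5,0,0,4,8,8⟩, ⟨14,0,2,8,4,4⟩, ⟨14,0,6,2,10,8⟩, ⟨14,0,6,4,10,8⟩, ⟨14,2,0,8,4,4⟩],
   [⟨153,2,0,0,0,0⟩, ⟨153,0,2,0,0,0⟩, ⟨195,0,0,2,0,0⟩, ⟨237,0,0,0,2,0⟩, ⟨237,0,0,0,0,2⟩,
    ⟨42,1,(-1),1,(-1),1⟩, ⟨14,1,1,(-1),(-1),1⟩, ⟨42,1,(-1),(-1),(-1),1⟩,
    ⟨14,1,1,(-1),1,(-1)⟩, ⟨28,1,1,(-1),(-1),(-1)⟩]⟩,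
  ⟨[⟨11,0,0,4,6,8⟩, ⟨10,0,2,6,8,8⟩, ⟨7,0,2,8,8,6⟩, ⟨14,1,5,3,1,7⟩, ⟨6,2,0,4,4,6⟩,
    ⟨10,2,0,6,4,4⟩, ⟨2,2,0,8,6,4⟩],
   [⟨171,0,0,2,0,0⟩, ⟨191,0,0,0,2,0⟩, ⟨191,0,0,0,0,2⟩, ⟨162,1,1,1,(-1),1⟩,
    ⟨127,1,(-1),1,(-1),1⟩, ⟨117,1,1,(-1),1,(-1)⟩, ⟨138,1,(-1),(-1),1,(-1)⟩]⟩,
  ⟨[⟨6,0,0,4,4,6⟩, ⟨6,0,0,4,6,8⟩, ⟨7,0,2,4,6,8⟩, ⟨10,0,2,6,8,8⟩, ⟨14,1,5,3,1,7⟩,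
    ⟨7,2,0,4,4,6⟩, ⟨10,2,0,6,4,4⟩],
   [⟨171,0,0,2,0,0⟩, ⟨191,0,0,0,2,0⟩, ⟨191,0,0,0,0,2⟩, ⟨153,1,1,1,(-1),1⟩,
    ⟨133,1,(-1),1,(-1),1⟩, ⟨127,1,1,(-1),1,(-1)⟩, ⟨133,1,(-1),(-1),1,(-1)⟩]⟩,
  ⟨[⟨12,0,0,4,6,8⟩, ⟨6,0,0,6,4,4⟩, ⟨12,0,6,2,2,6⟩, ⟨15,1,5,3,1,7⟩, ⟨13,2,0,6,4,4⟩,
    ⟨2,2,6,0,2,6⟩],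
   [⟨56,0,2,0,0,0⟩, ⟨166,0,0,2,0,0⟩, ⟨187,0,0,0,2,0⟩, ⟨230,0,0,0,0,2⟩, ⟨236,1,1,1,(-1),1⟩,
    ⟨11,1,(-1),1,(-1),1⟩, ⟨211,1,(-1),(-1),1,(-1)⟩]⟩,
  ⟨[⟨11,0,0,4,4,6⟩, ⟨2,0,0,4,6,8⟩, ⟨2,0,0,6,4,4⟩, ⟨9,0,2,4,6,8⟩, ⟨18,1,5,3,1,7⟩,
    ⟨18,2,0,6,4,4⟩],
   [⟨9,0,2,0,0,0⟩, ⟨169,0,0,2,0,0⟩, ⟨197,0,0,0,2,0⟩, ⟨197,0,0,0,0,2⟩, ⟨173,1,1,1,(-1),1⟩,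
    ⟨118,1,(-1),1,(-1),1⟩, ⟨99,1,1,(-1),1,(-1)⟩, ⟨136,1,(-1),(-1),1,(-1)⟩]⟩,
  ⟨[⟨11,0,0,4,4,6⟩, ⟨2,0,0,4,6,8⟩, ⟨2,0,0,6,4,4⟩, ⟨9,0,2,8,6,4⟩, ⟨18,1,7,3,1,7⟩,
    ⟨18,2,0,6,4,4⟩],
   [⟨9,0,2,0,0,0⟩, ⟨169,0,0,2,0,0⟩, ⟨197,0,0,0,2,0⟩, ⟨197,0,0,0,0,2⟩, ⟨118,1,1,1,(-1),1⟩,
    ⟨173,1,(-1),1,(-1),1⟩, ⟨136,1,1,(-1),1,(-1)⟩, ⟨99,1,(-1),(-1),1,(-1)⟩]⟩,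
  ⟨[⟨12,0,0,4,6,8⟩, ⟨7,0,0,6,4,4⟩, ⟨13,0,6,2,2,6⟩, ⟨1,1,5,9,1,5⟩, ⟨13,1,7,3,1,7⟩,
    ⟨12,2,0,6,4,4⟩, ⟨2,2,6,0,2,6⟩],
   [⟨59,0,2,0,0,0⟩, ⟨165,0,0,2,0,0⟩, ⟨185,0,0,0,2,0⟩, ⟨233,0,0,0,0,2⟩, ⟨246,1,(-1),1,(-1),1⟩,
    ⟨210,1,1,(-1),1,(-1)⟩]⟩,
  ⟨[⟨2,0,0,4,4,6⟩, ⟨9,0,0,4,6,8⟩, ⟨4,0,2,4,4,6⟩, ⟨10,0,2,6,4,4⟩, ⟨4,0,2,8,6,4⟩,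
    ⟨14,1,7,3,1,7⟩, ⟨7,2,0,4,4,6⟩, ⟨10,2,0,6,4,4⟩],
   [⟨171,0,0,2,0,0⟩, ⟨191,0,0,0,2,0⟩, ⟨191,0,0,0,0,2⟩, ⟨129,1,1,1,(-1),1⟩,
    ⟨157,1,(-1),1,(-1),1⟩, ⟨137,1,1,(-1),1,(-1)⟩, ⟨123,1,(-1),(-1),1,(-1)⟩]⟩,
  ⟨[⟨11,0,0,4,6,8⟩, ⟨7,0,2,4,4,6⟩, ⟨10,0,2,6,4,4⟩, ⟨14,1,7,3,1,7⟩, ⟨6,2,0,4,4,6⟩,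
    ⟨10,2,0,6,4,4⟩, ⟨2,2,0,8,6,4⟩],
   [⟨171,0,0,2,0,0⟩, ⟨191,0,0,0,2,0⟩, ⟨191,0,0,0,0,2⟩, ⟨127,1,1,1,(-1),1⟩,
    ⟨162,1,(-1),1,(-1),1⟩, ⟨138,1,1,(-1),1,(-1)⟩, ⟨117,1,(-1),(-1),1,(-1)⟩]⟩,
  ⟨[⟨11,0,0,4,8,6⟩, ⟨2,0,2,4,8,6⟩, ⟨10,0,2,6,8,8⟩, ⟨6,0,2,8,6,8⟩, ⟨14,1,5,9,1,7⟩,
    ⟨7,2,0,4,6,4⟩, ⟨10,2,0,6,4,4⟩],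
   [⟨171,0,0,2,0,0⟩, ⟨191,0,0,0,2,0⟩, ⟨191,0,0,0,0,2⟩, ⟨162,1,1,(-1),(-1),1⟩,
    ⟨138,1,(-1),(-1),(-1),1⟩, ⟨117,1,1,1,1,(-1)⟩, ⟨127,1,(-1),1,1,(-1)⟩]⟩,
  ⟨[⟨2,0,0,4,6,4⟩, ⟨9,0,0,4,8,6⟩, ⟨4,0,2,4,8,6⟩, ⟨10,0,2,6,8,8⟩, ⟨4,0,2,8,6,8⟩,
    ⟨14,1,5,9,1,7⟩, ⟨7,2,0,4,6,4⟩, ⟨10,2,0,6,4,4⟩],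
   [⟨171,0,0,2,0,0⟩, ⟨191,0,0,0,2,0⟩, ⟨191,0,0,0,0,2⟩, ⟨164,1,1,(-1),(-1),1⟩,
    ⟨137,1,(-1),(-1),(-1),1⟩, ⟨115,1,1,1,1,(-1)⟩, ⟨129,1,(-1),1,1,(-1)⟩]⟩,
  ⟨[⟨2,0,0,4,6,4⟩, ⟨11,0,0,4,8,6⟩, ⟨2,0,0,6,4,4⟩, ⟨9,0,2,8,6,8⟩, ⟨18,1,5,9,1,7⟩,
    ⟨18,2,0,6,4,4⟩],
   [⟨9,0,2,0,0,0⟩, ⟨169,0,0,2,0,0⟩, ⟨197,0,0,0,2,0⟩, ⟨197,0,0,0,0,2⟩, ⟨173,1,1,(-1),(-1),1⟩,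
    ⟨118,1,(-1),(-1),(-1),1⟩, ⟨99,1,1,1,1,(-1)⟩, ⟨136,1,(-1),1,1,(-1)⟩]⟩,
  ⟨[⟨12,0,0,4,6,4⟩, ⟨6,0,0,6,4,4⟩, ⟨13,0,6,2,10,6⟩, ⟨14,1,5,9,1,7⟩, ⟨1,1,7,3,1,5⟩,
    ⟨13,2,0,6,4,4⟩, ⟨1,2,6,0,2,6⟩],
   [⟨56,0,2,0,0,0⟩, ⟨166,0,0,2,0,0⟩, ⟨187,0,0,0,2,0⟩, ⟨230,0,0,0,0,2⟩, ⟨236,1,1,(-1),(-1),1⟩,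
    ⟨13,1,(-1),(-1),(-1),1⟩, ⟨210,1,(-1),1,1,(-1)⟩]⟩,
  ⟨[⟨13,0,0,4,6,4⟩, ⟨6,0,0,6,4,4⟩, ⟨15,0,6,2,10,6⟩, ⟨3,1,5,3,1,5⟩, ⟨10,1,7,9,1,7⟩,
    ⟨13,2,0,6,4,4⟩],
   [⟨58,0,2,0,0,0⟩, ⟨164,0,0,2,0,0⟩, ⟨185,0,0,0,2,0⟩, ⟨233,0,0,0,0,2⟩,
    ⟨251,1,(-1),(-1),(-1),1⟩, ⟨207,1,1,1,1,(-1)⟩]⟩,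
  ⟨[⟨2,0,0,4,6,4⟩, ⟨11,0,0,4,8,6⟩, ⟨2,0,0,6,4,4⟩, ⟨9,0,2,4,6,4⟩, ⟨18,1,7,9,1,7⟩,
    ⟨18,2,0,6,4,4⟩],
   [⟨9,0,2,0,0,0⟩, ⟨169,0,0,2,0,0⟩, ⟨197,0,0,0,2,0⟩, ⟨197,0,0,0,0,2⟩, ⟨118,1,1,(-1),(-1),1⟩,
    ⟨173,1,(-1),(-1),(-1),1⟩, ⟨136,1,1,1,1,(-1)⟩, ⟨99,1,(-1),1,1,(-1)⟩]⟩,
  ⟨[⟨6,0,0,4,6,4⟩, ⟨6,0,0,4,8,6⟩, ⟨10,0,2,6,4,4⟩, ⟨7,0,2,8,4,6⟩, ⟨14,1,7,9,1,7⟩,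
    ⟨7,2,0,4,6,4⟩, ⟨10,2,0,6,4,4⟩],
   [⟨171,0,0,2,0,0⟩, ⟨191,0,0,0,2,0⟩, ⟨191,0,0,0,0,2⟩, ⟨133,1,1,(-1),(-1),1⟩,
    ⟨168,1,(-1),(-1),(-1),1⟩, ⟨133,1,1,1,1,(-1)⟩, ⟨112,1,(-1),1,1,(-1)⟩]⟩,
  ⟨[⟨11,0,0,4,8,6⟩, ⟨6,0,2,4,6,4⟩, ⟨10,0,2,6,4,4⟩, ⟨2,0,2,8,4,6⟩, ⟨14,1,7,9,1,7⟩,
    ⟨7,2,0,4,6,4⟩, ⟨10,2,0,6,4,4⟩],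
   [⟨171,0,0,2,0,0⟩, ⟨191,0,0,0,2,0⟩, ⟨191,0,0,0,0,2⟩, ⟨138,1,1,(-1),(-1),1⟩,
    ⟨162,1,(-1),(-1),(-1),1⟩, ⟨127,1,1,1,1,(-1)⟩, ⟨117,1,(-1),1,1,(-1)⟩]⟩,
  ⟨[⟨3,0,6,2,2,4⟩, ⟨16,0,6,4,2,4⟩, ⟨4,1,7,3,3,3⟩, ⟨38,2,0,4,4,4⟩],
   [⟨180,2,0,0,0,0⟩, ⟨177,0,2,0,0,0⟩, ⟨219,0,0,2,0,0⟩, ⟨267,0,0,0,2,0⟩, ⟨226,0,0,0,0,2⟩,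
    ⟨21,1,1,1,(-1),1⟩, ⟨14,1,(-1),1,(-1),1⟩, ⟨8,1,(-1),1,1,(-1)⟩, ⟨3,1,(-1),1,(-1),(-1)⟩]⟩,
  ⟨[⟨15,0,2,8,8,8⟩, ⟨8,0,6,2,2,4⟩, ⟨15,0,6,4,2,4⟩, ⟨22,2,0,4,4,4⟩],
   [⟨173,2,0,0,0,0⟩, ⟨158,0,2,0,0,0⟩, ⟨203,0,0,2,0,0⟩, ⟨248,0,0,0,2,0⟩, ⟨226,0,0,0,0,2⟩,
    ⟨15,1,1,1,(-1),1⟩, ⟨30,1,(-1),1,(-1),1⟩, ⟨30,1,1,(-1),(-1),1⟩, ⟨15,1,(-1),1,(-1),(-1)⟩]⟩,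
  ⟨[⟨7,0,6,2,2,4⟩, ⟨15,0,6,4,2,4⟩, ⟨38,2,0,4,4,4⟩],
   [⟨158,2,0,0,0,0⟩, ⟨173,0,2,0,0,0⟩, ⟨203,0,0,2,0,0⟩, ⟨248,0,0,0,2,0⟩, ⟨226,0,0,0,0,2⟩,
    ⟨45,1,1,1,(-1),1⟩, ⟨30,1,(-1),1,1,(-1)⟩, ⟨15,1,(-1),1,(-1),(-1)⟩]⟩,
  ⟨[⟨3,0,6,2,2,4⟩, ⟨17,0,6,4,2,4⟩, ⟨3,1,7,3,3,3⟩, ⟨38,2,0,4,4,4⟩],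
   [⟨179,2,0,0,0,0⟩, ⟨174,0,2,0,0,0⟩, ⟨217,0,0,2,0,0⟩, ⟨267,0,0,0,2,0⟩, ⟨224,0,0,0,0,2⟩,
    ⟨15,1,1,1,(-1),1⟩, ⟨17,1,(-1),1,(-1),1⟩, ⟨10,1,1,(-1),(-1),1⟩, ⟨7,1,(-1),(-1),1,(-1)⟩,
    ⟨5,1,(-1),1,(-1),(-1)⟩]⟩,
  ⟨[⟨7,0,6,2,2,4⟩, ⟨18,0,6,4,2,4⟩, ⟨2,1,1,5,3,5⟩, ⟨33,2,0,4,4,4⟩],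
   [⟨170,2,0,0,0,0⟩, ⟨169,0,2,0,0,0⟩, ⟨203,0,0,2,0,0⟩, ⟨253,0,0,0,2,0⟩, ⟨223,0,0,0,0,2⟩,
    ⟨38,1,(-1),1,(-1),1⟩, ⟨27,1,(-1),(-1),(-1),1⟩, ⟨14,1,1,1,(-1),(-1)⟩]⟩,
  ⟨[⟨15,0,2,4,4,4⟩, ⟨30,1,5,3,1,5⟩, ⟨15,2,0,4,4,4⟩],
   [⟨157,2,0,0,0,0⟩, ⟨157,0,2,0,0,0⟩, ⟨172,0,0,2,0,0⟩, ⟨232,0,0,0,2,0⟩, ⟨232,0,0,0,0,2⟩,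
    ⟨60,1,(-1),1,(-1),1⟩, ⟨60,1,(-1),(-1),(-1),1⟩, ⟨30,1,1,1,(-1),(-1)⟩]⟩,
  ⟨[⟨3,0,2,4,4,4⟩, ⟨14,0,6,4,2,4⟩, ⟨11,1,5,3,1,5⟩, ⟨32,2,0,4,4,4⟩],
   [⟨167,2,0,0,0,0⟩, ⟨155,0,2,0,0,0⟩, ⟨191,0,0,2,0,0⟩, ⟨255,0,0,0,2,0⟩, ⟨213,0,0,0,0,2⟩,
    ⟨25,1,1,1,(-1),1⟩, ⟨36,1,(-1),1,(-1),1⟩, ⟨33,1,(-1),(-1),(-1),1⟩, ⟨22,1,1,1,(-1),(-1)⟩]⟩,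
  ⟨[⟨15,0,2,4,4,4⟩, ⟨30,1,5,3,1,5⟩, ⟨15,2,0,4,4,4⟩],
   [⟨157,2,0,0,0,0⟩, ⟨157,0,2,0,0,0⟩, ⟨172,0,0,2,0,0⟩, ⟨232,0,0,0,2,0⟩, ⟨232,0,0,0,0,2⟩,
    ⟨60,1,(-1),1,(-1),1⟩, ⟨60,1,(-1),(-1),(-1),1⟩, ⟨30,1,1,1,(-1),(-1)⟩]⟩]

lemma check_certs2 : checkAll 2 certs2 = true := by
  decide +kernel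

end Pool.Agent.N554.RG
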