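import Pool.Agent.N554.RG.Check

/-!
# Certificates for cone 3
-/

set_option autoImplicit false

namespace Pool.Agent.N554.RG

/-- The certificates of the cone 3, indexed by the sign pattern. -/
def certs3 : List Cert := [
  ⟨[⟨12,1,5,1,7,9⟩, ⟨12,1,5,3,1,7⟩, ⟨12,1,7,1,3,5⟩, ⟨12,1,9,7,1,5⟩, ⟨12,3,7,1,5,11⟩],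
   [⟨198,2,0,0,0,0⟩, ⟨198,0,2,0,0,0⟩, ⟨198,0,0,2,0,0⟩, ⟨198,0,0,0,2,0⟩, ⟨198,0,0,0,0,2⟩,
    ⟨108,1,(-1),(-1),(-1),(-1)⟩]⟩,
  ⟨[⟨12,1,5,1,7,9⟩, ⟨14,1,5,3,1,7⟩, ⟨14,1,7,1,3,5⟩, ⟨12,1,9,7,1,5⟩, ⟨7,3,7,1,5,11⟩],
   [⟨199,2,0,0,0,0⟩, ⟨189,0,2,0,0,0⟩, ⟨185,0,0,2,0,0⟩, ⟨185,0,0,0,2,0⟩, ⟨189,0,0,0,0,2⟩,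
    ⟨31,1,1,(-1),(-1),1⟩, ⟨100,1,(-1),(-1),(-1),(-1)⟩]⟩,
  ⟨[⟨24,1,3,5,1,7⟩, ⟨24,1,5,1,3,7⟩, ⟨1,1,5,1,5,9⟩, ⟨7,1,5,3,1,7⟩, ⟨3,3,1,5,1,7⟩],
   [⟨206,2,0,0,0,0⟩, ⟨164,0,2,0,0,0⟩, ⟨197,0,0,2,0,0⟩, ⟨165,0,0,0,2,0⟩, ⟨209,0,0,0,0,2⟩,
    ⟨8,1,1,1,(-1),1⟩, ⟨129,1,(-1),(-1),(-1),(-1)⟩]⟩,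
  ⟨[⟨20,1,3,5,1,7⟩, ⟨7,1,5,1,3,7⟩, ⟨21,1,5,1,5,9⟩, ⟨1,1,5,3,1,7⟩, ⟨11,3,1,5,1,7⟩],
   [⟨194,2,0,0,0,0⟩, ⟨175,0,2,0,0,0⟩, ⟨213,0,0,2,0,0⟩, ⟨202,0,0,0,2,0⟩, ⟨173,0,0,0,0,2⟩,
    ⟨32,1,(-1),(-1),1,(-1)⟩, ⟨108,1,1,(-1),(-1),(-1)⟩]⟩,
  ⟨[⟨1,1,7,1,3,7⟩, ⟨26,1,7,1,5,9⟩, ⟨1,1,7,3,1,7⟩, ⟨26,1,9,5,1,7⟩, ⟨6,3,7,1,5,11⟩],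
   [⟨203,2,0,0,0,0⟩, ⟨165,0,2,0,0,0⟩, ⟨213,0,0,2,0,0⟩, ⟨213,0,0,0,2,0⟩, ⟨165,0,0,0,0,2⟩,
    ⟨140,1,(-1),(-1),(-1),(-1)⟩]⟩,
  ⟨[⟨8,1,5,3,1,5⟩, ⟨11,1,7,1,3,7⟩, ⟨11,1,7,1,5,9⟩, ⟨21,1,9,5,1,7⟩, ⟨8,3,1,5,11,7⟩],
   [⟨186,2,0,0,0,0⟩, ⟨163,0,2,0,0,0⟩, ⟨186,0,0,2,0,0⟩, ⟨181,0,0,0,2,0⟩, ⟨181,0,0,0,0,2⟩,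
    ⟨50,1,(-1),1,(-1),1⟩, ⟨66,1,1,(-1),(-1),(-1)⟩, ⟨66,1,(-1),(-1),(-1),(-1)⟩]⟩,
  ⟨[⟨17,1,3,7,1,5⟩, ⟨12,1,5,1,3,5⟩, ⟨12,1,7,1,7,9⟩, ⟨9,1,7,3,1,7⟩, ⟨9,3,1,5,1,7⟩],
   [⟨195,2,0,0,0,0⟩, ⟨179,0,2,0,0,0⟩, ⟨195,0,0,2,0,0⟩, ⟨189,0,0,0,2,0⟩, ⟨189,0,0,0,0,2⟩,
    ⟨100,1,1,(-1),(-1),(-1)⟩, ⟨31,1,(-1),(-1),(-1),(-1)⟩]⟩,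
  ⟨[⟨14,1,3,7,1,5⟩, ⟨12,1,5,1,3,5⟩, ⟨7,1,7,1,7,9⟩, ⟨14,1,7,3,1,7⟩, ⟨12,3,1,5,1,7⟩],
   [⟨189,2,0,0,0,0⟩, ⟨185,0,2,0,0,0⟩, ⟨185,0,0,2,0,0⟩, ⟨189,0,0,0,2,0⟩, ⟨199,0,0,0,0,2⟩,
    ⟨31,1,(-1),1,(-1),1⟩, ⟨100,1,1,(-1),(-1),(-1)⟩]⟩,
  ⟨[⟨14,1,5,1,7,9⟩, ⟨12,1,5,3,1,7⟩, ⟨14,1,7,1,3,5⟩, ⟨7,1,9,7,1,5⟩, ⟨12,3,7,1,5,11⟩],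
   [⟨189,2,0,0,0,0⟩, ⟨199,0,2,0,0,0⟩, ⟨189,0,0,2,0,0⟩, ⟨185,0,0,0,2,0⟩, ⟨185,0,0,0,0,2⟩,
    ⟨31,1,1,(-1),1,1⟩, ⟨100,1,(-1),(-1),(-1),(-1)⟩]⟩,
  ⟨[⟨12,1,5,1,7,9⟩, ⟨17,1,5,3,1,7⟩, ⟨9,1,7,1,3,5⟩, ⟨9,1,9,7,1,5⟩, ⟨12,3,7,1,5,11⟩],
   [⟨189,2,0,0,0,0⟩, ⟨195,0,2,0,0,0⟩, ⟨179,0,0,2,0,0⟩, ⟨195,0,0,0,2,0⟩, ⟨189,0,0,0,0,2⟩,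
    ⟨31,1,(-1),1,(-1),(-1)⟩, ⟨100,1,(-1),(-1),(-1),(-1)⟩]⟩,
  ⟨[⟨24,1,3,5,1,7⟩, ⟨24,1,5,1,3,7⟩, ⟨1,1,5,1,5,9⟩, ⟨7,1,5,3,1,7⟩, ⟨3,3,1,5,1,7⟩],
   [⟨206,2,0,0,0,0⟩, ⟨164,0,2,0,0,0⟩, ⟨197,0,0,2,0,0⟩, ⟨165,0,0,0,2,0⟩, ⟨209,0,0,0,0,2⟩,
    ⟨8,1,1,1,(-1),1⟩, ⟨129,1,(-1),(-1),(-1),(-1)⟩]⟩,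
  ⟨[⟨7,1,3,5,1,7⟩, ⟨20,1,5,1,3,7⟩, ⟨11,1,5,1,5,9⟩, ⟨1,1,5,3,1,7⟩, ⟨21,3,1,5,1,7⟩],
   [⟨173,2,0,0,0,0⟩, ⟨202,0,2,0,0,0⟩, ⟨213,0,0,2,0,0⟩, ⟨175,0,0,0,2,0⟩, ⟨194,0,0,0,0,2⟩,
    ⟨108,1,(-1),(-1),1,(-1)⟩, ⟨32,1,1,(-1),(-1),(-1)⟩]⟩,
  ⟨[⟨4,1,7,1,3,7⟩, ⟨20,1,7,1,5,9⟩, ⟨4,1,7,3,1,7⟩, ⟨20,1,9,5,1,7⟩, ⟨2,3,1,7,11,5⟩,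
    ⟨10,3,7,1,5,11⟩],
   [⟨190,2,0,0,0,0⟩, ⟨174,0,2,0,0,0⟩, ⟨206,0,0,2,0,0⟩, ⟨206,0,0,0,2,0⟩, ⟨174,0,0,0,0,2⟩,
    ⟨18,1,(-1),1,(-1),1⟩, ⟨18,1,1,(-1),1,(-1)⟩, ⟨112,1,(-1),(-1),(-1),(-1)⟩]⟩,
  ⟨[⟨11,1,5,1,7,3⟩, ⟨4,1,5,3,1,5⟩, ⟨7,1,7,1,3,7⟩, ⟨12,1,7,3,1,7⟩, ⟨15,1,9,5,1,7⟩,
    ⟨11,3,7,1,5,11⟩],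
   [⟨186,2,0,0,0,0⟩, ⟨177,0,2,0,0,0⟩, ⟨174,0,0,2,0,0⟩, ⟨194,0,0,0,2,0⟩, ⟨185,0,0,0,0,2⟩,
    ⟨77,1,(-1),1,(-1),1⟩, ⟨51,1,1,(-1),(-1),(-1)⟩, ⟨54,1,(-1),(-1),(-1),(-1)⟩]⟩,
  ⟨[⟨7,0,4,10,6,4⟩, ⟨9,1,3,7,1,5⟩, ⟨10,1,5,1,3,5⟩, ⟨5,1,7,1,7,9⟩, ⟨12,1,7,3,1,7⟩,
    ⟨17,3,1,5,1,7⟩],
   [⟨202,2,0,0,0,0⟩, ⟨189,0,2,0,0,0⟩, ⟨204,0,0,2,0,0⟩, ⟨194,0,0,0,2,0⟩, ⟨197,0,0,0,0,2⟩,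
    ⟨1,1,(-1),(-1),1,1⟩, ⟨20,1,(-1),(-1),1,(-1)⟩, ⟨91,1,1,(-1),(-1),(-1)⟩]⟩,
  ⟨[⟨14,1,3,7,1,5⟩, ⟨12,1,5,1,3,5⟩, ⟨7,1,7,1,7,9⟩, ⟨14,1,7,3,1,7⟩, ⟨12,3,1,5,1,7⟩],
   [⟨189,2,0,0,0,0⟩, ⟨185,0,2,0,0,0⟩, ⟨185,0,0,2,0,0⟩, ⟨189,0,0,0,2,0⟩, ⟨199,0,0,0,0,2⟩,
    ⟨31,1,(-1),1,(-1),1⟩, ⟨100,1,1,(-1),(-1),(-1)⟩]⟩,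
  ⟨[⟨5,1,7,1,3,5⟩, ⟨24,1,7,1,5,3⟩, ⟨24,1,7,3,1,5⟩, ⟨4,1,9,5,1,5⟩, ⟨4,3,7,1,5,1⟩],
   [⟨212,2,0,0,0,0⟩, ⟨212,0,2,0,0,0⟩, ⟨171,0,0,2,0,0⟩, ⟨208,0,0,0,2,0⟩, ⟨171,0,0,0,0,2⟩,
    ⟨11,1,(-1),(-1),(-1),1⟩, ⟨11,1,(-1),1,(-1),(-1)⟩, ⟨120,1,(-1),(-1),(-1),(-1)⟩]⟩,
  ⟨[⟨8,1,5,1,9,7⟩, ⟨11,1,7,1,5,3⟩, ⟨21,1,7,3,1,5⟩, ⟨8,1,9,7,1,7⟩, ⟨11,3,7,1,5,1⟩],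
   [⟨181,2,0,0,0,0⟩, ⟨186,0,2,0,0,0⟩, ⟨163,0,0,2,0,0⟩, ⟨186,0,0,0,2,0⟩, ⟨181,0,0,0,0,2⟩,
    ⟨50,1,1,(-1),(-1),1⟩, ⟨66,1,(-1),1,(-1),(-1)⟩, ⟨66,1,(-1),(-1),(-1),(-1)⟩]⟩,
  ⟨[⟨11,1,3,7,1,7⟩, ⟨15,1,5,1,3,7⟩, ⟨11,1,7,1,7,3⟩, ⟨15,1,7,3,1,5⟩, ⟨7,3,1,5,1,5⟩],
   [⟨195,2,0,0,0,0⟩, ⟨188,0,2,0,0,0⟩, ⟨180,0,0,2,0,0⟩, ⟨180,0,0,0,2,0⟩, ⟨188,0,0,0,0,2⟩,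
    ⟨96,1,1,(-1),(-1),1⟩, ⟨11,1,(-1),(-1),1,(-1)⟩, ⟨11,1,(-1),1,(-1),(-1)⟩,
    ⟨30,1,(-1),(-1),(-1),(-1)⟩]⟩,
  ⟨[⟨10,1,3,7,1,7⟩, ⟨17,1,5,1,3,7⟩, ⟨9,1,7,1,7,3⟩, ⟨5,1,7,3,1,5⟩, ⟨7,2,6,4,0,4⟩,
    ⟨12,3,1,5,1,5⟩],
   [⟨204,2,0,0,0,0⟩, ⟨194,0,2,0,0,0⟩, ⟨197,0,0,2,0,0⟩, ⟨202,0,0,0,2,0⟩, ⟨189,0,0,0,0,2⟩,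
    ⟨91,1,1,(-1),(-1),1⟩, ⟨1,1,(-1),1,(-1),(-1)⟩, ⟨20,1,(-1),(-1),(-1),(-1)⟩]⟩,
  ⟨[⟨17,1,5,1,7,3⟩, ⟨12,1,5,3,1,5⟩, ⟨9,1,7,1,3,7⟩, ⟨12,1,9,7,1,7⟩, ⟨9,3,7,1,5,1⟩],
   [⟨195,2,0,0,0,0⟩, ⟨189,0,2,0,0,0⟩, ⟨189,0,0,2,0,0⟩, ⟨195,0,0,0,2,0⟩, ⟨179,0,0,0,0,2⟩,
    ⟨100,1,(-1),(-1),(-1),1⟩, ⟨31,1,(-1),(-1),(-1),(-1)⟩]⟩,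
  ⟨[⟨13,1,5,1,7,3⟩, ⟨13,1,5,3,1,5⟩, ⟨10,1,7,1,3,7⟩, ⟨13,1,9,7,1,7⟩, ⟨10,3,7,1,5,1⟩],
   [⟨192,2,0,0,0,0⟩, ⟨186,0,2,0,0,0⟩, ⟨186,0,0,2,0,0⟩, ⟨192,0,0,0,2,0⟩, ⟨186,0,0,0,0,2⟩,
    ⟨98,1,(-1),(-1),(-1),1⟩, ⟨16,1,(-1),1,(-1),(-1)⟩, ⟨16,1,1,(-1),(-1),(-1)⟩,
    ⟨7,1,(-1),(-1),(-1),(-1)⟩]⟩,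
  ⟨[⟨28,1,3,7,1,7⟩, ⟨13,1,5,1,3,5⟩, ⟨25,1,5,1,5,3⟩, ⟨38,1,5,3,1,5⟩, ⟨3,1,7,1,7,3⟩,
    ⟨13,3,1,5,1,5⟩],
   [⟨388,2,0,0,0,0⟩, ⟨358,0,2,0,0,0⟩, ⟨338,0,0,2,0,0⟩, ⟨389,0,0,0,2,0⟩, ⟨359,0,0,0,0,2⟩,
    ⟨119,1,(-1),(-1),(-1),1⟩, ⟨102,1,1,1,(-1),(-1)⟩, ⟨143,1,1,(-1),(-1),(-1)⟩]⟩,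
  ⟨[⟨4,1,3,5,1,5⟩, ⟨10,1,5,1,3,5⟩, ⟨20,1,5,1,5,3⟩, ⟨2,1,5,1,9,5⟩, ⟨20,1,5,3,1,5⟩,
    ⟨4,3,1,5,1,5⟩],
   [⟨206,2,0,0,0,0⟩, ⟨206,0,2,0,0,0⟩, ⟨174,0,0,2,0,0⟩, ⟨190,0,0,0,2,0⟩, ⟨174,0,0,0,0,2⟩,
    ⟨18,1,(-1),(-1),1,1⟩, ⟨18,1,(-1),(-1),(-1),1⟩, ⟨112,1,1,(-1),(-1),(-1)⟩]⟩,
  ⟨[⟨7,1,7,1,3,5⟩, ⟨24,1,7,1,5,3⟩, ⟨24,1,7,3,1,5⟩, ⟨1,1,9,5,1,5⟩, ⟨3,3,7,1,5,1⟩],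
   [⟨206,2,0,0,0,0⟩, ⟨209,0,2,0,0,0⟩, ⟨165,0,0,2,0,0⟩, ⟨197,0,0,0,2,0⟩, ⟨164,0,0,0,0,2⟩,
    ⟨8,1,1,(-1),1,1⟩, ⟨129,1,(-1),(-1),(-1),(-1)⟩]⟩,
  ⟨[⟨3,1,7,1,3,5⟩, ⟨1,1,7,1,5,3⟩, ⟨24,1,7,3,1,5⟩, ⟨7,1,9,5,1,5⟩, ⟨24,3,7,1,5,1⟩],
   [⟨165,2,0,0,0,0⟩, ⟨197,0,2,0,0,0⟩, ⟨164,0,0,2,0,0⟩, ⟨206,0,0,0,2,0⟩, ⟨209,0,0,0,0,2⟩,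
    ⟨8,1,1,(-1),(-1),1⟩, ⟨129,1,(-1),1,(-1),(-1)⟩]⟩,
  ⟨[⟨24,1,3,7,1,7⟩, ⟨24,1,5,1,3,7⟩, ⟨24,1,7,1,7,3⟩, ⟨24,1,7,3,1,5⟩, ⟨24,3,1,5,1,5⟩],
   [⟨377,2,0,0,0,0⟩, ⟨377,0,2,0,0,0⟩, ⟨377,0,0,2,0,0⟩, ⟨377,0,0,0,2,0⟩, ⟨377,0,0,0,0,2⟩,
    ⟨24,1,(-1),(-1),1,1⟩, ⟨192,1,1,(-1),(-1),1⟩, ⟨24,1,(-1),(-1),1,(-1)⟩,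
    ⟨24,1,1,1,(-1),(-1)⟩, ⟨24,1,(-1),1,(-1),(-1)⟩, ⟨24,1,(-1),(-1),(-1),(-1)⟩]⟩,
  ⟨[⟨15,1,3,7,1,7⟩, ⟨11,1,5,1,3,7⟩, ⟨7,1,7,1,7,3⟩, ⟨15,1,7,3,1,5⟩, ⟨11,3,1,5,1,5⟩],
   [⟨188,2,0,0,0,0⟩, ⟨180,0,2,0,0,0⟩, ⟨180,0,0,2,0,0⟩, ⟨188,0,0,0,2,0⟩, ⟨195,0,0,0,0,2⟩,
    ⟨96,1,1,(-1),(-1),1⟩, ⟨41,1,(-1),1,(-1),(-1)⟩, ⟨11,1,1,(-1),(-1),(-1)⟩]⟩,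
  ⟨[⟨7,0,4,6,10,4⟩, ⟨9,1,5,1,7,3⟩, ⟨10,1,5,3,1,5⟩, ⟨12,1,7,1,3,7⟩, ⟨5,1,9,7,1,7⟩,
    ⟨17,3,7,1,5,1⟩],
   [⟨202,2,0,0,0,0⟩, ⟨197,0,2,0,0,0⟩, ⟨194,0,0,2,0,0⟩, ⟨204,0,0,0,2,0⟩, ⟨189,0,0,0,0,2⟩,
    ⟨91,1,(-1),(-1),(-1),1⟩, ⟨1,1,1,1,(-1),(-1)⟩, ⟨20,1,(-1),1,(-1),(-1)⟩]⟩,
  ⟨[⟨11,1,5,1,7,3⟩, ⟨11,1,5,3,1,5⟩, ⟨7,1,7,1,3,7⟩, ⟨15,1,9,7,1,7⟩, ⟨15,3,7,1,5,1⟩],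
   [⟨180,2,0,0,0,0⟩, ⟨180,0,2,0,0,0⟩, ⟨188,0,0,2,0,0⟩, ⟨195,0,0,0,2,0⟩, ⟨188,0,0,0,0,2⟩,
    ⟨11,1,1,(-1),1,1⟩, ⟨96,1,(-1),(-1),(-1),1⟩, ⟨11,1,1,1,(-1),(-1)⟩, ⟨30,1,(-1),1,(-1),(-1)⟩]⟩,
  ⟨[⟨3,1,3,5,1,5⟩, ⟨23,1,5,1,3,5⟩, ⟨9,1,5,1,5,3⟩, ⟨3,1,5,3,1,5⟩, ⟨23,3,1,5,1,5⟩],
   [⟨173,2,0,0,0,0⟩, ⟨213,0,2,0,0,0⟩, ⟨213,0,0,2,0,0⟩, ⟨173,0,0,0,2,0⟩, ⟨202,0,0,0,0,2⟩,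
    ⟨125,1,(-1),(-1),1,1⟩, ⟨9,1,1,(-1),(-1),1⟩, ⟨9,1,1,(-1),(-1),(-1)⟩]⟩,
  ⟨[⟨1,1,3,5,1,5⟩, ⟨21,1,5,1,3,5⟩, ⟨11,1,5,1,5,3⟩, ⟨7,1,5,3,1,5⟩, ⟨20,3,1,5,1,5⟩],
   [⟨175,2,0,0,0,0⟩, ⟨213,0,2,0,0,0⟩, ⟨202,0,0,2,0,0⟩, ⟨173,0,0,0,2,0⟩, ⟨194,0,0,0,0,2⟩,
    ⟨108,1,(-1),(-1),1,1⟩, ⟨32,1,1,(-1),(-1),(-1)⟩]⟩,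
  ⟨[⟨14,1,5,1,7,9⟩, ⟨7,1,5,3,1,7⟩, ⟨12,1,7,1,3,5⟩, ⟨12,1,9,7,1,5⟩, ⟨14,3,7,1,5,11⟩],
   [⟨185,2,0,0,0,0⟩, ⟨189,0,2,0,0,0⟩, ⟨199,0,0,2,0,0⟩, ⟨189,0,0,0,2,0⟩, ⟨185,0,0,0,0,2⟩,
    ⟨31,1,1,(-1),1,(-1)⟩, ⟨100,1,(-1),(-1),(-1),(-1)⟩]⟩,
  ⟨[⟨12,1,5,1,7,9⟩, ⟨14,1,5,3,1,7⟩, ⟨14,1,7,1,3,5⟩, ⟨12,1,9,7,1,5⟩, ⟨7,3,7,1,5,11⟩],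
   [⟨199,2,0,0,0,0⟩, ⟨189,0,2,0,0,0⟩, ⟨185,0,0,2,0,0⟩, ⟨185,0,0,0,2,0⟩, ⟨189,0,0,0,0,2⟩,
    ⟨31,1,1,(-1),(-1),1⟩, ⟨100,1,(-1),(-1),(-1),(-1)⟩]⟩,
  ⟨[⟨11,1,3,5,1,7⟩, ⟨21,1,5,1,3,7⟩, ⟨8,1,7,1,7,9⟩, ⟨8,1,7,9,1,5⟩, ⟨11,3,1,5,1,7⟩],
   [⟨181,2,0,0,0,0⟩, ⟨181,0,2,0,0,0⟩, ⟨186,0,0,2,0,0⟩, ⟨163,0,0,0,2,0⟩, ⟨186,0,0,0,0,2⟩,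
    ⟨50,1,1,(-1),(-1),1⟩, ⟨66,1,(-1),(-1),1,(-1)⟩, ⟨66,1,(-1),(-1),(-1),(-1)⟩]⟩,
  ⟨[⟨13,1,3,5,1,7⟩, ⟨13,1,5,1,3,7⟩, ⟨38,1,5,1,5,9⟩, ⟨25,1,5,3,1,7⟩, ⟨3,1,7,9,1,5⟩,
    ⟨28,3,1,7,1,5⟩],
   [⟨358,2,0,0,0,0⟩, ⟨388,0,2,0,0,0⟩, ⟨359,0,0,2,0,0⟩, ⟨389,0,0,0,2,0⟩, ⟨338,0,0,0,0,2⟩,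
    ⟨143,1,1,(-1),(-1),1⟩, ⟨119,1,(-1),(-1),1,(-1)⟩, ⟨102,1,1,(-1),(-1),(-1)⟩]⟩,
  ⟨[⟨8,1,5,1,3,5⟩, ⟨21,1,7,1,5,9⟩, ⟨11,1,7,3,1,7⟩, ⟨11,1,9,5,1,7⟩, ⟨8,3,7,11,5,1⟩],
   [⟨186,2,0,0,0,0⟩, ⟨181,0,2,0,0,0⟩, ⟨181,0,0,2,0,0⟩, ⟨186,0,0,0,2,0⟩, ⟨163,0,0,0,0,2⟩,
    ⟨66,1,(-1),(-1),(-1),1⟩, ⟨50,1,1,(-1),1,(-1)⟩, ⟨66,1,(-1),(-1),(-1),(-1)⟩]⟩,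
  ⟨[⟨5,1,5,1,3,5⟩, ⟨17,1,5,1,7,3⟩, ⟨8,1,7,1,3,7⟩, ⟨21,1,7,3,1,7⟩, ⟨6,1,9,7,1,5⟩,
    ⟨4,3,7,1,5,11⟩],
   [⟨197,2,0,0,0,0⟩, ⟨193,0,2,0,0,0⟩, ⟨162,0,0,2,0,0⟩, ⟨178,0,0,0,2,0⟩, ⟨170,0,0,0,0,2⟩,
    ⟨36,1,(-1),1,(-1),1⟩, ⟨83,1,(-1),(-1),(-1),1⟩, ⟨30,1,1,(-1),1,(-1)⟩,
    ⟨60,1,1,(-1),(-1),(-1)⟩, ⟨7,1,(-1),(-1),(-1),(-1)⟩]⟩,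
  ⟨[⟨13,1,3,7,1,5⟩, ⟨13,1,5,1,3,5⟩, ⟨13,1,7,1,7,9⟩, ⟨10,1,7,3,1,7⟩, ⟨10,3,1,5,1,7⟩],
   [⟨192,2,0,0,0,0⟩, ⟨186,0,2,0,0,0⟩, ⟨192,0,0,2,0,0⟩, ⟨186,0,0,0,2,0⟩, ⟨186,0,0,0,0,2⟩,
    ⟨16,1,(-1),(-1),(-1),1⟩, ⟨16,1,(-1),(-1),1,(-1)⟩, ⟨98,1,1,(-1),(-1),(-1)⟩,
    ⟨7,1,(-1),(-1),(-1),(-1)⟩]⟩,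
  ⟨[⟨12,1,3,7,1,5⟩, ⟨12,1,5,1,3,5⟩, ⟨14,1,7,1,7,9⟩, ⟨7,1,7,3,1,7⟩, ⟨14,3,1,5,1,7⟩],
   [⟨185,2,0,0,0,0⟩, ⟨189,0,2,0,0,0⟩, ⟨199,0,0,2,0,0⟩, ⟨189,0,0,0,2,0⟩, ⟨185,0,0,0,0,2⟩,
    ⟨31,1,(-1),(-1),1,(-1)⟩, ⟨100,1,1,(-1),(-1),(-1)⟩]⟩,
  ⟨[⟨9,1,5,1,7,9⟩, ⟨9,1,5,3,1,7⟩, ⟨17,1,7,1,3,5⟩, ⟨12,1,9,7,1,5⟩, ⟨12,3,7,1,5,11⟩],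
   [⟨189,2,0,0,0,0⟩, ⟨189,0,2,0,0,0⟩, ⟨195,0,0,2,0,0⟩, ⟨179,0,0,0,2,0⟩, ⟨195,0,0,0,0,2⟩,
    ⟨31,1,(-1),(-1),1,(-1)⟩, ⟨100,1,(-1),(-1),(-1),(-1)⟩]⟩,
  ⟨[⟨10,1,5,1,7,9⟩, ⟨9,1,5,3,1,7⟩, ⟨12,1,7,1,3,5⟩, ⟨17,1,9,7,1,5⟩, ⟨7,2,6,2,4,0⟩,
    ⟨5,3,7,1,5,11⟩],
   [⟨197,2,0,0,0,0⟩, ⟨202,0,2,0,0,0⟩, ⟨189,0,0,2,0,0⟩, ⟨204,0,0,0,2,0⟩, ⟨194,0,0,0,0,2⟩,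
    ⟨20,1,(-1),1,(-1),1⟩, ⟨1,1,1,(-1),1,(-1)⟩, ⟨91,1,(-1),(-1),(-1),(-1)⟩]⟩,
  ⟨[⟨1,1,3,5,1,7⟩, ⟨24,1,5,1,3,7⟩, ⟨7,1,5,1,5,9⟩, ⟨3,1,5,3,1,7⟩, ⟨24,3,1,5,1,7⟩],
   [⟨165,2,0,0,0,0⟩, ⟨209,0,2,0,0,0⟩, ⟨206,0,0,2,0,0⟩, ⟨164,0,0,0,2,0⟩, ⟨197,0,0,0,0,2⟩,
    ⟨8,1,1,(-1),(-1),1⟩, ⟨129,1,(-1),(-1),1,(-1)⟩]⟩,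
  ⟨[⟨4,1,3,5,1,7⟩, ⟨20,1,5,1,3,7⟩, ⟨2,1,5,1,5,3⟩, ⟨10,1,5,1,5,9⟩, ⟨4,1,5,3,1,7⟩,
    ⟨20,3,1,5,1,7⟩],
   [⟨174,2,0,0,0,0⟩, ⟨206,0,2,0,0,0⟩, ⟨206,0,0,2,0,0⟩, ⟨174,0,0,0,2,0⟩, ⟨190,0,0,0,0,2⟩,
    ⟨18,1,1,(-1),(-1),1⟩, ⟨112,1,(-1),(-1),1,(-1)⟩, ⟨18,1,1,(-1),(-1),(-1)⟩]⟩,
  ⟨[⟨3,1,3,7,1,5⟩, ⟨28,1,5,1,3,5⟩, ⟨38,1,7,1,5,9⟩, ⟨13,1,7,3,1,7⟩, ⟨25,1,9,5,1,7⟩,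
    ⟨13,3,7,1,5,11⟩],
   [⟨389,2,0,0,0,0⟩, ⟨359,0,2,0,0,0⟩, ⟨388,0,0,2,0,0⟩, ⟨358,0,0,0,2,0⟩, ⟨338,0,0,0,0,2⟩,
    ⟨102,1,(-1),(-1),(-1),1⟩, ⟨119,1,1,(-1),1,(-1)⟩, ⟨143,1,(-1),(-1),(-1),(-1)⟩]⟩,
  ⟨[⟨8,1,3,7,1,5⟩, ⟨8,1,5,1,7,3⟩, ⟨11,1,7,1,3,7⟩, ⟨11,1,7,3,1,7⟩, ⟨21,3,7,1,5,11⟩],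
   [⟨163,2,0,0,0,0⟩, ⟨186,0,2,0,0,0⟩, ⟨181,0,0,2,0,0⟩, ⟨181,0,0,0,2,0⟩, ⟨186,0,0,0,0,2⟩,
    ⟨66,1,(-1),1,(-1),1⟩, ⟨66,1,1,(-1),1,(-1)⟩, ⟨50,1,(-1),(-1),(-1),(-1)⟩]⟩,
  ⟨[⟨11,1,3,7,1,5⟩, ⟨11,1,5,1,3,5⟩, ⟨15,1,7,1,7,9⟩, ⟨7,1,7,3,1,7⟩, ⟨15,3,1,5,1,7⟩],
   [⟨180,2,0,0,0,0⟩, ⟨188,0,2,0,0,0⟩, ⟨195,0,0,2,0,0⟩, ⟨188,0,0,0,2,0⟩, ⟨180,0,0,0,0,2⟩,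
    ⟨11,1,(-1),(-1),1,1⟩, ⟨11,1,1,1,(-1),1⟩, ⟨30,1,(-1),(-1),1,(-1)⟩, ⟨96,1,1,(-1),(-1),(-1)⟩]⟩,
  ⟨[⟨13,1,3,7,1,5⟩, ⟨13,1,5,1,3,5⟩, ⟨10,1,7,1,7,9⟩, ⟨10,1,7,3,1,7⟩, ⟨13,3,1,5,1,7⟩],
   [⟨186,2,0,0,0,0⟩, ⟨186,0,2,0,0,0⟩, ⟨192,0,0,2,0,0⟩, ⟨186,0,0,0,2,0⟩, ⟨192,0,0,0,0,2⟩,
    ⟨16,1,(-1),1,(-1),1⟩, ⟨7,1,1,(-1),1,(-1)⟩, ⟨16,1,(-1),(-1),1,(-1)⟩,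
    ⟨98,1,1,(-1),(-1),(-1)⟩]⟩,
  ⟨[⟨9,1,7,1,3,5⟩, ⟨23,1,7,1,5,3⟩, ⟨23,1,7,3,1,5⟩, ⟨3,1,9,5,1,5⟩, ⟨3,3,7,1,5,1⟩],
   [⟨213,2,0,0,0,0⟩, ⟨213,0,2,0,0,0⟩, ⟨173,0,0,2,0,0⟩, ⟨202,0,0,0,2,0⟩, ⟨173,0,0,0,0,2⟩,
    ⟨9,1,1,(-1),1,1⟩, ⟨9,1,1,(-1),(-1),1⟩, ⟨125,1,(-1),(-1),(-1),(-1)⟩]⟩,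
  ⟨[⟨3,1,5,1,9,7⟩, ⟨25,1,7,1,3,5⟩, ⟨13,1,7,1,5,3⟩, ⟨13,1,7,3,1,5⟩, ⟨38,1,9,5,1,5⟩,
    ⟨28,3,1,5,11,5⟩],
   [⟨358,2,0,0,0,0⟩, ⟨338,0,2,0,0,0⟩, ⟨389,0,0,2,0,0⟩, ⟨359,0,0,0,2,0⟩, ⟨388,0,0,0,0,2⟩,
    ⟨143,1,1,(-1),(-1),1⟩, ⟨102,1,(-1),(-1),(-1),1⟩, ⟨119,1,(-1),1,(-1),(-1)⟩]⟩,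
  ⟨[⟨9,1,3,7,1,7⟩, ⟨5,1,5,1,3,7⟩, ⟨10,1,7,1,7,3⟩, ⟨17,1,7,3,1,5⟩, ⟨7,2,4,0,4,6⟩,
    ⟨12,3,1,5,1,5⟩],
   [⟨204,2,0,0,0,0⟩, ⟨189,0,2,0,0,0⟩, ⟨202,0,0,2,0,0⟩, ⟨197,0,0,0,2,0⟩, ⟨194,0,0,0,0,2⟩,
    ⟨91,1,1,(-1),(-1),1⟩, ⟨1,1,(-1),(-1),1,(-1)⟩, ⟨20,1,(-1),(-1),(-1),(-1)⟩]⟩,
  ⟨[⟨9,1,3,7,1,7⟩, ⟨12,1,5,1,3,7⟩, ⟨9,1,7,1,7,3⟩, ⟨12,1,7,3,1,5⟩, ⟨17,3,1,5,1,5⟩],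
   [⟨179,2,0,0,0,0⟩, ⟨195,0,2,0,0,0⟩, ⟨189,0,0,2,0,0⟩, ⟨189,0,0,0,2,0⟩, ⟨195,0,0,0,0,2⟩,
    ⟨100,1,1,(-1),(-1),1⟩, ⟨31,1,(-1),1,1,(-1)⟩]⟩,
  ⟨[⟨12,1,5,1,7,3⟩, ⟨12,1,5,3,1,5⟩, ⟨7,1,7,1,3,7⟩, ⟨14,1,9,7,1,7⟩, ⟨14,3,7,1,5,1⟩],
   [⟨185,2,0,0,0,0⟩, ⟨185,0,2,0,0,0⟩, ⟨189,0,0,2,0,0⟩, ⟨199,0,0,0,2,0⟩, ⟨189,0,0,0,0,2⟩,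
    ⟨100,1,(-1),(-1),(-1),1⟩, ⟨31,1,(-1),1,(-1),(-1)⟩]⟩,
  ⟨[⟨12,1,5,1,7,3⟩, ⟨12,1,5,3,1,5⟩, ⟨7,1,7,1,3,7⟩, ⟨14,1,9,7,1,7⟩, ⟨14,3,7,1,5,1⟩],
   [⟨185,2,0,0,0,0⟩, ⟨185,0,2,0,0,0⟩, ⟨189,0,0,2,0,0⟩, ⟨199,0,0,0,2,0⟩, ⟨189,0,0,0,0,2⟩,
    ⟨100,1,(-1),(-1),(-1),1⟩, ⟨31,1,(-1),1,(-1),(-1)⟩]⟩,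
  ⟨[⟨20,1,3,5,1,5⟩, ⟨20,1,5,1,3,5⟩, ⟨4,1,5,1,5,3⟩, ⟨10,1,5,3,1,5⟩, ⟨2,1,5,9,1,5⟩,
    ⟨4,3,1,5,1,5⟩],
   [⟨206,2,0,0,0,0⟩, ⟨174,0,2,0,0,0⟩, ⟨190,0,0,2,0,0⟩, ⟨174,0,0,0,2,0⟩, ⟨206,0,0,0,0,2⟩,
    ⟨112,1,(-1),(-1),(-1),1⟩, ⟨18,1,1,1,(-1),(-1)⟩, ⟨18,1,1,(-1),(-1),(-1)⟩]⟩,
  ⟨[⟨5,1,3,5,1,5⟩, ⟨11,1,5,1,3,5⟩, ⟨20,1,5,1,5,3⟩, ⟨21,1,5,3,1,5⟩, ⟨3,3,1,5,1,5⟩],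
   [⟨210,2,0,0,0,0⟩, ⟨205,0,2,0,0,0⟩, ⟨174,0,0,2,0,0⟩, ⟨194,0,0,0,2,0⟩, ⟨175,0,0,0,0,2⟩,
    ⟨9,1,(-1),(-1),1,1⟩, ⟨23,1,(-1),(-1),(-1),1⟩, ⟨108,1,1,(-1),(-1),(-1)⟩]⟩,
  ⟨[⟨7,1,7,1,3,5⟩, ⟨22,1,7,1,5,3⟩, ⟨24,1,7,3,1,5⟩, ⟨3,1,9,5,1,5⟩, ⟨3,3,7,1,5,1⟩],
   [⟨206,2,0,0,0,0⟩, ⟨205,0,2,0,0,0⟩, ⟨165,0,0,2,0,0⟩, ⟨198,0,0,0,2,0⟩, ⟨168,0,0,0,0,2⟩,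
    ⟨10,1,1,(-1),(-1),1⟩, ⟨8,1,(-1),1,(-1),(-1)⟩, ⟨119,1,(-1),(-1),(-1),(-1)⟩]⟩,
  ⟨[⟨2,1,3,5,1,5⟩, ⟨4,1,7,1,3,5⟩, ⟨4,1,7,1,5,3⟩, ⟨20,1,7,3,1,5⟩, ⟨10,1,9,5,1,5⟩,
    ⟨20,3,7,1,5,1⟩],
   [⟨174,2,0,0,0,0⟩, ⟨190,0,2,0,0,0⟩, ⟨174,0,0,2,0,0⟩, ⟨206,0,0,0,2,0⟩, ⟨206,0,0,0,0,2⟩,
    ⟨18,1,1,(-1),(-1),1⟩, ⟨18,1,(-1),(-1),(-1),1⟩, ⟨112,1,(-1),1,(-1),(-1)⟩]⟩,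
  ⟨[⟨7,1,3,7,1,7⟩, ⟨15,1,5,1,3,7⟩, ⟨15,1,7,1,7,3⟩, ⟨11,1,7,3,1,5⟩, ⟨11,3,1,5,1,5⟩],
   [⟨188,2,0,0,0,0⟩, ⟨195,0,2,0,0,0⟩, ⟨188,0,0,2,0,0⟩, ⟨180,0,0,0,2,0⟩, ⟨180,0,0,0,0,2⟩,
    ⟨96,1,1,(-1),(-1),1⟩, ⟨11,1,(-1),(-1),(-1),1⟩, ⟨41,1,(-1),(-1),1,(-1)⟩]⟩,
  ⟨[⟨10,1,3,7,1,7⟩, ⟨13,1,5,1,3,7⟩, ⟨10,1,7,1,7,3⟩, ⟨13,1,7,3,1,5⟩, ⟨13,3,1,5,1,5⟩],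
   [⟨186,2,0,0,0,0⟩, ⟨192,0,2,0,0,0⟩, ⟨186,0,0,2,0,0⟩, ⟨186,0,0,0,2,0⟩, ⟨192,0,0,0,0,2⟩,
    ⟨98,1,1,(-1),(-1),1⟩, ⟨7,1,(-1),1,1,(-1)⟩, ⟨16,1,(-1),(-1),1,(-1)⟩,
    ⟨16,1,(-1),1,(-1),(-1)⟩]⟩,
  ⟨[⟨14,1,5,1,7,3⟩, ⟨12,1,5,3,1,5⟩, ⟨14,1,7,1,3,7⟩, ⟨7,1,9,7,1,7⟩, ⟨12,3,7,1,5,1⟩],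
   [⟨189,2,0,0,0,0⟩, ⟨199,0,2,0,0,0⟩, ⟨189,0,0,2,0,0⟩, ⟨185,0,0,0,2,0⟩, ⟨185,0,0,0,0,2⟩,
    ⟨100,1,(-1),(-1),(-1),1⟩, ⟨31,1,1,(-1),1,(-1)⟩]⟩,
  ⟨[⟨13,1,5,1,7,3⟩, ⟨13,1,5,3,1,5⟩, ⟨10,1,7,1,3,7⟩, ⟨10,1,9,7,1,7⟩, ⟨13,3,7,1,5,1⟩],
   [⟨186,2,0,0,0,0⟩, ⟨192,0,2,0,0,0⟩, ⟨186,0,0,2,0,0⟩, ⟨192,0,0,0,2,0⟩, ⟨186,0,0,0,0,2⟩,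
    ⟨7,1,(-1),1,(-1),1⟩, ⟨98,1,(-1),(-1),(-1),1⟩, ⟨16,1,1,(-1),1,(-1)⟩,
    ⟨16,1,(-1),1,(-1),(-1)⟩]⟩,
  ⟨[⟨21,1,3,5,1,5⟩, ⟨20,1,5,1,3,5⟩, ⟨3,1,5,1,5,3⟩, ⟨11,1,5,3,1,5⟩, ⟨5,3,1,5,1,5⟩],
   [⟨205,2,0,0,0,0⟩, ⟨174,0,2,0,0,0⟩, ⟨194,0,0,2,0,0⟩, ⟨175,0,0,0,2,0⟩, ⟨210,0,0,0,0,2⟩,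
    ⟨108,1,(-1),(-1),(-1),1⟩, ⟨23,1,1,1,(-1),(-1)⟩, ⟨9,1,1,(-1),(-1),(-1)⟩]⟩,
  ⟨[⟨3,1,3,5,1,5⟩, ⟨11,1,5,1,3,5⟩, ⟨21,1,5,1,5,3⟩, ⟨20,1,5,3,1,5⟩, ⟨5,3,1,5,1,5⟩],
   [⟨205,2,0,0,0,0⟩, ⟨210,0,2,0,0,0⟩, ⟨175,0,0,2,0,0⟩, ⟨194,0,0,0,2,0⟩, ⟨174,0,0,0,0,2⟩,
    ⟨23,1,(-1),(-1),1,1⟩, ⟨9,1,(-1),(-1),(-1),1⟩, ⟨108,1,1,(-1),(-1),(-1)⟩]⟩]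

lemma check_certs3 : checkAll 3 certs3 = true := by
  decide +kernel

end Pool.Agent.N554.RG
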