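import Mathlib

/-!
# Checking of the certificates
-/

set_option autoImplicit false

namespace Pool.Agent.N554.RG

/-- A weight together with an integer vector. -/
structure Entry where
  /-- weight -/
  n : ℕ
  /-- first coordinate -/
  a : ℤ
  /-- second coordinate -/
  b : ℤ
  /-- third coordinate -/
  c : ℤ
  /-- fourth coordinate -/
  d : ℤ
  /-- fifth coordinate -/
  e : ℤ

/-- A certificate: weighted points (in units `1/12`) and weighted lattice vectors (in units
`1/2`). -/
structure Cert where
  /-- points -/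
  X : List Entry
  /-- vectors -/
  Z : List Entry

/-- `144 * φ(q/12)` -/
def ph (q : ℤ) : ℤ := (q % 12) * (12 - q % 12)

/-- The functionals: `0,...,9` sums, `10,...,19` differences, `20` twice the first coordinate. -/
def fn : ℕ → Entry → ℤ
  | 0, v => v.a + v.b
  | 1, v => v.a + v.c
  | 2, v => v.a + v.d
  | 3, v => v.a + v.e
  | 4, v => v.b + v.c
  | 5, v => v.b + v.d
  | 6, v => v.b + v.e
  | 7, v => v.c + v.d
  | 8, v => v.c + v.e
  | 9, v => v.d + v.e
  | 10, v => v.a - v.b
  | 11, v => v.a - v.c
  | 12, v => v.a - v.d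
  | 13, v => v.a - v.e
  | 14, v => v.b - v.c
  | 15, v => v.b - v.d
  | 16, v => v.b - v.e
  | 17, v => v.c - v.d
  | 18, v => v.c - v.e
  | 19, v => v.d - v.e
  | _, v => 2 * v.a

/-- The score of the functional `k`. -/
def score (C : Cert) (k : ℕ) : ℤ :=
  (C.X.map fun v => (v.n : ℤ) * ph (fn k v)).sum - (C.Z.map fun v => (v.n : ℤ) * (fn k v) ^ 2).sum

/-- Total weight of a list. -/
def total (l : List Entry) : ℕ := (l.map Entry.n).sum

/-- The vector is nonzero with all coordinates of the same parity. -/
def goodVec (v : Entry) : Bool :=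
  (v.a % 2 == v.b % 2) && (v.a % 2 == v.c % 2) && (v.a % 2 == v.d % 2) && (v.a % 2 == v.e % 2) &&
    !(v.a == 0 && v.b == 0 && v.c == 0 && v.d == 0 && v.e == 0)

/-- The edges used by the four cones. -/
def edges : ℕ → List ℕ
  | 0 => [0, 1, 2, 3]
  | 1 => [0, 1, 2, 3, 4]
  | 2 => [3, 5, 0, 1, 4]
  | _ => [0, 4, 7, 9, 3]

/-- The sign of the pair `p` in the pattern `s`; `true` is plus. -/
def sgn (s p : ℕ) : Bool := p < 4 || (s / 2 ^ (p - 4)) % 2 == 1

/-- The check of one certificate. -/
def check (h s : ℕ) (C : Cert) : Bool :=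
  (0 < total C.X) && (1827 * total C.X ≤ 100 * total C.Z) && C.Z.all goodVec &&
  (List.range 10).all (fun p => 0 ≤ score C (if sgn s p then p else p + 10)) &&
  (edges h).all (fun p => 0 ≤ score C p + score C (p + 10)) &&
  (h != 0 || 0 ≤ score C 20)

/-- The check of a list of certificates. -/
def checkAll (h : ℕ) (l : List Cert) : Bool :=
  l.length == 64 && (List.range 64).all (fun s => check h s (l.getD s ⟨[], []⟩))

end Pool.Agent.N554.RG
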