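import Mathlib

/-!
# A periodic point set in `ℝ⁵` with small packing-covering ratio

The set `pts` is the union of two translates of a lattice of `ℝ⁵`. Its minimal distance is `2` and
every point of `ℝ⁵` has distance at most `√(81/40)` from it.
-/

set_option autoImplicit false
set_option linter.unusedVariables false
set_option linter.unusedSimpArgs false

namespace Pool.Agent.N554.RG


lemma case_A_0 (a b c d t : ℝ) (h1 : 0 ≤ 1/2 - a) (h2 : 0 ≤ a - b)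
    (h3 : 0 ≤ b - c) (h4 : 0 ≤ c - d) (h5 : 0 ≤ d)
    (h6 : 0 ≤ t - (-1/2)) (h7 : 0 ≤ (-1/4)-t)
    (h8 : 0 ≤ (1/4+t+15/4*(1-2*a)) - (1/4-t))
    (h9 : 0 ≤ (1-2*(-t)+15/4*(1-(a+b+c+d))) - (1/4-t))
    (h10 : 0 ≤ (15/4*(1-(a+b+c+d)+2*d)) - (1/4-t))
    : 15/4*(a^2+b^2+c^2+d^2)+t^2+(1/4-t) ≤ 81/40 := by
  linarith [mul_nonneg h1 h1, mul_nonneg h1 h2, mul_nonneg h1 h3, mul_nonneg h1 h4,
    mul_nonneg h1 h5, mul_nonneg h1 h6, mul_nonneg h1 h7, mul_nonneg h1 h8,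
    mul_nonneg h1 h9, mul_nonneg h1 h10, mul_nonneg h2 h2, mul_nonneg h2 h3,
    mul_nonneg h2 h4, mul_nonneg h2 h5, mul_nonneg h2 h6, mul_nonneg h2 h7,
    mul_nonneg h2 h8, mul_nonneg h2 h9, mul_nonneg h2 h10, mul_nonneg h3 h3,
    mul_nonneg h3 h4, mul_nonneg h3 h5, mul_nonneg h3 h6, mul_nonneg h3 h7,
    mul_nonneg h3 h8, mul_nonneg h3 h9, mul_nonneg h3 h10, mul_nonneg h4 h4,
    mul_nonneg h4 h5, mul_nonneg h4 h6, mul_nonneg h4 h7, mul_nonneg h4 h8,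
    mul_nonneg h4 h9, mul_nonneg h4 h10, mul_nonneg h5 h5, mul_nonneg h5 h6,
    mul_nonneg h5 h7, mul_nonneg h5 h8, mul_nonneg h5 h9, mul_nonneg h5 h10,
    mul_nonneg h6 h6, mul_nonneg h6 h7, mul_nonneg h6 h8, mul_nonneg h6 h9,
    mul_nonneg h6 h10, mul_nonneg h7 h7, mul_nonneg h7 h8, mul_nonneg h7 h9,
    mul_nonneg h7 h10, mul_nonneg h8 h8, mul_nonneg h8 h9, mul_nonneg h8 h10,
    mul_nonneg h9 h9, mul_nonneg h9 h10, mul_nonneg h10 h10]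

lemma case_B_0 (a b c d t : ℝ) (h1 : 0 ≤ 1/2 - a) (h2 : 0 ≤ a - b)
    (h3 : 0 ≤ b - c) (h4 : 0 ≤ c - d) (h5 : 0 ≤ d)
    (h6 : 0 ≤ t - (-1/2)) (h7 : 0 ≤ (-1/4)-t)
    (h8 : 0 ≤ (1/4-t) - (1/4+t+15/4*(1-2*a)))
    (h9 : 0 ≤ (1-2*(-t)+15/4*(1-(a+b+c+d))) - (1/4+t+15/4*(1-2*a)))
    (h10 : 0 ≤ (15/4*(1-(a+b+c+d)+2*d)) - (1/4+t+15/4*(1-2*a)))
    : 15/4*(a^2+b^2+c^2+d^2)+t^2+(1/4+t+15/4*(1-2*a)) ≤ 81/40 := by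
  linarith [mul_nonneg h1 h1, mul_nonneg h1 h2, mul_nonneg h1 h3, mul_nonneg h1 h4,
    mul_nonneg h1 h5, mul_nonneg h1 h6, mul_nonneg h1 h7, mul_nonneg h1 h8,
    mul_nonneg h1 h9, mul_nonneg h1 h10, mul_nonneg h2 h2, mul_nonneg h2 h3,
    mul_nonneg h2 h4, mul_nonneg h2 h5, mul_nonneg h2 h6, mul_nonneg h2 h7,
    mul_nonneg h2 h8, mul_nonneg h2 h9, mul_nonneg h2 h10, mul_nonneg h3 h3,
    mul_nonneg h3 h4, mul_nonneg h3 h5, mul_nonneg h3 h6, mul_nonneg h3 h7,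
    mul_nonneg h3 h8, mul_nonneg h3 h9, mul_nonneg h3 h10, mul_nonneg h4 h4,
    mul_nonneg h4 h5, mul_nonneg h4 h6, mul_nonneg h4 h7, mul_nonneg h4 h8,
    mul_nonneg h4 h9, mul_nonneg h4 h10, mul_nonneg h5 h5, mul_nonneg h5 h6,
    mul_nonneg h5 h7, mul_nonneg h5 h8, mul_nonneg h5 h9, mul_nonneg h5 h10,
    mul_nonneg h6 h6, mul_nonneg h6 h7, mul_nonneg h6 h8, mul_nonneg h6 h9,
    mul_nonneg h6 h10, mul_nonneg h7 h7, mul_nonneg h7 h8, mul_nonneg h7 h9,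
    mul_nonneg h7 h10, mul_nonneg h8 h8, mul_nonneg h8 h9, mul_nonneg h8 h10,
    mul_nonneg h9 h9, mul_nonneg h9 h10, mul_nonneg h10 h10]

lemma case_C_0 (a b c d t : ℝ) (h1 : 0 ≤ 1/2 - a) (h2 : 0 ≤ a - b)
    (h3 : 0 ≤ b - c) (h4 : 0 ≤ c - d) (h5 : 0 ≤ d)
    (h6 : 0 ≤ t - (-1/2)) (h7 : 0 ≤ (-1/4)-t)
    (h8 : 0 ≤ (1/4-t) - (1-2*(-t)+15/4*(1-(a+b+c+d))))
    (h9 : 0 ≤ (1/4+t+15/4*(1-2*a)) - (1-2*(-t)+15/4*(1-(a+b+c+d))))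
    (h10 : 0 ≤ (15/4*(1-(a+b+c+d)+2*d)) - (1-2*(-t)+15/4*(1-(a+b+c+d))))
    : 15/4*(a^2+b^2+c^2+d^2)+t^2+(1-2*(-t)+15/4*(1-(a+b+c+d))) ≤ 81/40 := by
  linarith [mul_nonneg h1 h1, mul_nonneg h1 h2, mul_nonneg h1 h3, mul_nonneg h1 h4,
    mul_nonneg h1 h5, mul_nonneg h1 h6, mul_nonneg h1 h7, mul_nonneg h1 h8,
    mul_nonneg h1 h9, mul_nonneg h1 h10, mul_nonneg h2 h2, mul_nonneg h2 h3,
    mul_nonneg h2 h4, mul_nonneg h2 h5, mul_nonneg h2 h6, mul_nonneg h2 h7,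
    mul_nonneg h2 h8, mul_nonneg h2 h9, mul_nonneg h2 h10, mul_nonneg h3 h3,
    mul_nonneg h3 h4, mul_nonneg h3 h5, mul_nonneg h3 h6, mul_nonneg h3 h7,
    mul_nonneg h3 h8, mul_nonneg h3 h9, mul_nonneg h3 h10, mul_nonneg h4 h4,
    mul_nonneg h4 h5, mul_nonneg h4 h6, mul_nonneg h4 h7, mul_nonneg h4 h8,
    mul_nonneg h4 h9, mul_nonneg h4 h10, mul_nonneg h5 h5, mul_nonneg h5 h6,
    mul_nonneg h5 h7, mul_nonneg h5 h8, mul_nonneg h5 h9, mul_nonneg h5 h10,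
    mul_nonneg h6 h6, mul_nonneg h6 h7, mul_nonneg h6 h8, mul_nonneg h6 h9,
    mul_nonneg h6 h10, mul_nonneg h7 h7, mul_nonneg h7 h8, mul_nonneg h7 h9,
    mul_nonneg h7 h10, mul_nonneg h8 h8, mul_nonneg h8 h9, mul_nonneg h8 h10,
    mul_nonneg h9 h9, mul_nonneg h9 h10, mul_nonneg h10 h10]

lemma case_D_0 (a b c d t : ℝ) (h1 : 0 ≤ 1/2 - a) (h2 : 0 ≤ a - b)
    (h3 : 0 ≤ b - c) (h4 : 0 ≤ c - d) (h5 : 0 ≤ d)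
    (h6 : 0 ≤ t - (-1/2)) (h7 : 0 ≤ (-1/4)-t)
    (h8 : 0 ≤ (1/4-t) - (15/4*(1-(a+b+c+d)+2*d)))
    (h9 : 0 ≤ (1/4+t+15/4*(1-2*a)) - (15/4*(1-(a+b+c+d)+2*d)))
    (h10 : 0 ≤ (1-2*(-t)+15/4*(1-(a+b+c+d))) - (15/4*(1-(a+b+c+d)+2*d)))
    : 15/4*(a^2+b^2+c^2+d^2)+t^2+(15/4*(1-(a+b+c+d)+2*d)) ≤ 81/40 := by
  linarith [mul_nonneg h1 h1, mul_nonneg h1 h2, mul_nonneg h1 h3, mul_nonneg h1 h4,
    mul_nonneg h1 h5, mul_nonneg h1 h6, mul_nonneg h1 h7, mul_nonneg h1 h8,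
    mul_nonneg h1 h9, mul_nonneg h1 h10, mul_nonneg h2 h2, mul_nonneg h2 h3,
    mul_nonneg h2 h4, mul_nonneg h2 h5, mul_nonneg h2 h6, mul_nonneg h2 h7,
    mul_nonneg h2 h8, mul_nonneg h2 h9, mul_nonneg h2 h10, mul_nonneg h3 h3,
    mul_nonneg h3 h4, mul_nonneg h3 h5, mul_nonneg h3 h6, mul_nonneg h3 h7,
    mul_nonneg h3 h8, mul_nonneg h3 h9, mul_nonneg h3 h10, mul_nonneg h4 h4,
    mul_nonneg h4 h5, mul_nonneg h4 h6, mul_nonneg h4 h7, mul_nonneg h4 h8,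
    mul_nonneg h4 h9, mul_nonneg h4 h10, mul_nonneg h5 h5, mul_nonneg h5 h6,
    mul_nonneg h5 h7, mul_nonneg h5 h8, mul_nonneg h5 h9, mul_nonneg h5 h10,
    mul_nonneg h6 h6, mul_nonneg h6 h7, mul_nonneg h6 h8, mul_nonneg h6 h9,
    mul_nonneg h6 h10, mul_nonneg h7 h7, mul_nonneg h7 h8, mul_nonneg h7 h9,
    mul_nonneg h7 h10, mul_nonneg h8 h8, mul_nonneg h8 h9, mul_nonneg h8 h10,
    mul_nonneg h9 h9, mul_nonneg h9 h10, mul_nonneg h10 h10]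

lemma case_A_1 (a b c d t : ℝ) (h1 : 0 ≤ 1/2 - a) (h2 : 0 ≤ a - b)
    (h3 : 0 ≤ b - c) (h4 : 0 ≤ c - d) (h5 : 0 ≤ d)
    (h6 : 0 ≤ t - (-1/4)) (h7 : 0 ≤ (0)-t)
    (h8 : 0 ≤ (1/4+t+15/4*(1-2*a)) - (1/4-t))
    (h9 : 0 ≤ (1-2*(-t)+15/4*(1-(a+b+c+d))) - (1/4-t))
    (h10 : 0 ≤ (15/4*(1-(a+b+c+d)+2*d)) - (1/4-t))
    : 15/4*(a^2+b^2+c^2+d^2)+t^2+(1/4-t) ≤ 81/40 := by
  linarith [mul_nonneg h1 h1, mul_nonneg h1 h2, mul_nonneg h1 h3, mul_nonneg h1 h4,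
    mul_nonneg h1 h5, mul_nonneg h1 h6, mul_nonneg h1 h7, mul_nonneg h1 h8,
    mul_nonneg h1 h9, mul_nonneg h1 h10, mul_nonneg h2 h2, mul_nonneg h2 h3,
    mul_nonneg h2 h4, mul_nonneg h2 h5, mul_nonneg h2 h6, mul_nonneg h2 h7,
    mul_nonneg h2 h8, mul_nonneg h2 h9, mul_nonneg h2 h10, mul_nonneg h3 h3,
    mul_nonneg h3 h4, mul_nonneg h3 h5, mul_nonneg h3 h6, mul_nonneg h3 h7,
    mul_nonneg h3 h8, mul_nonneg h3 h9, mul_nonneg h3 h10, mul_nonneg h4 h4,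
    mul_nonneg h4 h5, mul_nonneg h4 h6, mul_nonneg h4 h7, mul_nonneg h4 h8,
    mul_nonneg h4 h9, mul_nonneg h4 h10, mul_nonneg h5 h5, mul_nonneg h5 h6,
    mul_nonneg h5 h7, mul_nonneg h5 h8, mul_nonneg h5 h9, mul_nonneg h5 h10,
    mul_nonneg h6 h6, mul_nonneg h6 h7, mul_nonneg h6 h8, mul_nonneg h6 h9,
    mul_nonneg h6 h10, mul_nonneg h7 h7, mul_nonneg h7 h8, mul_nonneg h7 h9,
    mul_nonneg h7 h10, mul_nonneg h8 h8, mul_nonneg h8 h9, mul_nonneg h8 h10,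
    mul_nonneg h9 h9, mul_nonneg h9 h10, mul_nonneg h10 h10]

lemma case_B_1 (a b c d t : ℝ) (h1 : 0 ≤ 1/2 - a) (h2 : 0 ≤ a - b)
    (h3 : 0 ≤ b - c) (h4 : 0 ≤ c - d) (h5 : 0 ≤ d)
    (h6 : 0 ≤ t - (-1/4)) (h7 : 0 ≤ (0)-t)
    (h8 : 0 ≤ (1/4-t) - (1/4+t+15/4*(1-2*a)))
    (h9 : 0 ≤ (1-2*(-t)+15/4*(1-(a+b+c+d))) - (1/4+t+15/4*(1-2*a)))
    (h10 : 0 ≤ (15/4*(1-(a+b+c+d)+2*d)) - (1/4+t+15/4*(1-2*a)))
    : 15/4*(a^2+b^2+c^2+d^2)+t^2+(1/4+t+15/4*(1-2*a)) ≤ 81/40 := by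
  linarith [mul_nonneg h1 h1, mul_nonneg h1 h2, mul_nonneg h1 h3, mul_nonneg h1 h4,
    mul_nonneg h1 h5, mul_nonneg h1 h6, mul_nonneg h1 h7, mul_nonneg h1 h8,
    mul_nonneg h1 h9, mul_nonneg h1 h10, mul_nonneg h2 h2, mul_nonneg h2 h3,
    mul_nonneg h2 h4, mul_nonneg h2 h5, mul_nonneg h2 h6, mul_nonneg h2 h7,
    mul_nonneg h2 h8, mul_nonneg h2 h9, mul_nonneg h2 h10, mul_nonneg h3 h3,
    mul_nonneg h3 h4, mul_nonneg h3 h5, mul_nonneg h3 h6, mul_nonneg h3 h7,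
    mul_nonneg h3 h8, mul_nonneg h3 h9, mul_nonneg h3 h10, mul_nonneg h4 h4,
    mul_nonneg h4 h5, mul_nonneg h4 h6, mul_nonneg h4 h7, mul_nonneg h4 h8,
    mul_nonneg h4 h9, mul_nonneg h4 h10, mul_nonneg h5 h5, mul_nonneg h5 h6,
    mul_nonneg h5 h7, mul_nonneg h5 h8, mul_nonneg h5 h9, mul_nonneg h5 h10,
    mul_nonneg h6 h6, mul_nonneg h6 h7, mul_nonneg h6 h8, mul_nonneg h6 h9,
    mul_nonneg h6 h10, mul_nonneg h7 h7, mul_nonneg h7 h8, mul_nonneg h7 h9,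
    mul_nonneg h7 h10, mul_nonneg h8 h8, mul_nonneg h8 h9, mul_nonneg h8 h10,
    mul_nonneg h9 h9, mul_nonneg h9 h10, mul_nonneg h10 h10]

lemma case_C_1 (a b c d t : ℝ) (h1 : 0 ≤ 1/2 - a) (h2 : 0 ≤ a - b)
    (h3 : 0 ≤ b - c) (h4 : 0 ≤ c - d) (h5 : 0 ≤ d)
    (h6 : 0 ≤ t - (-1/4)) (h7 : 0 ≤ (0)-t)
    (h8 : 0 ≤ (1/4-t) - (1-2*(-t)+15/4*(1-(a+b+c+d))))
    (h9 : 0 ≤ (1/4+t+15/4*(1-2*a)) - (1-2*(-t)+15/4*(1-(a+b+c+d))))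
    (h10 : 0 ≤ (15/4*(1-(a+b+c+d)+2*d)) - (1-2*(-t)+15/4*(1-(a+b+c+d))))
    : 15/4*(a^2+b^2+c^2+d^2)+t^2+(1-2*(-t)+15/4*(1-(a+b+c+d))) ≤ 81/40 := by
  linarith [mul_nonneg h1 h1, mul_nonneg h1 h2, mul_nonneg h1 h3, mul_nonneg h1 h4,
    mul_nonneg h1 h5, mul_nonneg h1 h6, mul_nonneg h1 h7, mul_nonneg h1 h8,
    mul_nonneg h1 h9, mul_nonneg h1 h10, mul_nonneg h2 h2, mul_nonneg h2 h3,
    mul_nonneg h2 h4, mul_nonneg h2 h5, mul_nonneg h2 h6, mul_nonneg h2 h7,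
    mul_nonneg h2 h8, mul_nonneg h2 h9, mul_nonneg h2 h10, mul_nonneg h3 h3,
    mul_nonneg h3 h4, mul_nonneg h3 h5, mul_nonneg h3 h6, mul_nonneg h3 h7,
    mul_nonneg h3 h8, mul_nonneg h3 h9, mul_nonneg h3 h10, mul_nonneg h4 h4,
    mul_nonneg h4 h5, mul_nonneg h4 h6, mul_nonneg h4 h7, mul_nonneg h4 h8,
    mul_nonneg h4 h9, mul_nonneg h4 h10, mul_nonneg h5 h5, mul_nonneg h5 h6,
    mul_nonneg h5 h7, mul_nonneg h5 h8, mul_nonneg h5 h9, mul_nonneg h5 h10,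
    mul_nonneg h6 h6, mul_nonneg h6 h7, mul_nonneg h6 h8, mul_nonneg h6 h9,
    mul_nonneg h6 h10, mul_nonneg h7 h7, mul_nonneg h7 h8, mul_nonneg h7 h9,
    mul_nonneg h7 h10, mul_nonneg h8 h8, mul_nonneg h8 h9, mul_nonneg h8 h10,
    mul_nonneg h9 h9, mul_nonneg h9 h10, mul_nonneg h10 h10]

lemma case_D_1 (a b c d t : ℝ) (h1 : 0 ≤ 1/2 - a) (h2 : 0 ≤ a - b)
    (h3 : 0 ≤ b - c) (h4 : 0 ≤ c - d) (h5 : 0 ≤ d)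
    (h6 : 0 ≤ t - (-1/4)) (h7 : 0 ≤ (0)-t)
    (h8 : 0 ≤ (1/4-t) - (15/4*(1-(a+b+c+d)+2*d)))
    (h9 : 0 ≤ (1/4+t+15/4*(1-2*a)) - (15/4*(1-(a+b+c+d)+2*d)))
    (h10 : 0 ≤ (1-2*(-t)+15/4*(1-(a+b+c+d))) - (15/4*(1-(a+b+c+d)+2*d)))
    : 15/4*(a^2+b^2+c^2+d^2)+t^2+(15/4*(1-(a+b+c+d)+2*d)) ≤ 81/40 := by
  linarith [mul_nonneg h1 h1, mul_nonneg h1 h2, mul_nonneg h1 h3, mul_nonneg h1 h4,
    mul_nonneg h1 h5, mul_nonneg h1 h6, mul_nonneg h1 h7, mul_nonneg h1 h8,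
    mul_nonneg h1 h9, mul_nonneg h1 h10, mul_nonneg h2 h2, mul_nonneg h2 h3,
    mul_nonneg h2 h4, mul_nonneg h2 h5, mul_nonneg h2 h6, mul_nonneg h2 h7,
    mul_nonneg h2 h8, mul_nonneg h2 h9, mul_nonneg h2 h10, mul_nonneg h3 h3,
    mul_nonneg h3 h4, mul_nonneg h3 h5, mul_nonneg h3 h6, mul_nonneg h3 h7,
    mul_nonneg h3 h8, mul_nonneg h3 h9, mul_nonneg h3 h10, mul_nonneg h4 h4,
    mul_nonneg h4 h5, mul_nonneg h4 h6, mul_nonneg h4 h7, mul_nonneg h4 h8,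
    mul_nonneg h4 h9, mul_nonneg h4 h10, mul_nonneg h5 h5, mul_nonneg h5 h6,
    mul_nonneg h5 h7, mul_nonneg h5 h8, mul_nonneg h5 h9, mul_nonneg h5 h10,
    mul_nonneg h6 h6, mul_nonneg h6 h7, mul_nonneg h6 h8, mul_nonneg h6 h9,
    mul_nonneg h6 h10, mul_nonneg h7 h7, mul_nonneg h7 h8, mul_nonneg h7 h9,
    mul_nonneg h7 h10, mul_nonneg h8 h8, mul_nonneg h8 h9, mul_nonneg h8 h10,
    mul_nonneg h9 h9, mul_nonneg h9 h10, mul_nonneg h10 h10]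

lemma case_A_2 (a b c d t : ℝ) (h1 : 0 ≤ 1/2 - a) (h2 : 0 ≤ a - b)
    (h3 : 0 ≤ b - c) (h4 : 0 ≤ c - d) (h5 : 0 ≤ d)
    (h6 : 0 ≤ t - (0)) (h7 : 0 ≤ (1/2)-t)
    (h8 : 0 ≤ (1/4+t+15/4*(1-2*a)) - (1/4-t))
    (h9 : 0 ≤ (1-2*t+15/4*(1-(a+b+c+d))) - (1/4-t))
    (h10 : 0 ≤ (15/4*(1-(a+b+c+d)+2*d)) - (1/4-t))
    : 15/4*(a^2+b^2+c^2+d^2)+t^2+(1/4-t) ≤ 81/40 := by
  linarith [mul_nonneg h1 h1, mul_nonneg h1 h2, mul_nonneg h1 h3, mul_nonneg h1 h4,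
    mul_nonneg h1 h5, mul_nonneg h1 h6, mul_nonneg h1 h7, mul_nonneg h1 h8,
    mul_nonneg h1 h9, mul_nonneg h1 h10, mul_nonneg h2 h2, mul_nonneg h2 h3,
    mul_nonneg h2 h4, mul_nonneg h2 h5, mul_nonneg h2 h6, mul_nonneg h2 h7,
    mul_nonneg h2 h8, mul_nonneg h2 h9, mul_nonneg h2 h10, mul_nonneg h3 h3,
    mul_nonneg h3 h4, mul_nonneg h3 h5, mul_nonneg h3 h6, mul_nonneg h3 h7,
    mul_nonneg h3 h8, mul_nonneg h3 h9, mul_nonneg h3 h10, mul_nonneg h4 h4,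
    mul_nonneg h4 h5, mul_nonneg h4 h6, mul_nonneg h4 h7, mul_nonneg h4 h8,
    mul_nonneg h4 h9, mul_nonneg h4 h10, mul_nonneg h5 h5, mul_nonneg h5 h6,
    mul_nonneg h5 h7, mul_nonneg h5 h8, mul_nonneg h5 h9, mul_nonneg h5 h10,
    mul_nonneg h6 h6, mul_nonneg h6 h7, mul_nonneg h6 h8, mul_nonneg h6 h9,
    mul_nonneg h6 h10, mul_nonneg h7 h7, mul_nonneg h7 h8, mul_nonneg h7 h9,
    mul_nonneg h7 h10, mul_nonneg h8 h8, mul_nonneg h8 h9, mul_nonneg h8 h10,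
    mul_nonneg h9 h9, mul_nonneg h9 h10, mul_nonneg h10 h10]

lemma case_B_2 (a b c d t : ℝ) (h1 : 0 ≤ 1/2 - a) (h2 : 0 ≤ a - b)
    (h3 : 0 ≤ b - c) (h4 : 0 ≤ c - d) (h5 : 0 ≤ d)
    (h6 : 0 ≤ t - (0)) (h7 : 0 ≤ (1/2)-t)
    (h8 : 0 ≤ (1/4-t) - (1/4+t+15/4*(1-2*a)))
    (h9 : 0 ≤ (1-2*t+15/4*(1-(a+b+c+d))) - (1/4+t+15/4*(1-2*a)))
    (h10 : 0 ≤ (15/4*(1-(a+b+c+d)+2*d)) - (1/4+t+15/4*(1-2*a)))
    : 15/4*(a^2+b^2+c^2+d^2)+t^2+(1/4+t+15/4*(1-2*a)) ≤ 81/40 := by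
  linarith [mul_nonneg h1 h1, mul_nonneg h1 h2, mul_nonneg h1 h3, mul_nonneg h1 h4,
    mul_nonneg h1 h5, mul_nonneg h1 h6, mul_nonneg h1 h7, mul_nonneg h1 h8,
    mul_nonneg h1 h9, mul_nonneg h1 h10, mul_nonneg h2 h2, mul_nonneg h2 h3,
    mul_nonneg h2 h4, mul_nonneg h2 h5, mul_nonneg h2 h6, mul_nonneg h2 h7,
    mul_nonneg h2 h8, mul_nonneg h2 h9, mul_nonneg h2 h10, mul_nonneg h3 h3,
    mul_nonneg h3 h4, mul_nonneg h3 h5, mul_nonneg h3 h6, mul_nonneg h3 h7,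
    mul_nonneg h3 h8, mul_nonneg h3 h9, mul_nonneg h3 h10, mul_nonneg h4 h4,
    mul_nonneg h4 h5, mul_nonneg h4 h6, mul_nonneg h4 h7, mul_nonneg h4 h8,
    mul_nonneg h4 h9, mul_nonneg h4 h10, mul_nonneg h5 h5, mul_nonneg h5 h6,
    mul_nonneg h5 h7, mul_nonneg h5 h8, mul_nonneg h5 h9, mul_nonneg h5 h10,
    mul_nonneg h6 h6, mul_nonneg h6 h7, mul_nonneg h6 h8, mul_nonneg h6 h9,
    mul_nonneg h6 h10, mul_nonneg h7 h7, mul_nonneg h7 h8, mul_nonneg h7 h9,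
    mul_nonneg h7 h10, mul_nonneg h8 h8, mul_nonneg h8 h9, mul_nonneg h8 h10,
    mul_nonneg h9 h9, mul_nonneg h9 h10, mul_nonneg h10 h10]

lemma case_C_2 (a b c d t : ℝ) (h1 : 0 ≤ 1/2 - a) (h2 : 0 ≤ a - b)
    (h3 : 0 ≤ b - c) (h4 : 0 ≤ c - d) (h5 : 0 ≤ d)
    (h6 : 0 ≤ t - (0)) (h7 : 0 ≤ (1/2)-t)
    (h8 : 0 ≤ (1/4-t) - (1-2*t+15/4*(1-(a+b+c+d))))
    (h9 : 0 ≤ (1/4+t+15/4*(1-2*a)) - (1-2*t+15/4*(1-(a+b+c+d))))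
    (h10 : 0 ≤ (15/4*(1-(a+b+c+d)+2*d)) - (1-2*t+15/4*(1-(a+b+c+d))))
    : 15/4*(a^2+b^2+c^2+d^2)+t^2+(1-2*t+15/4*(1-(a+b+c+d))) ≤ 81/40 := by
  linarith [mul_nonneg h1 h1, mul_nonneg h1 h2, mul_nonneg h1 h3, mul_nonneg h1 h4,
    mul_nonneg h1 h5, mul_nonneg h1 h6, mul_nonneg h1 h7, mul_nonneg h1 h8,
    mul_nonneg h1 h9, mul_nonneg h1 h10, mul_nonneg h2 h2, mul_nonneg h2 h3,
    mul_nonneg h2 h4, mul_nonneg h2 h5, mul_nonneg h2 h6, mul_nonneg h2 h7,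
    mul_nonneg h2 h8, mul_nonneg h2 h9, mul_nonneg h2 h10, mul_nonneg h3 h3,
    mul_nonneg h3 h4, mul_nonneg h3 h5, mul_nonneg h3 h6, mul_nonneg h3 h7,
    mul_nonneg h3 h8, mul_nonneg h3 h9, mul_nonneg h3 h10, mul_nonneg h4 h4,
    mul_nonneg h4 h5, mul_nonneg h4 h6, mul_nonneg h4 h7, mul_nonneg h4 h8,
    mul_nonneg h4 h9, mul_nonneg h4 h10, mul_nonneg h5 h5, mul_nonneg h5 h6,
    mul_nonneg h5 h7, mul_nonneg h5 h8, mul_nonneg h5 h9, mul_nonneg h5 h10,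
    mul_nonneg h6 h6, mul_nonneg h6 h7, mul_nonneg h6 h8, mul_nonneg h6 h9,
    mul_nonneg h6 h10, mul_nonneg h7 h7, mul_nonneg h7 h8, mul_nonneg h7 h9,
    mul_nonneg h7 h10, mul_nonneg h8 h8, mul_nonneg h8 h9, mul_nonneg h8 h10,
    mul_nonneg h9 h9, mul_nonneg h9 h10, mul_nonneg h10 h10]

lemma case_D_2 (a b c d t : ℝ) (h1 : 0 ≤ 1/2 - a) (h2 : 0 ≤ a - b)
    (h3 : 0 ≤ b - c) (h4 : 0 ≤ c - d) (h5 : 0 ≤ d)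
    (h6 : 0 ≤ t - (0)) (h7 : 0 ≤ (1/2)-t)
    (h8 : 0 ≤ (1/4-t) - (15/4*(1-(a+b+c+d)+2*d)))
    (h9 : 0 ≤ (1/4+t+15/4*(1-2*a)) - (15/4*(1-(a+b+c+d)+2*d)))
    (h10 : 0 ≤ (1-2*t+15/4*(1-(a+b+c+d))) - (15/4*(1-(a+b+c+d)+2*d)))
    : 15/4*(a^2+b^2+c^2+d^2)+t^2+(15/4*(1-(a+b+c+d)+2*d)) ≤ 81/40 := by
  linarith [mul_nonneg h1 h1, mul_nonneg h1 h2, mul_nonneg h1 h3, mul_nonneg h1 h4,
    mul_nonneg h1 h5, mul_nonneg h1 h6, mul_nonneg h1 h7, mul_nonneg h1 h8,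
    mul_nonneg h1 h9, mul_nonneg h1 h10, mul_nonneg h2 h2, mul_nonneg h2 h3,
    mul_nonneg h2 h4, mul_nonneg h2 h5, mul_nonneg h2 h6, mul_nonneg h2 h7,
    mul_nonneg h2 h8, mul_nonneg h2 h9, mul_nonneg h2 h10, mul_nonneg h3 h3,
    mul_nonneg h3 h4, mul_nonneg h3 h5, mul_nonneg h3 h6, mul_nonneg h3 h7,
    mul_nonneg h3 h8, mul_nonneg h3 h9, mul_nonneg h3 h10, mul_nonneg h4 h4,
    mul_nonneg h4 h5, mul_nonneg h4 h6, mul_nonneg h4 h7, mul_nonneg h4 h8,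
    mul_nonneg h4 h9, mul_nonneg h4 h10, mul_nonneg h5 h5, mul_nonneg h5 h6,
    mul_nonneg h5 h7, mul_nonneg h5 h8, mul_nonneg h5 h9, mul_nonneg h5 h10,
    mul_nonneg h6 h6, mul_nonneg h6 h7, mul_nonneg h6 h8, mul_nonneg h6 h9,
    mul_nonneg h6 h10, mul_nonneg h7 h7, mul_nonneg h7 h8, mul_nonneg h7 h9,
    mul_nonneg h7 h10, mul_nonneg h8 h8, mul_nonneg h8 h9, mul_nonneg h8 h10,
    mul_nonneg h9 h9, mul_nonneg h9 h10, mul_nonneg h10 h10]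

lemma min4 (A B C D : ℝ) : (A ≤ B ∧ A ≤ C ∧ A ≤ D) ∨ (B ≤ A ∧ B ≤ C ∧ B ≤ D) ∨
    (C ≤ A ∧ C ≤ B ∧ C ≤ D) ∨ (D ≤ A ∧ D ≤ B ∧ D ≤ C) := by
  rcases le_total A B with q1 | q1 <;> rcases le_total C D with q2 | q2
  · rcases le_total A C with q3 | q3
    · left; exact ⟨q1, q3, q3.trans q2⟩
    · right; right; left; exact ⟨q3, q3.trans q1, q2⟩
  · rcases le_total A D with q3 | q3
    · left; exact ⟨q1, q3.trans q2, q3⟩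
    · right; right; right; exact ⟨q3, q3.trans q1, q2⟩
  · rcases le_total B C with q3 | q3
    · right; left; exact ⟨q1, q3, q3.trans q2⟩
    · right; right; left; exact ⟨q3.trans q1, q3, q2⟩
  · rcases le_total B D with q3 | q3
    · right; left; exact ⟨q1, q3.trans q2, q3⟩
    · right; right; right; exact ⟨q3.trans q1, q3, q2⟩


lemma sorted_cover_0 (a b c d t : ℝ) (g1 : 0 ≤ 1/2 - a) (g2 : 0 ≤ a - b) (g3 : 0 ≤ b - c)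
    (g4 : 0 ≤ c - d) (h5 : 0 ≤ d) (g6 : 0 ≤ t - (-1/2)) (g7 : 0 ≤ (-1/4)-t) :
    15/4*(a^2+b^2+c^2+d^2)+(1/2-t)^2 ≤ 81/40 ∨
    15/4*(a^2+b^2+c^2+d^2+1-2*a)+(1/2+t)^2 ≤ 81/40 ∨
    15/4*(a^2+b^2+c^2+d^2+1-(a+b+c+d))+(1-|t|)^2 ≤ 81/40 ∨
    15/4*(a^2+b^2+c^2+d^2+1-(a+b+c+d)+2*d)+t^2 ≤ 81/40 := by
  rw [abs_of_nonpos (by linarith : t ≤ 0)]
  by_contra hcon
  simp only [not_or, not_le] at hcon
  obtain ⟨hA, hB, hC, hD⟩ := hcon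
  rcases min4 (1/4-t) (1/4+t+15/4*(1-2*a)) (1-2*(-t)+15/4*(1-(a+b+c+d)))
    (15/4*(1-(a+b+c+d)+2*d)) with ⟨k1, k2, k3⟩ | ⟨k1, k2, k3⟩ | ⟨k1, k2, k3⟩ | ⟨k1, k2, k3⟩
  · have := case_A_0 a b c d t g1 g2 g3 g4 h5 g6 g7 (by linarith) (by linarith) (by linarith)
    linarith
  · have := case_B_0 a b c d t g1 g2 g3 g4 h5 g6 g7 (by linarith) (by linarith) (by linarith)
    linarith
  · have := case_C_0 a b c d t g1 g2 g3 g4 h5 g6 g7 (by linarith) (by linarith) (by linarith)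
    linarith
  · have := case_D_0 a b c d t g1 g2 g3 g4 h5 g6 g7 (by linarith) (by linarith) (by linarith)
    linarith

lemma sorted_cover_1 (a b c d t : ℝ) (g1 : 0 ≤ 1/2 - a) (g2 : 0 ≤ a - b) (g3 : 0 ≤ b - c)
    (g4 : 0 ≤ c - d) (h5 : 0 ≤ d) (g6 : 0 ≤ t - (-1/4)) (g7 : 0 ≤ (0)-t) :
    15/4*(a^2+b^2+c^2+d^2)+(1/2-t)^2 ≤ 81/40 ∨
    15/4*(a^2+b^2+c^2+d^2+1-2*a)+(1/2+t)^2 ≤ 81/40 ∨
    15/4*(a^2+b^2+c^2+d^2+1-(a+b+c+d))+(1-|t|)^2 ≤ 81/40 ∨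
    15/4*(a^2+b^2+c^2+d^2+1-(a+b+c+d)+2*d)+t^2 ≤ 81/40 := by
  rw [abs_of_nonpos (by linarith : t ≤ 0)]
  by_contra hcon
  simp only [not_or, not_le] at hcon
  obtain ⟨hA, hB, hC, hD⟩ := hcon
  rcases min4 (1/4-t) (1/4+t+15/4*(1-2*a)) (1-2*(-t)+15/4*(1-(a+b+c+d)))
    (15/4*(1-(a+b+c+d)+2*d)) with ⟨k1, k2, k3⟩ | ⟨k1, k2, k3⟩ | ⟨k1, k2, k3⟩ | ⟨k1, k2, k3⟩
  · have := case_A_1 a b c d t g1 g2 g3 g4 h5 g6 g7 (by linarith) (by linarith) (by linarith)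
    linarith
  · have := case_B_1 a b c d t g1 g2 g3 g4 h5 g6 g7 (by linarith) (by linarith) (by linarith)
    linarith
  · have := case_C_1 a b c d t g1 g2 g3 g4 h5 g6 g7 (by linarith) (by linarith) (by linarith)
    linarith
  · have := case_D_1 a b c d t g1 g2 g3 g4 h5 g6 g7 (by linarith) (by linarith) (by linarith)
    linarith

lemma sorted_cover_2 (a b c d t : ℝ) (g1 : 0 ≤ 1/2 - a) (g2 : 0 ≤ a - b) (g3 : 0 ≤ b - c)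
    (g4 : 0 ≤ c - d) (h5 : 0 ≤ d) (g6 : 0 ≤ t - (0)) (g7 : 0 ≤ (1/2)-t) :
    15/4*(a^2+b^2+c^2+d^2)+(1/2-t)^2 ≤ 81/40 ∨
    15/4*(a^2+b^2+c^2+d^2+1-2*a)+(1/2+t)^2 ≤ 81/40 ∨
    15/4*(a^2+b^2+c^2+d^2+1-(a+b+c+d))+(1-|t|)^2 ≤ 81/40 ∨
    15/4*(a^2+b^2+c^2+d^2+1-(a+b+c+d)+2*d)+t^2 ≤ 81/40 := by
  rw [abs_of_nonneg (by linarith : (0:ℝ) ≤ t)]
  by_contra hcon
  simp only [not_or, not_le] at hcon
  obtain ⟨hA, hB, hC, hD⟩ := hcon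
  rcases min4 (1/4-t) (1/4+t+15/4*(1-2*a)) (1-2*t+15/4*(1-(a+b+c+d)))
    (15/4*(1-(a+b+c+d)+2*d)) with ⟨k1, k2, k3⟩ | ⟨k1, k2, k3⟩ | ⟨k1, k2, k3⟩ | ⟨k1, k2, k3⟩
  · have := case_A_2 a b c d t g1 g2 g3 g4 h5 g6 g7 (by linarith) (by linarith) (by linarith)
    linarith
  · have := case_B_2 a b c d t g1 g2 g3 g4 h5 g6 g7 (by linarith) (by linarith) (by linarith)
    linarith
  · have := case_C_2 a b c d t g1 g2 g3 g4 h5 g6 g7 (by linarith) (by linarith) (by linarith)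
    linarith
  · have := case_D_2 a b c d t g1 g2 g3 g4 h5 g6 g7 (by linarith) (by linarith) (by linarith)
    linarith

/-- The four candidates of sorted coordinates. -/
lemma sorted_cover (a b c d t : ℝ) (h1 : a ≤ 1/2) (h2 : b ≤ a) (h3 : c ≤ b) (h4 : d ≤ c)
    (h5 : 0 ≤ d) (h6 : -1/2 ≤ t) (h7 : t ≤ 1/2) :
    15/4*(a^2+b^2+c^2+d^2)+(1/2-t)^2 ≤ 81/40 ∨
    15/4*(a^2+b^2+c^2+d^2+1-2*a)+(1/2+t)^2 ≤ 81/40 ∨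
    15/4*(a^2+b^2+c^2+d^2+1-(a+b+c+d))+(1-|t|)^2 ≤ 81/40 ∨
    15/4*(a^2+b^2+c^2+d^2+1-(a+b+c+d)+2*d)+t^2 ≤ 81/40 := by
  rcases le_total 0 t with ht | ht
  · exact sorted_cover_2 a b c d t (by linarith) (by linarith) (by linarith) (by linarith) h5
      (by linarith) (by linarith)
  rcases le_total t (-1/4) with ht2 | ht2
  · exact sorted_cover_0 a b c d t (by linarith) (by linarith) (by linarith) (by linarith) h5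
      (by linarith) (by linarith)
  · exact sorted_cover_1 a b c d t (by linarith) (by linarith) (by linarith) (by linarith) h5
      (by linarith) (by linarith)


/-- The four candidates, coordinates not sorted. -/
lemma unsorted_cover (b : Fin 4 → ℝ) (h0 : ∀ i, 0 ≤ b i) (h1 : ∀ i, b i ≤ 1/2) (t : ℝ)
    (h6 : -1/2 ≤ t) (h7 : t ≤ 1/2) :
    15/4*(∑ i, b i ^ 2)+(1/2-t)^2 ≤ 81/40 ∨
    (∃ i, 15/4*((∑ i, b i ^ 2)+1-2*b i)+(1/2+t)^2 ≤ 81/40) ∨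
    15/4*((∑ i, b i ^ 2)+1-∑ i, b i)+(1-|t|)^2 ≤ 81/40 ∨
    (∃ i, 15/4*((∑ i, b i ^ 2)+1-(∑ i, b i)+2*b i)+t^2 ≤ 81/40) := by
  obtain ⟨σ, hσ⟩ : ∃ σ : Equiv.Perm (Fin 4), Monotone (b ∘ σ) := ⟨Tuple.sort b, Tuple.monotone_sort b⟩
  have e1 : ∑ i, b i ^ 2 = b (σ 0) ^ 2 + b (σ 1) ^ 2 + b (σ 2) ^ 2 + b (σ 3) ^ 2 := by
    rw [← Equiv.sum_comp σ (fun i => b i ^ 2), Fin.sum_univ_four]
  have e2 : ∑ i, b i = b (σ 0) + b (σ 1) + b (σ 2) + b (σ 3) := by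
    rw [← Equiv.sum_comp σ (fun i => b i), Fin.sum_univ_four]
  have m1 : b (σ 0) ≤ b (σ 1) := hσ (by decide : (0 : Fin 4) ≤ 1)
  have m2 : b (σ 1) ≤ b (σ 2) := hσ (by decide : (1 : Fin 4) ≤ 2)
  have m3 : b (σ 2) ≤ b (σ 3) := hσ (by decide : (2 : Fin 4) ≤ 3)
  rw [e1, e2]
  rcases sorted_cover (b (σ 3)) (b (σ 2)) (b (σ 1)) (b (σ 0)) t (h1 _) m3 m2 m1 (h0 _) h6 h7 with
    h | h | h | h
  · left; linarith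
  · right; left; exact ⟨σ 3, by linarith⟩
  · right; right; left; linarith
  · right; right; right; exact ⟨σ 0, by linarith⟩

/-- The four candidates at their heights modulo `2`. -/
lemma height_cover (b : Fin 4 → ℝ) (h0 : ∀ i, 0 ≤ b i) (h1 : ∀ i, b i ≤ 1/2) (g : ℝ) :
    (∃ k : ℤ, 15/4*(∑ i, b i ^ 2)+(g-2*k)^2 ≤ 81/40) ∨
    (∃ i, ∃ k : ℤ, 15/4*((∑ i, b i ^ 2)+1-2*b i)+(g-(2*k+1))^2 ≤ 81/40) ∨
    (∃ k : ℤ, 15/4*((∑ i, b i ^ 2)+1-∑ i, b i)+(g-(2*k+1/2))^2 ≤ 81/40) ∨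
    (∃ i, ∃ k : ℤ, 15/4*((∑ i, b i ^ 2)+1-(∑ i, b i)+2*b i)+(g-(2*k-1/2))^2 ≤ 81/40) := by
  obtain ⟨k, hk0, hk1⟩ : ∃ k : ℤ, 0 ≤ g - 2 * k ∧ g - 2 * k ≤ 2 := by
    refine ⟨⌊g / 2⌋, ?_, ?_⟩
    · have := Int.floor_le (g / 2); linarith
    · have := Int.lt_floor_add_one (g / 2); linarith
  rcases le_total (g - 2 * k) 1 with h | h
  · -- heights `0`, `1/2`, `1`
    rcases unsorted_cover b h0 h1 (-(g - 2 * k - 1/2)) (by linarith) (by linarith) with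
      h2 | ⟨i, h2⟩ | h2 | ⟨i, h2⟩
    · left; exact ⟨k, by nlinarith⟩
    · right; left; exact ⟨i, k, by nlinarith⟩
    · right; right; left
      refine ⟨k, ?_⟩
      have h3 : |(-(g - 2 * k - 1/2))| ≤ 1/2 := abs_le.2 ⟨by linarith, by linarith⟩
      have h4 : |(-(g - 2 * k - 1/2))| ^ 2 = (-(g - 2 * k - 1/2)) ^ 2 := sq_abs _
      nlinarith
    · right; right; left
      refine ⟨k, ?_⟩
      have := h0 i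
      nlinarith
  · -- heights `1`, `3/2`, `2`
    rcases unsorted_cover b h0 h1 (g - 2 * k - 3/2) (by linarith) (by linarith) with
      h2 | ⟨i, h2⟩ | h2 | ⟨i, h2⟩
    · left; exact ⟨k + 1, by push_cast; nlinarith⟩
    · right; left; exact ⟨i, k, by nlinarith⟩
    · right; right; left
      rcases le_total 0 (g - 2 * k - 3/2) with h3 | h3
      · rw [abs_of_nonneg h3] at h2
        exact ⟨k + 1, by push_cast; nlinarith⟩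
      · rw [abs_of_nonpos h3] at h2
        exact ⟨k, by nlinarith⟩
    · right; right; right
      exact ⟨i, k + 1, by push_cast; nlinarith⟩

end Pool.Agent.N554.RG
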