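import Mathlib

/-!
# Reduced frames of five dimensional lattices

A frame of a lattice `L` of `ℝ⁵` consists of five vectors `f i` such that `L` is the set of the
combinations `∑ (c i / 2) f i` with integers `c i` of the same parity.
-/

set_option autoImplicit false

namespace Pool.Agent.N554.RG

/-- Five dimensional Euclidean space. -/
abbrev E5 : Type := EuclideanSpace ℝ (Fin 5)

/-- All coordinates have the same parity. -/
def Par (c : Fin 5 → ℤ) : Prop := ∀ i j, (c i - c j) % 2 = 0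

/-- The half integer combination of the frame. -/
noncomputable def hc (f : Fin 5 → E5) (c : Fin 5 → ℤ) : E5 := ∑ i, ((c i : ℝ) / 2) • f i

/-- A frame of the lattice `L`. -/
structure IsFrame (L : AddSubgroup E5) (f : Fin 5 → E5) : Prop where
  mem : ∀ c, Par c → hc f c ∈ L
  gen : ∀ v ∈ L, ∃ c, Par c ∧ v = hc f c

lemma IsFrame.perm {L : AddSubgroup E5} {f : Fin 5 → E5} (h : IsFrame L f)
    (σ : Equiv.Perm (Fin 5)) : IsFrame L (fun i => f (σ i)) := by
  have key : ∀ c : Fin 5 → ℤ, hc (fun i => f (σ i)) c = hc f (fun i => c (σ.symm i)) := by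
    intro c
    unfold hc
    rw [← Equiv.sum_comp σ (fun i => ((c (σ.symm i) : ℝ) / 2) • f i)]
    simp
  constructor
  · intro c hc'
    rw [key]
    exact h.mem _ fun i j => hc' _ _
  · intro v hv
    obtain ⟨c, h1, h2⟩ := h.gen v hv
    refine ⟨fun i => c (σ i), fun i j => h1 _ _, ?_⟩
    rw [key, h2]
    simp

lemma IsFrame.sign {L : AddSubgroup E5} {f : Fin 5 → E5} (h : IsFrame L f)
    (ε : Fin 5 → ℤ) (hε : ∀ i, ε i = 1 ∨ ε i = -1) : IsFrame L (fun i => (ε i : ℝ) • f i) := by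
  have key : ∀ c : Fin 5 → ℤ, hc (fun i => (ε i : ℝ) • f i) c = hc f (fun i => ε i * c i) := by
    intro c
    unfold hc
    refine Finset.sum_congr rfl fun i _ => ?_
    rw [smul_smul]
    push_cast
    congr 1
    ring
  have hpar : ∀ c : Fin 5 → ℤ, Par c → Par (fun i => ε i * c i) := by
    intro c hc' i j
    have := hc' i j
    show (ε i * c i - ε j * c j) % 2 = 0
    rcases hε i with h1 | h1 <;> rcases hε j with h2 | h2 <;> rw [h1, h2] <;> omega
  constructor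
  · intro c hc'
    rw [key]
    exact h.mem _ (hpar c hc')
  · intro v hv
    obtain ⟨c, h1, h2⟩ := h.gen v hv
    refine ⟨fun i => ε i * c i, hpar c h1, ?_⟩
    rw [key, h2]
    congr 1
    funext i
    rcases hε i with h1 | h1 <;> rw [h1] <;> ring

/-- The half difference. -/
noncomputable def gg (f : Fin 5 → E5) : E5 := (1/2 : ℝ) • (f 0 - f 1 - f 2 - f 3 - f 4)

/-- The flipped frame. -/
noncomputable def flip (f : Fin 5 → E5) : Fin 5 → E5 :=
  ![f 0, f 1 + gg f, f 2 + gg f, f 3 + gg f, f 4 + gg f]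

/-- The action of the flip on coordinates. -/
def tt (h : ℤ) (c : Fin 5 → ℤ) : Fin 5 → ℤ := ![c 0 + h, c 1 - h, c 2 - h, c 3 - h, c 4 - h]

lemma hc_flip (f : Fin 5 → E5) (c : Fin 5 → ℤ) (h : ℤ) (hh : c 1 + c 2 + c 3 + c 4 = 2 * h) :
    hc (flip f) c = hc f (tt h c) := by
  have hr : (h : ℝ) = ((c 1 : ℝ) + c 2 + c 3 + c 4) / 2 := by
    have : ((c 1 : ℝ) + c 2 + c 3 + c 4) = 2 * h := by exact_mod_cast hh
    linarith
  unfold hc
  simp only [Fin.sum_univ_five, flip, tt, gg, Matrix.cons_val_zero, Matrix.cons_val_one,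
    Matrix.cons_val, Int.cast_add, Int.cast_sub, hr]
  module

lemma par_tt (c : Fin 5 → ℤ) (h : ℤ) (hc' : Par c) : Par (tt h c) := by
  have h01 := hc' 0 1
  have h02 := hc' 0 2
  have h03 := hc' 0 3
  have h04 := hc' 0 4
  intro i j
  fin_cases i <;> fin_cases j <;> simp [tt] <;> omega

lemma tt_tt (c : Fin 5 → ℤ) (h : ℤ) : tt (-h) (tt h c) = c := by
  funext i
  fin_cases i <;> simp [tt]

lemma par_sum (c : Fin 5 → ℤ) (hc' : Par c) : ∃ h, c 1 + c 2 + c 3 + c 4 = 2 * h := by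
  have h12 := hc' 1 2
  have h34 := hc' 3 4
  exact ⟨(c 1 + c 2 + c 3 + c 4) / 2, by omega⟩

lemma IsFrame.flip {L : AddSubgroup E5} {f : Fin 5 → E5} (h : IsFrame L f) :
    IsFrame L (flip f) := by
  constructor
  · intro c hc'
    obtain ⟨k, hk⟩ := par_sum c hc'
    rw [hc_flip f c k hk]
    exact h.mem _ (par_tt c k hc')
  · intro v hv
    obtain ⟨c, h1, h2⟩ := h.gen v hv
    obtain ⟨k, hk⟩ := par_sum c h1
    refine ⟨tt k c, par_tt c k h1, ?_⟩
    rw [hc_flip f (tt k c) (-k) (by simp [tt]; linarith), tt_tt, h2]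

/-- The energy of a frame. -/
noncomputable def en (f : Fin 5 → E5) : ℝ := ∑ i, ‖f i‖ ^ 2

lemma en_flip (f : Fin 5 → E5) :
    en (flip f) = en f + inner ℝ (f 0) (f 0 - f 1 - f 2 - f 3 - f 4) := by
  have e0 : f 0 = f 1 + f 2 + f 3 + f 4 + (2 : ℝ) • gg f := by
    unfold gg
    module
  have e1 : f 0 - f 1 - f 2 - f 3 - f 4 = (2 : ℝ) • gg f := by
    unfold gg
    module
  rw [e1]
  unfold en
  simp only [Fin.sum_univ_five, flip, Matrix.cons_val_zero, Matrix.cons_val_one, Matrix.cons_val]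
  rw [norm_add_sq_real, norm_add_sq_real, norm_add_sq_real, norm_add_sq_real]
  have e2 : inner ℝ (f 0) ((2 : ℝ) • gg f) = 2 * (inner ℝ (f 1) (gg f) + inner ℝ (f 2) (gg f) +
      inner ℝ (f 3) (gg f) + inner ℝ (f 4) (gg f)) + 4 * ‖gg f‖ ^ 2 := by
    conv_lhs => rw [e0]
    rw [inner_smul_right, inner_add_left, inner_add_left, inner_add_left, inner_add_left,
      inner_smul_left, real_inner_self_eq_norm_sq]
    simp
    ring
  rw [e2]
  ring

lemma hc_single (f : Fin 5 → E5) (i : Fin 5) : hc f (fun j => if j = i then 2 else 0) = f i := by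
  unfold hc
  rw [Finset.sum_eq_single i]
  · simp
  · intro j _ hj
    simp [hj]
  · simp

lemma IsFrame.mem_self {L : AddSubgroup E5} {f : Fin 5 → E5} (h : IsFrame L f) (i : Fin 5) :
    f i ∈ L := by
  rw [← hc_single f i]
  apply h.mem
  intro j k
  by_cases h1 : j = i <;> by_cases h2 : k = i <;> simp [h1, h2]

/-- The density of a lattice implies that it spans the space. -/
lemma span_top (L : AddSubgroup E5) (r : ℝ) (hL : ∀ y : E5, ∃ v ∈ L, ‖y - v‖ ≤ r) :
    Submodule.span ℝ (L : Set E5) = ⊤ := by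
  by_contra hne
  set W := Submodule.span ℝ (L : Set E5) with hW
  have h1 : Wᗮ ≠ ⊥ := by
    intro h
    apply hne
    rw [← Submodule.orthogonal_orthogonal W, h, Submodule.bot_orthogonal_eq_top]
  obtain ⟨w, hw, hw0⟩ := Submodule.exists_mem_ne_zero_of_ne_bot h1
  have hwpos : 0 < ‖w‖ := norm_pos_iff.2 hw0
  have hr : 0 ≤ r := by
    obtain ⟨v, _, hv⟩ := hL 0
    exact (norm_nonneg _).trans hv
  obtain ⟨v, hv, hvr⟩ := hL (((r + 1) / ‖w‖) • w)
  have hvW : v ∈ W := Submodule.subset_span hv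
  have horth : inner ℝ (((r + 1) / ‖w‖) • w) v = 0 := by
    rw [inner_smul_left, Submodule.inner_left_of_mem_orthogonal hvW hw]
    simp
  have h2 : ‖((r + 1) / ‖w‖) • w - v‖ ^ 2 = (r + 1) ^ 2 + ‖v‖ ^ 2 := by
    rw [norm_sub_sq_real, horth, norm_smul, Real.norm_eq_abs,
      abs_of_nonneg (by positivity), div_mul_cancel₀ _ hwpos.ne']
    ring
  have h3 : ‖((r + 1) / ‖w‖) • w - v‖ ^ 2 ≤ r ^ 2 := pow_le_pow_left₀ (norm_nonneg _) hvr 2
  nlinarith [sq_nonneg ‖v‖]

/-- A separated subgroup has a discrete topology. -/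
lemma discrete (L : AddSubgroup E5) (hs : ∀ x ∈ L, ∀ y ∈ L, x ≠ y → 2 ≤ ‖x - y‖) :
    DiscreteTopology L := by
  apply DiscreteTopology.of_forall_le_dist (r := 2) (by norm_num)
  intro x y hxy
  rw [Subtype.dist_eq, dist_eq_norm]
  exact hs x x.2 y y.2 fun h => hxy (Subtype.ext h)

/-- Every lattice has a frame. -/
lemma exists_frame (L : AddSubgroup E5) (r : ℝ) (hL : ∀ y : E5, ∃ v ∈ L, ‖y - v‖ ≤ r)
    (hs : ∀ x ∈ L, ∀ y ∈ L, x ≠ y → 2 ≤ ‖x - y‖) : ∃ f, IsFrame L f := by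
  have hd := discrete L hs
  set M : Submodule ℤ E5 := AddSubgroup.toIntSubmodule L with hM
  have hd' : DiscreteTopology M := hd
  have hz : IsZLattice ℝ M := ⟨span_top L r hL⟩
  have hfree : Module.Free ℤ M := ZLattice.module_free ℝ M
  have hfin : Module.Finite ℤ M := ZLattice.module_finite ℝ M
  have hrank : Module.finrank ℤ M = 5 := by
    rw [ZLattice.rank ℝ M]
    simp
  let b : Module.Basis (Fin 5) ℤ M := (Module.finBasisOfFinrankEq ℤ M hrank)
  have hb : ∀ v ∈ L, ∃ n : Fin 5 → ℤ, v = ∑ i, (n i : ℝ) • (b i : E5) := by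
    intro v hv
    have hv' : v ∈ M := hv
    refine ⟨fun i => b.repr ⟨v, hv'⟩ i, ?_⟩
    have h1 := b.sum_repr ⟨v, hv'⟩
    have h2 := congrArg (Subtype.val) h1
    refine h2.symm.trans ?_
    simp only [Submodule.coe_sum, Submodule.coe_smul_of_tower]
    refine Finset.sum_congr rfl fun i _ => ?_
    rw [← Int.cast_smul_eq_zsmul ℝ]
  have hbm : ∀ i, (b i : E5) ∈ L := fun i => (b i).2
  have hbm2 : ∀ n : Fin 5 → ℤ, ∑ i, (n i : ℝ) • (b i : E5) ∈ L := by
    intro n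
    apply AddSubgroup.sum_mem
    intro i _
    rw [Int.cast_smul_eq_zsmul ℝ]
    exact AddSubgroup.zsmul_mem L (hbm i) _
  refine ⟨![(b 0 : E5), (b 1 : E5), (b 2 : E5), (b 3 : E5),
    (2 : ℝ) • (b 4 : E5) - b 0 - b 1 - b 2 - b 3], ?_, ?_⟩
  · intro c hc'
    have h04 := hc' 0 4
    have h14 := hc' 1 4
    have h24 := hc' 2 4
    have h34 := hc' 3 4
    have key : ∀ i, (c i - c 4) % 2 = 0 → (((c i - c 4) / 2 : ℤ) : ℝ) = ((c i : ℝ) - c 4) / 2 := by
      intro i hi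
      have h1 : 2 * ((c i - c 4) / 2) = c i - c 4 := by omega
      have h2 : 2 * (((c i - c 4) / 2 : ℤ) : ℝ) = (c i : ℝ) - c 4 := by exact_mod_cast h1
      linarith
    have h1 := hbm2 ![(c 0 - c 4) / 2, (c 1 - c 4) / 2, (c 2 - c 4) / 2, (c 3 - c 4) / 2, c 4]
    convert h1 using 1
    unfold hc
    simp only [Fin.sum_univ_five, Matrix.cons_val_zero, Matrix.cons_val_one, Matrix.cons_val]
    rw [key 0 h04, key 1 h14, key 2 h24, key 3 h34]
    module
  · intro v hv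
    obtain ⟨n, hn⟩ := hb v hv
    refine ⟨![2 * n 0 + n 4, 2 * n 1 + n 4, 2 * n 2 + n 4, 2 * n 3 + n 4, n 4], ?_, ?_⟩
    · intro i j
      fin_cases i <;> fin_cases j <;> simp <;> omega
    · rw [hn]
      unfold hc
      simp only [Fin.sum_univ_five, Matrix.cons_val_zero, Matrix.cons_val_one, Matrix.cons_val,
        Int.cast_add, Int.cast_mul, Int.cast_ofNat]
      module

/-- Every lattice has a frame of minimal energy. -/
lemma exists_min_frame (L : AddSubgroup E5) (r : ℝ) (hL : ∀ y : E5, ∃ v ∈ L, ‖y - v‖ ≤ r)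
    (hs : ∀ x ∈ L, ∀ y ∈ L, x ≠ y → 2 ≤ ‖x - y‖) :
    ∃ f, IsFrame L f ∧ ∀ f', IsFrame L f' → en f ≤ en f' := by
  obtain ⟨f₀, hf₀⟩ := exists_frame L r hL hs
  have hd := discrete L hs
  have hfin : (Metric.closedBall (0 : E5) (Real.sqrt (en f₀)) ∩ (L : Set E5)).Finite :=
    Metric.finite_isBounded_inter_isClosed (DiscreteTopology.isDiscrete)
      Metric.isBounded_closedBall AddSubgroup.isClosed_of_discrete
  have hfin2 : {f : Fin 5 → E5 | IsFrame L f ∧ en f ≤ en f₀}.Finite := by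
    apply (Set.Finite.pi' (fun _ : Fin 5 => hfin)).subset
    rintro f ⟨h1, h2⟩ i
    refine ⟨?_, h1.mem_self i⟩
    rw [mem_closedBall_zero_iff]
    apply Real.le_sqrt_of_sq_le
    refine le_trans ?_ h2
    exact Finset.single_le_sum (f := fun i => ‖f i‖ ^ 2) (fun i _ => sq_nonneg _)
      (Finset.mem_univ i)
  obtain ⟨f, ⟨h1, h2⟩, h3⟩ := Set.exists_min_image _ en hfin2 ⟨f₀, hf₀, le_rfl⟩
  refine ⟨f, h1, fun f' hf' => ?_⟩
  rcases le_total (en f') (en f₀) with h | h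
  · exact h3 f' ⟨hf', h⟩
  · exact h2.trans h

lemma en_perm (f : Fin 5 → E5) (σ : Equiv.Perm (Fin 5)) : en (fun i => f (σ i)) = en f :=
  Equiv.sum_comp σ (fun i => ‖f i‖ ^ 2)

lemma en_sign (f : Fin 5 → E5) (ε : Fin 5 → ℤ) (hε : ∀ i, ε i = 1 ∨ ε i = -1) :
    en (fun i => (ε i : ℝ) • f i) = en f := by
  unfold en
  refine Finset.sum_congr rfl fun i _ => ?_
  rw [norm_smul, mul_pow]
  rcases hε i with h | h <;> rw [h] <;> simp

/-- The defect of a frame. -/
noncomputable def df (f : Fin 5 → E5) (i : Fin 5) : ℝ := 2 * ‖f i‖ ^ 2 - ∑ j, |inner ℝ (f i) (f j)|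

lemma df_perm (f : Fin 5 → E5) (σ : Equiv.Perm (Fin 5)) (i : Fin 5) :
    df (fun i => f (σ i)) i = df f (σ i) := by
  unfold df
  rw [Equiv.sum_comp σ (fun j => |inner ℝ (f (σ i)) (f j)|)]

lemma df_sign (f : Fin 5 → E5) (ε : Fin 5 → ℤ) (hε : ∀ i, ε i = 1 ∨ ε i = -1) (i : Fin 5) :
    df (fun i => (ε i : ℝ) • f i) i = df f i := by
  unfold df
  have h1 : ∀ j, |(ε j : ℝ)| = 1 := by
    intro j
    rcases hε j with h | h <;> rw [h] <;> simp
  have h2 : ∀ j, |inner ℝ ((ε i : ℝ) • f i) ((ε j : ℝ) • f j)| = |inner ℝ (f i) (f j)| := by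
    intro j
    rw [inner_smul_left, inner_smul_right, abs_mul, abs_mul]
    simp [h1]
  simp only [h2]
  rw [norm_smul, mul_pow, Real.norm_eq_abs, h1]
  ring

/-- Signs making the inner products with the first vector nonnegative. -/
lemma exists_signs (f : Fin 5 → E5) : ∃ ε : Fin 5 → ℤ, (∀ i, ε i = 1 ∨ ε i = -1) ∧ ε 0 = 1 ∧
    ∀ j, inner ℝ (f 0) ((ε j : ℝ) • f j) = |inner ℝ (f 0) (f j)| := by
  refine ⟨fun j => if 0 ≤ inner ℝ (f 0) (f j) then 1 else -1, ?_, ?_, ?_⟩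
  · intro i
    by_cases h : 0 ≤ inner ℝ (f 0) (f i) <;> simp [h]
  · have : 0 ≤ inner ℝ (f 0) (f 0) := real_inner_self_nonneg
    simp
  · intro j
    rw [inner_smul_right]
    by_cases h : 0 ≤ inner ℝ (f 0) (f j)
    · simp [h, abs_of_nonneg h]
    · have h' : inner ℝ (f 0) (f j) < 0 := not_le.1 h
      simp [h, abs_of_neg h']

lemma df_zero_nonneg {L : AddSubgroup E5} {f : Fin 5 → E5} (hf : IsFrame L f)
    (hmin : ∀ f', IsFrame L f' → en f ≤ en f') : 0 ≤ df f 0 := by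
  obtain ⟨ε, h1, h2, h3⟩ := exists_signs f
  have h4 := hf.sign ε h1
  have h5 := hmin _ h4.flip
  rw [en_flip, en_sign f ε h1] at h5
  have h6 : inner ℝ ((fun i => (ε i : ℝ) • f i) 0) ((fun i => (ε i : ℝ) • f i) 0 -
      (fun i => (ε i : ℝ) • f i) 1 - (fun i => (ε i : ℝ) • f i) 2 -
      (fun i => (ε i : ℝ) • f i) 3 - (fun i => (ε i : ℝ) • f i) 4) = df f 0 := by
    simp only [h2, Int.cast_one, one_smul, inner_sub_right, h3]
    unfold df
    rw [Fin.sum_univ_five, real_inner_self_eq_norm_sq, abs_of_nonneg (sq_nonneg ‖f 0‖)]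
    ring
  linarith

lemma df_nonneg {L : AddSubgroup E5} {f : Fin 5 → E5} (hf : IsFrame L f)
    (hmin : ∀ f', IsFrame L f' → en f ≤ en f') (i : Fin 5) : 0 ≤ df f i := by
  have h1 := df_zero_nonneg (hf.perm (Equiv.swap 0 i)) (fun f' hf' => by
    rw [en_perm]
    exact hmin f' hf')
  rw [df_perm] at h1
  simpa using h1

/-- The reduced frames. -/
theorem exists_reduced (L : AddSubgroup E5) (r : ℝ) (hL : ∀ y : E5, ∃ v ∈ L, ‖y - v‖ ≤ r)
    (hs : ∀ x ∈ L, ∀ y ∈ L, x ≠ y → 2 ≤ ‖x - y‖) :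
    ∃ f, IsFrame L f ∧ (∀ i, 0 ≤ df f i) ∧ df f 1 ≤ df f 0 ∧ df f 2 ≤ df f 1 ∧
      df f 3 ≤ df f 2 ∧ df f 4 ≤ df f 3 ∧ ∀ j, 0 ≤ inner ℝ (f 0) (f j) := by
  obtain ⟨f, hf, hmin⟩ := exists_min_frame L r hL hs
  set σ : Equiv.Perm (Fin 5) := Tuple.sort (fun i => - df f i) with hσ
  have hmono : Monotone ((fun i => - df f i) ∘ σ) := Tuple.monotone_sort _
  obtain ⟨ε, h1, h2, h3⟩ := exists_signs (fun i => f (σ i))
  have hd : ∀ i, df (fun i => (ε i : ℝ) • (fun i => f (σ i)) i) i = df f (σ i) := by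
    intro i
    rw [df_sign _ ε h1, df_perm]
  have hm : ∀ i j : Fin 5, i ≤ j → df f (σ j) ≤ df f (σ i) := by
    intro i j hij
    have := hmono hij
    simp only [Function.comp] at this
    linarith
  refine ⟨fun i => (ε i : ℝ) • (fun i => f (σ i)) i, (hf.perm σ).sign ε h1, ?_, ?_, ?_, ?_, ?_, ?_⟩
  · intro i
    rw [hd]
    exact df_nonneg hf hmin _
  · rw [hd, hd]; exact hm 0 1 (by decide)
  · rw [hd, hd]; exact hm 1 2 (by decide)
  · rw [hd, hd]; exact hm 2 3 (by decide)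
  · rw [hd, hd]; exact hm 3 4 (by decide)
  · intro j
    have := h3 j
    simp only [h2, Int.cast_one, one_smul]
    rw [this]
    exact abs_nonneg _

end Pool.Agent.N554.RG
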