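import Pool.Agent.N554.RG.Sound
import Pool.Agent.N554.RG.Certs0
import Pool.Agent.N554.RG.Certs1
import Pool.Agent.N554.RG.Certs2
import Pool.Agent.N554.RG.Certs3

/-!
# The lower bound for lattices
-/

set_option autoImplicit false

namespace Pool.Agent.N554.RG

lemma sum21 (g : Fin 21 → ℝ) : ∑ k, g k = g 0 + g 1 + g 2 + g 3 + g 4 + g 5 + g 6 + g 7 + g 8 +
    g 9 + g 10 + g 11 + g 12 + g 13 + g 14 + g 15 + g 16 + g 17 + g 18 + g 19 + g 20 := by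
  simp only [Fin.sum_univ_castSucc, Fin.sum_univ_zero, zero_add]
  rfl

lemma pair_id (s : Bool) (A t x y : ℝ) :
    ((if s then A else 0) + t / 2) * x + ((if s then 0 else A) + t / 2) * y =
      A * (if s then x else y) + t / 2 * (x + y) := by
  cases s <;> simp <;> ring

/-- The coefficients of the decomposition. -/
noncomputable def lamb (sg : ℕ → Bool) (A t : ℕ → ℝ) (e : ℝ) : Fin 21 → ℝ :=
  ![(if sg 0 then A 0 else 0) + t 0 / 2, (if sg 1 then A 1 else 0) + t 1 / 2,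
    (if sg 2 then A 2 else 0) + t 2 / 2, (if sg 3 then A 3 else 0) + t 3 / 2,
    (if sg 4 then A 4 else 0) + t 4 / 2, (if sg 5 then A 5 else 0) + t 5 / 2,
    (if sg 6 then A 6 else 0) + t 6 / 2, (if sg 7 then A 7 else 0) + t 7 / 2,
    (if sg 8 then A 8 else 0) + t 8 / 2, (if sg 9 then A 9 else 0) + t 9 / 2,
    (if sg 0 then 0 else A 0) + t 0 / 2, (if sg 1 then 0 else A 1) + t 1 / 2,
    (if sg 2 then 0 else A 2) + t 2 / 2, (if sg 3 then 0 else A 3) + t 3 / 2,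
    (if sg 4 then 0 else A 4) + t 4 / 2, (if sg 5 then 0 else A 5) + t 5 / 2,
    (if sg 6 then 0 else A 6) + t 6 / 2, (if sg 7 then 0 else A 7) + t 7 / 2,
    (if sg 8 then 0 else A 8) + t 8 / 2, (if sg 9 then 0 else A 9) + t 9 / 2, e / 4]

lemma lamb_nonneg (sg : ℕ → Bool) (A t : ℕ → ℝ) (e : ℝ) (hA : ∀ p, 0 ≤ A p) (ht : ∀ p, 0 ≤ t p)
    (he : 0 ≤ e) (k : Fin 21) : 0 ≤ lamb sg A t e k := by
  have h1 : ∀ p, 0 ≤ (if sg p then A p else 0) + t p / 2 := by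
    intro p
    have := hA p
    have := ht p
    split_ifs <;> linarith
  have h2 : ∀ p, 0 ≤ (if sg p then 0 else A p) + t p / 2 := by
    intro p
    have := hA p
    have := ht p
    split_ifs <;> linarith
  have h3 : 0 ≤ e / 4 := by linarith
  fin_cases k
  · exact h1 0
  · exact h1 1
  · exact h1 2
  · exact h1 3
  · exact h1 4
  · exact h1 5
  · exact h1 6
  · exact h1 7
  · exact h1 8
  · exact h1 9
  · exact h2 0
  · exact h2 1
  · exact h2 2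
  · exact h2 3
  · exact h2 4
  · exact h2 5
  · exact h2 6
  · exact h2 7
  · exact h2 8
  · exact h2 9
  · exact h3

lemma sum_lamb (sg : ℕ → Bool) (A t : ℕ → ℝ) (e : ℝ) (x : Fin 21 → ℝ) :
    ∑ k, lamb sg A t e k * x k =
      (A 0 * (if sg 0 then x 0 else x 10) + t 0 / 2 * (x 0 + x 10)) +
      (A 1 * (if sg 1 then x 1 else x 11) + t 1 / 2 * (x 1 + x 11)) +
      (A 2 * (if sg 2 then x 2 else x 12) + t 2 / 2 * (x 2 + x 12)) +
      (A 3 * (if sg 3 then x 3 else x 13) + t 3 / 2 * (x 3 + x 13)) +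
      (A 4 * (if sg 4 then x 4 else x 14) + t 4 / 2 * (x 4 + x 14)) +
      (A 5 * (if sg 5 then x 5 else x 15) + t 5 / 2 * (x 5 + x 15)) +
      (A 6 * (if sg 6 then x 6 else x 16) + t 6 / 2 * (x 6 + x 16)) +
      (A 7 * (if sg 7 then x 7 else x 17) + t 7 / 2 * (x 7 + x 17)) +
      (A 8 * (if sg 8 then x 8 else x 18) + t 8 / 2 * (x 8 + x 18)) +
      (A 9 * (if sg 9 then x 9 else x 19) + t 9 / 2 * (x 9 + x 19)) + e / 4 * x 20 := by
  simp only [← pair_id]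
  rw [sum21]
  simp only [lamb, Matrix.cons_val_zero, Matrix.cons_val_one, Matrix.cons_val]
  ring

lemma norm_expand (f : Fin 5 → E5) (x : Fin 5 → ℝ) : ‖∑ j, x j • f j‖ ^ 2 =
    x 0 ^ 2 * ‖f 0‖ ^ 2 + x 1 ^ 2 * ‖f 1‖ ^ 2 + x 2 ^ 2 * ‖f 2‖ ^ 2 + x 3 ^ 2 * ‖f 3‖ ^ 2 +
    x 4 ^ 2 * ‖f 4‖ ^ 2 + 2 * x 0 * x 1 * inner ℝ (f 0) (f 1) +
    2 * x 0 * x 2 * inner ℝ (f 0) (f 2) + 2 * x 0 * x 3 * inner ℝ (f 0) (f 3) +
    2 * x 0 * x 4 * inner ℝ (f 0) (f 4) + 2 * x 1 * x 2 * inner ℝ (f 1) (f 2) +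
    2 * x 1 * x 3 * inner ℝ (f 1) (f 3) + 2 * x 1 * x 4 * inner ℝ (f 1) (f 4) +
    2 * x 2 * x 3 * inner ℝ (f 2) (f 3) + 2 * x 2 * x 4 * inner ℝ (f 2) (f 4) +
    2 * x 3 * x 4 * inner ℝ (f 3) (f 4) := by
  rw [← real_inner_self_eq_norm_sq]
  simp only [Fin.sum_univ_five, inner_add_left, inner_add_right, inner_smul_left,
    inner_smul_right, real_inner_self_eq_norm_sq, conj_trivial]
  rw [real_inner_comm (f 0) (f 1), real_inner_comm (f 0) (f 2), real_inner_comm (f 0) (f 3),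
    real_inner_comm (f 0) (f 4), real_inner_comm (f 1) (f 2), real_inner_comm (f 1) (f 3),
    real_inner_comm (f 1) (f 4), real_inner_comm (f 2) (f 3), real_inner_comm (f 2) (f 4),
    real_inner_comm (f 3) (f 4)]
  ring

lemma sq_if (s : Bool) (A x y : ℝ) : A * (if s then (x + y) ^ 2 else (x - y) ^ 2) =
    A * (x ^ 2 + y ^ 2) + 2 * x * y * (if s then A else -A) := by
  cases s <;> simp <;> ring

variable {L : AddSubgroup E5} {r : ℝ} {f : Fin 5 → E5}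

/-- The bound for the forms of one cone. -/
lemma cone_bound (hL : ∀ y : E5, ∃ v ∈ L, ‖y - v‖ ≤ r)
    (hs : ∀ x ∈ L, ∀ y ∈ L, x ≠ y → 2 ≤ ‖x - y‖) (hf : IsFrame L f) (sg : ℕ → Bool)
    (A t : ℕ → ℝ) (e : ℝ) (hA : ∀ p, 0 ≤ A p) (ht : ∀ p, 0 ≤ t p) (he : 0 ≤ e)
    (hX0 : inner ℝ (f 0) (f 1) = if sg 0 then A 0 else -A 0)
    (hX1 : inner ℝ (f 0) (f 2) = if sg 1 then A 1 else -A 1)
    (hX2 : inner ℝ (f 0) (f 3) = if sg 2 then A 2 else -A 2)
    (hX3 : inner ℝ (f 0) (f 4) = if sg 3 then A 3 else -A 3)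
    (hX4 : inner ℝ (f 1) (f 2) = if sg 4 then A 4 else -A 4)
    (hX5 : inner ℝ (f 1) (f 3) = if sg 5 then A 5 else -A 5)
    (hX6 : inner ℝ (f 1) (f 4) = if sg 6 then A 6 else -A 6)
    (hX7 : inner ℝ (f 2) (f 3) = if sg 7 then A 7 else -A 7)
    (hX8 : inner ℝ (f 2) (f 4) = if sg 8 then A 8 else -A 8)
    (hX9 : inner ℝ (f 3) (f 4) = if sg 9 then A 9 else -A 9)
    (hD0 : ‖f 0‖ ^ 2 = A 0 + A 1 + A 2 + A 3 + (t 0 + t 1 + t 2 + t 3) + e)
    (hD1 : ‖f 1‖ ^ 2 = A 0 + A 4 + A 5 + A 6 + (t 0 + t 4 + t 5 + t 6))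
    (hD2 : ‖f 2‖ ^ 2 = A 1 + A 4 + A 7 + A 8 + (t 1 + t 4 + t 7 + t 8))
    (hD3 : ‖f 3‖ ^ 2 = A 2 + A 5 + A 7 + A 9 + (t 2 + t 5 + t 7 + t 9))
    (hD4 : ‖f 4‖ ^ 2 = A 3 + A 6 + A 8 + A 9 + (t 3 + t 6 + t 8 + t 9))
    (C : Cert) (h1 : 0 < total C.X) (h2 : 1827 * total C.X ≤ 100 * total C.Z)
    (h3 : C.Z.all goodVec = true) (h4 : ∀ p < 10, 0 ≤ score C (if sg p then p else p + 10))
    (h5 : ∀ p < 10, t p = 0 ∨ 0 ≤ score C p + score C (p + 10))
    (h6 : e = 0 ∨ 0 ≤ score C 20) : 203/100 ≤ r ^ 2 := by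
  have hQ : ∀ v : E5, ‖v‖ ^ 2 = ∑ k, lamb sg A t e k * (fl (co hL hf) k v) ^ 2 := by
    intro v
    rw [sum_lamb]
    conv_lhs => rw [← sum_co hL hf v]
    rw [norm_expand, hX0, hX1, hX2, hX3, hX4, hX5, hX6, hX7, hX8, hX9, hD0, hD1, hD2, hD3, hD4]
    simp only [fl, Matrix.cons_val_zero, Matrix.cons_val_one, Matrix.cons_val,
      LinearMap.add_apply, LinearMap.sub_apply, LinearMap.smul_apply, smul_eq_mul, sq_if]
    ring
  have hb := cert_bound hL hs hf (lamb sg A t e) (lamb_nonneg sg A t e hA ht he) hQ C h3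
  rw [sum_lamb sg A t e (fun k => (score C k : ℝ))] at hb
  have g1 : ∀ p < 10, 0 ≤ A p * (if sg p then (score C p : ℝ) else (score C (p + 10) : ℝ)) := by
    intro p hp
    apply mul_nonneg (hA p)
    have := h4 p hp
    split_ifs with h
    · rw [if_pos h] at this
      exact_mod_cast this
    · rw [if_neg h] at this
      exact_mod_cast this
  have g2 : ∀ p < 10, 0 ≤ t p / 2 * ((score C p : ℝ) + (score C (p + 10) : ℝ)) := by
    intro p hp
    rcases h5 p hp with h | h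
    · rw [h]; simp
    · apply mul_nonneg
      · have := ht p; linarith
      · exact_mod_cast h
  have g3 : 0 ≤ e / 4 * (score C 20 : ℝ) := by
    rcases h6 with h | h
    · rw [h]; simp
    · apply mul_nonneg (by linarith)
      exact_mod_cast h
  have a0 := g1 0 (by norm_num)
  have a1 := g1 1 (by norm_num)
  have a2 := g1 2 (by norm_num)
  have a3 := g1 3 (by norm_num)
  have a4 := g1 4 (by norm_num)
  have a5 := g1 5 (by norm_num)
  have a6 := g1 6 (by norm_num)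
  have a7 := g1 7 (by norm_num)
  have a8 := g1 8 (by norm_num)
  have a9 := g1 9 (by norm_num)
  have b0 := g2 0 (by norm_num)
  have b1 := g2 1 (by norm_num)
  have b2 := g2 2 (by norm_num)
  have b3 := g2 3 (by norm_num)
  have b4 := g2 4 (by norm_num)
  have b5 := g2 5 (by norm_num)
  have b6 := g2 6 (by norm_num)
  have b7 := g2 7 (by norm_num)
  have b8 := g2 8 (by norm_num)
  have b9 := g2 9 (by norm_num)
  norm_num at a0 a1 a2 a3 a4 a5 a6 a7 a8 a9 b0 b1 b2 b3 b4 b5 b6 b7 b8 b9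
  have h7 : (0 : ℝ) < total C.X := by exact_mod_cast h1
  have h8 : (1827 : ℝ) * total C.X ≤ 100 * total C.Z := by exact_mod_cast h2
  have h9 : 0 ≤ (total C.X : ℝ) * (144 * r ^ 2) - (total C.Z : ℝ) * 16 := by
    refine le_trans ?_ hb
    simp only [Fin.val_zero, Fin.val_one, Fin.isValue]
    norm_num [Fin.val_ofNat]
    linarith
  by_contra hcon
  rw [not_le] at hcon
  nlinarith

lemma get_check (h : ℕ) (l : List Cert) (hc : checkAll h l = true) (s : ℕ) (hs : s < 64) :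
    check h s (l.getD s ⟨[], []⟩) = true := by
  unfold checkAll at hc
  rw [Bool.and_eq_true] at hc
  exact List.all_eq_true.1 hc.2 s (List.mem_range.2 hs)

/-- The bound for the forms of one cone, from the checked certificate. -/
lemma check_bound (hL : ∀ y : E5, ∃ v ∈ L, ‖y - v‖ ≤ r)
    (hs : ∀ x ∈ L, ∀ y ∈ L, x ≠ y → 2 ≤ ‖x - y‖) (hf : IsFrame L f) (h s : ℕ) (hs64 : s < 64)
    (l : List Cert) (hl : checkAll h l = true)
    (A t : ℕ → ℝ) (e : ℝ) (hA : ∀ p, 0 ≤ A p) (ht : ∀ p, 0 ≤ t p) (he : 0 ≤ e)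
    (hX0 : inner ℝ (f 0) (f 1) = if sgn s 0 then A 0 else -A 0)
    (hX1 : inner ℝ (f 0) (f 2) = if sgn s 1 then A 1 else -A 1)
    (hX2 : inner ℝ (f 0) (f 3) = if sgn s 2 then A 2 else -A 2)
    (hX3 : inner ℝ (f 0) (f 4) = if sgn s 3 then A 3 else -A 3)
    (hX4 : inner ℝ (f 1) (f 2) = if sgn s 4 then A 4 else -A 4)
    (hX5 : inner ℝ (f 1) (f 3) = if sgn s 5 then A 5 else -A 5)
    (hX6 : inner ℝ (f 1) (f 4) = if sgn s 6 then A 6 else -A 6)
    (hX7 : inner ℝ (f 2) (f 3) = if sgn s 7 then A 7 else -A 7)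
    (hX8 : inner ℝ (f 2) (f 4) = if sgn s 8 then A 8 else -A 8)
    (hX9 : inner ℝ (f 3) (f 4) = if sgn s 9 then A 9 else -A 9)
    (hD0 : ‖f 0‖ ^ 2 = A 0 + A 1 + A 2 + A 3 + (t 0 + t 1 + t 2 + t 3) + e)
    (hD1 : ‖f 1‖ ^ 2 = A 0 + A 4 + A 5 + A 6 + (t 0 + t 4 + t 5 + t 6))
    (hD2 : ‖f 2‖ ^ 2 = A 1 + A 4 + A 7 + A 8 + (t 1 + t 4 + t 7 + t 8))
    (hD3 : ‖f 3‖ ^ 2 = A 2 + A 5 + A 7 + A 9 + (t 2 + t 5 + t 7 + t 9))
    (hD4 : ‖f 4‖ ^ 2 = A 3 + A 6 + A 8 + A 9 + (t 3 + t 6 + t 8 + t 9))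
    (h5 : ∀ p < 10, t p = 0 ∨ p ∈ edges h) (h6 : e = 0 ∨ h = 0) : 203/100 ≤ r ^ 2 := by
  have hc := get_check h l hl s hs64
  generalize l.getD s ⟨[], []⟩ = C at hc
  unfold check at hc
  simp only [Bool.and_eq_true, decide_eq_true_eq, Bool.or_eq_true, bne_iff_ne, ne_eq] at hc
  obtain ⟨⟨⟨⟨⟨c1, c2⟩, c3⟩, c4⟩, c5⟩, c6⟩ := hc
  rw [List.all_eq_true] at c4 c5
  refine cone_bound hL hs hf (sgn s) A t e hA ht he hX0 hX1 hX2 hX3 hX4 hX5 hX6 hX7 hX8 hX9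
    hD0 hD1 hD2 hD3 hD4 C c1 c2 c3 ?_ ?_ ?_
  · intro p hp
    exact of_decide_eq_true (c4 p (List.mem_range.2 hp))
  · intro p hp
    rcases h5 p hp with h7 | h7
    · exact Or.inl h7
    · exact Or.inr (of_decide_eq_true (c5 p h7))
  · rcases h6 with h7 | h7
    · exact Or.inl h7
    · rcases c6 with h8 | h8
      · exact absurd h7 h8
      · exact Or.inr h8

/-- Every sign pattern occurs. -/
lemma exists_pattern (b4 b5 b6 b7 b8 b9 : Bool) : ∃ s < 64, sgn s 0 = true ∧ sgn s 1 = true ∧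
    sgn s 2 = true ∧ sgn s 3 = true ∧ sgn s 4 = b4 ∧ sgn s 5 = b5 ∧ sgn s 6 = b6 ∧ sgn s 7 = b7 ∧
    sgn s 8 = b8 ∧ sgn s 9 = b9 := by
  refine ⟨b4.toNat + 2 * b5.toNat + 4 * b6.toNat + 8 * b7.toNat + 16 * b8.toNat + 32 * b9.toNat,
    ?_⟩
  revert b4 b5 b6 b7 b8 b9
  decide

/-- A function with ten given values. -/
def tv (a0 a1 a2 a3 a4 a5 a6 a7 a8 a9 : ℝ) : ℕ → ℝ
  | 0 => a0
  | 1 => a1
  | 2 => a2
  | 3 => a3
  | 4 => a4
  | 5 => a5
  | 6 => a6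
  | 7 => a7
  | 8 => a8
  | 9 => a9
  | _ => 0

lemma tv_nonneg {a0 a1 a2 a3 a4 a5 a6 a7 a8 a9 : ℝ} (h0 : 0 ≤ a0) (h1 : 0 ≤ a1) (h2 : 0 ≤ a2)
    (h3 : 0 ≤ a3) (h4 : 0 ≤ a4) (h5 : 0 ≤ a5) (h6 : 0 ≤ a6) (h7 : 0 ≤ a7) (h8 : 0 ≤ a8)
    (h9 : 0 ≤ a9) (p : ℕ) : 0 ≤ tv a0 a1 a2 a3 a4 a5 a6 a7 a8 a9 p := by
  unfold tv
  split <;> first | assumption | exact le_rfl

lemma sign_eq (x : ℝ) (b : Bool) (h : b = decide (0 ≤ x)) : x = if b then |x| else -|x| := by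
  by_cases h0 : 0 ≤ x
  · simp [h, h0, abs_of_nonneg h0]
  · have h1 : x < 0 := not_le.1 h0
    simp [h, h0, abs_of_neg h1]

/-- Every lattice packing of unit balls of `ℝ⁵` has covering radius at least `√2.03`. -/
theorem lattice_bound (L : AddSubgroup E5) (r : ℝ) (hL : ∀ y : E5, ∃ v ∈ L, ‖y - v‖ ≤ r)
    (hs : ∀ x ∈ L, ∀ y ∈ L, x ≠ y → 2 ≤ ‖x - y‖) : 203/100 ≤ r ^ 2 := by
  obtain ⟨f, hf, hd, h10, h21, h32, h43, hpos⟩ := exists_reduced L r hL hs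
  obtain ⟨s, hs64, s0, s1, s2, s3, s4, s5, s6, s7, s8, s9⟩ := exists_pattern
    (decide (0 ≤ inner ℝ (f 1) (f 2))) (decide (0 ≤ inner ℝ (f 1) (f 3)))
    (decide (0 ≤ inner ℝ (f 1) (f 4))) (decide (0 ≤ inner ℝ (f 2) (f 3)))
    (decide (0 ≤ inner ℝ (f 2) (f 4))) (decide (0 ≤ inner ℝ (f 3) (f 4)))
  set A : ℕ → ℝ := fun p => match p with
    | 0 => |inner ℝ (f 0) (f 1)|
    | 1 => |inner ℝ (f 0) (f 2)|
    | 2 => |inner ℝ (f 0) (f 3)|
    | 3 => |inner ℝ (f 0) (f 4)|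
    | 4 => |inner ℝ (f 1) (f 2)|
    | 5 => |inner ℝ (f 1) (f 3)|
    | 6 => |inner ℝ (f 1) (f 4)|
    | 7 => |inner ℝ (f 2) (f 3)|
    | 8 => |inner ℝ (f 2) (f 4)|
    | 9 => |inner ℝ (f 3) (f 4)|
    | _ => 0 with hAdef
  have hA : ∀ p, 0 ≤ A p := by
    intro p
    rw [hAdef]
    dsimp only
    split <;> first | exact abs_nonneg _ | exact le_rfl
  have hX0 : inner ℝ (f 0) (f 1) = if sgn s 0 then A 0 else -A 0 :=
    sign_eq _ _ (by rw [s0]; simp [hpos 1])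
  have hX1 : inner ℝ (f 0) (f 2) = if sgn s 1 then A 1 else -A 1 :=
    sign_eq _ _ (by rw [s1]; simp [hpos 2])
  have hX2 : inner ℝ (f 0) (f 3) = if sgn s 2 then A 2 else -A 2 :=
    sign_eq _ _ (by rw [s2]; simp [hpos 3])
  have hX3 : inner ℝ (f 0) (f 4) = if sgn s 3 then A 3 else -A 3 :=
    sign_eq _ _ (by rw [s3]; simp [hpos 4])
  have hX4 : inner ℝ (f 1) (f 2) = if sgn s 4 then A 4 else -A 4 := sign_eq _ _ s4
  have hX5 : inner ℝ (f 1) (f 3) = if sgn s 5 then A 5 else -A 5 := sign_eq _ _ s5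
  have hX6 : inner ℝ (f 1) (f 4) = if sgn s 6 then A 6 else -A 6 := sign_eq _ _ s6
  have hX7 : inner ℝ (f 2) (f 3) = if sgn s 7 then A 7 else -A 7 := sign_eq _ _ s7
  have hX8 : inner ℝ (f 2) (f 4) = if sgn s 8 then A 8 else -A 8 := sign_eq _ _ s8
  have hX9 : inner ℝ (f 3) (f 4) = if sgn s 9 then A 9 else -A 9 := sign_eq _ _ s9
  have hself : ∀ i, |inner ℝ (f i) (f i)| = ‖f i‖ ^ 2 := by
    intro i
    rw [real_inner_self_eq_norm_sq, abs_of_nonneg (sq_nonneg _)]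
  have e0 : ‖f 0‖ ^ 2 = A 0 + A 1 + A 2 + A 3 + df f 0 := by
    unfold df
    rw [Fin.sum_univ_five, hself]
    simp only [hAdef]
    ring
  have e1 : ‖f 1‖ ^ 2 = A 0 + A 4 + A 5 + A 6 + df f 1 := by
    unfold df
    rw [Fin.sum_univ_five, hself, real_inner_comm (f 0) (f 1)]
    simp only [hAdef]
    ring
  have e2 : ‖f 2‖ ^ 2 = A 1 + A 4 + A 7 + A 8 + df f 2 := by
    unfold df
    rw [Fin.sum_univ_five, hself, real_inner_comm (f 0) (f 2), real_inner_comm (f 1) (f 2)]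
    simp only [hAdef]
    ring
  have e3 : ‖f 3‖ ^ 2 = A 2 + A 5 + A 7 + A 9 + df f 3 := by
    unfold df
    rw [Fin.sum_univ_five, hself, real_inner_comm (f 0) (f 3), real_inner_comm (f 1) (f 3),
      real_inner_comm (f 2) (f 3)]
    simp only [hAdef]
    ring
  have e4 : ‖f 4‖ ^ 2 = A 3 + A 6 + A 8 + A 9 + df f 4 := by
    unfold df
    rw [Fin.sum_univ_five, hself, real_inner_comm (f 0) (f 4), real_inner_comm (f 1) (f 4),
      real_inner_comm (f 2) (f 4), real_inner_comm (f 3) (f 4)]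
    simp only [hAdef]
    ring
  have d0 := hd 0
  have d1 := hd 1
  have d2 := hd 2
  have d3 := hd 3
  have d4 := hd 4
  generalize df f 0 = D0 at *
  generalize df f 1 = D1 at *
  generalize df f 2 = D2 at *
  generalize df f 3 = D3 at *
  generalize df f 4 = D4 at *
  rcases le_total (D1 + D2 + D3 + D4) D0 with c0 | c0
  · refine check_bound hL hs hf 0 s hs64 certs0 check_certs0 A
      (tv (D1) (D2) (D3) (D4) (0) (0) (0) (0) (0) (0))
      (D0 - (D1 + D2 + D3 + D4)) hA (tv_nonneg (by linarith) (by linarith) (by linarith) (by linarith) (by linarith)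
        (by linarith) (by linarith) (by linarith) (by linarith) (by linarith)) (by linarith)
      hX0 hX1 hX2 hX3 hX4 hX5 hX6 hX7 hX8 hX9 ?_ ?_ ?_ ?_ ?_ ?_ (Or.inr rfl)
    · rw [e0]; simp only [tv]; ring
    · rw [e1]; simp only [tv]; ring
    · rw [e2]; simp only [tv]; ring
    · rw [e3]; simp only [tv]; ring
    · rw [e4]; simp only [tv]; ring
    · intro p hp
      interval_cases p <;> simp [edges, tv]
  rcases le_total (D1 + D3 + D4) (D0 + D2) with c1 | c1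
  · refine check_bound hL hs hf 1 s hs64 certs1 check_certs1 A
      (tv ((D0 + D1 - D2 - D3 - D4) / 2) ((D0 + D2 - D1 - D3 - D4) / 2) (D3) (D4) ((D1 + D2 + D3 + D4 - D0) / 2) (0) (0) (0) (0) (0))
      0 hA (tv_nonneg (by linarith) (by linarith) (by linarith) (by linarith) (by linarith)
        (by linarith) (by linarith) (by linarith) (by linarith) (by linarith)) (by linarith)
      hX0 hX1 hX2 hX3 hX4 hX5 hX6 hX7 hX8 hX9 ?_ ?_ ?_ ?_ ?_ ?_ (Or.inl rfl)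
    · rw [e0]; simp only [tv]; ring
    · rw [e1]; simp only [tv]; ring
    · rw [e2]; simp only [tv]; ring
    · rw [e3]; simp only [tv]; ring
    · rw [e4]; simp only [tv]; ring
    · intro p hp
      interval_cases p <;> simp [edges, tv]
  rcases le_total (D2 + D3 + D4) (D0 + D1) with c2 | c2
  · refine check_bound hL hs hf 2 s hs64 certs2 check_certs2 A
      (tv ((D0 + D1 - D2 - D3 - D4) / 2) ((D0 + D2 + D3 - D1 - D4) / 2) (0) (D4) ((D1 + D2 + D4 - D0 - D3) / 2) (D3) (0) (0) (0) (0))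
      0 hA (tv_nonneg (by linarith) (by linarith) (by linarith) (by linarith) (by linarith)
        (by linarith) (by linarith) (by linarith) (by linarith) (by linarith)) (by linarith)
      hX0 hX1 hX2 hX3 hX4 hX5 hX6 hX7 hX8 hX9 ?_ ?_ ?_ ?_ ?_ ?_ (Or.inl rfl)
    · rw [e0]; simp only [tv]; ring
    · rw [e1]; simp only [tv]; ring
    · rw [e2]; simp only [tv]; ring
    · rw [e3]; simp only [tv]; ring
    · rw [e4]; simp only [tv]; ring
    · intro p hp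
      interval_cases p <;> simp [edges, tv]
  · refine check_bound hL hs hf 3 s hs64 certs3 check_certs3 A
      (tv ((D0 + D1 - D2 + D3 - D4) / 2) (0) (0) ((D4 + D0 - D1 + D2 - D3) / 2) ((D1 + D2 - D3 + D4 - D0) / 2) (0) (0) ((D2 + D3 - D4 + D0 - D1) / 2) (0) ((D3 + D4 - D0 + D1 - D2) / 2))
      0 hA (tv_nonneg (by linarith) (by linarith) (by linarith) (by linarith) (by linarith)
        (by linarith) (by linarith) (by linarith) (by linarith) (by linarith)) (by linarith)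
      hX0 hX1 hX2 hX3 hX4 hX5 hX6 hX7 hX8 hX9 ?_ ?_ ?_ ?_ ?_ ?_ (Or.inl rfl)
    · rw [e0]; simp only [tv]; ring
    · rw [e1]; simp only [tv]; ring
    · rw [e2]; simp only [tv]; ring
    · rw [e3]; simp only [tv]; ring
    · rw [e4]; simp only [tv]; ring
    · intro p hp
      interval_cases p <;> simp [edges, tv]

end Pool.Agent.N554.RG
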