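import Mathlib

/-!
# A lower bound for the covering radius of a lattice from rank one decompositions
-/

set_option autoImplicit false

namespace Pool.Agent.N554.RG

/-- If the squared norm is a nonnegative combination `∑ lam k * (ℓ k)²` of squares of functionals
which are integer valued on `L`, and `L` is `r`-dense, then `∑ lam k * ψ k ≤ r²`, whenever for each
`k` the affine function `ψ k + c k * (n - ℓ k x)` of the integer `n` is below `(n - ℓ k x)²`. -/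
lemma rank_one_bound {E : Type} [NormedAddCommGroup E] [InnerProductSpace ℝ E]
    [FiniteDimensional ℝ E] {ι : Type} [Fintype ι] (L : Set E) (r : ℝ)
    (hL : ∀ y : E, ∃ v ∈ L, ‖y - v‖ ≤ r) (lam : ι → ℝ) (hlam : ∀ k, 0 ≤ lam k)
    (ℓ : ι → (E →ₗ[ℝ] ℝ)) (hint : ∀ k, ∀ v ∈ L, ∃ n : ℤ, ℓ k v = n)
    (hQ : ∀ v : E, ‖v‖ ^ 2 = ∑ k, lam k * (ℓ k v) ^ 2)
    (x : E) (ψ c : ι → ℝ) (hψ : ∀ k, ∀ n : ℤ, ψ k + c k * (n - ℓ k x) ≤ (n - ℓ k x) ^ 2) :
    ∑ k, lam k * ψ k ≤ r ^ 2 := by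
  have : CompleteSpace E := FiniteDimensional.complete ℝ E
  set A : E →ₗ[ℝ] ℝ := ∑ k, (lam k * c k) • ℓ k with hA
  set w : E := (InnerProductSpace.toDual ℝ E).symm (LinearMap.toContinuousLinearMap A) with hw
  have hwA : ∀ u : E, inner ℝ w u = A u := by
    intro u
    rw [hw, InnerProductSpace.toDual_symm_apply]
    rfl
  obtain ⟨v, hv, hvr⟩ := hL (x + (1/2 : ℝ) • w)
  have h1 : ‖v - x‖ ^ 2 = ∑ k, lam k * (ℓ k v - ℓ k x) ^ 2 := by
    rw [hQ]
    simp only [map_sub]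
  have h2 : ∑ k, lam k * ψ k + A (v - x) ≤ ‖v - x‖ ^ 2 := by
    rw [h1, hA]
    simp only [LinearMap.coe_sum, Finset.sum_apply, LinearMap.smul_apply, smul_eq_mul, map_sub]
    rw [← Finset.sum_sub_distrib, ← Finset.sum_add_distrib]
    apply Finset.sum_le_sum
    intro k _
    obtain ⟨n, hn⟩ := hint k v hv
    rw [hn]
    have := mul_le_mul_of_nonneg_left (hψ k n) (hlam k)
    linarith
  have h3 : ‖x + (1/2 : ℝ) • w - v‖ ^ 2 = ‖v - x‖ ^ 2 - A (v - x) + 1/4 * ‖w‖ ^ 2 := by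
    have e : x + (1/2 : ℝ) • w - v = (1/2 : ℝ) • w - (v - x) := by abel
    rw [e, norm_sub_sq_real, inner_smul_left, hwA, norm_smul]
    simp only [map_div₀, map_one, Real.norm_eq_abs]
    rw [mul_pow, sq_abs]
    simp
    ring
  have h4 : ‖x + (1/2 : ℝ) • w - v‖ ^ 2 ≤ r ^ 2 :=
    pow_le_pow_left₀ (norm_nonneg _) hvr 2
  have h5 : 0 ≤ ‖w‖ ^ 2 := sq_nonneg _
  linarith

/-- The affine minorants of the squares at a multiple of `1/12`. -/
lemma minorant (q n : ℤ) : ((q % 12 : ℤ) * (12 - (q % 12 : ℤ)) / 144 : ℝ) +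
    (1 - 2 * ((q % 12 : ℤ) : ℝ) / 12) * (n - (q : ℝ) / 12) ≤ ((n : ℝ) - (q : ℝ) / 12) ^ 2 := by
  obtain ⟨m, hm⟩ : ∃ m : ℤ, q = 12 * (n - m) + q % 12 := by
    refine ⟨n - q / 12, ?_⟩
    have := Int.mul_ediv_add_emod q 12
    linarith
  have hq : (q : ℝ) = 12 * (n - m) + ((q % 12 : ℤ) : ℝ) := by exact_mod_cast hm
  generalize ((q % 12 : ℤ) : ℝ) = t at hq ⊢
  rw [hq]
  have h1 : (0 : ℝ) ≤ (m : ℝ) * (m - 1) := by
    have : 0 ≤ m * (m - 1) := by
      rcases le_or_gt m 0 with h | h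
      · nlinarith
      · nlinarith
    exact_mod_cast this
  nlinarith

end Pool.Agent.N554.RG
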