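import Pool.Agent.N554.RG.Check
import Pool.Agent.N554.RG.Frame
import Pool.Agent.N554.RG.RankOne

/-!
# Soundness of the certificates
-/

set_option autoImplicit false

namespace Pool.Agent.N554.RG

/-- The functionals of `fn`, built from five given functionals. -/
noncomputable def fl (c : Fin 5 → (E5 →ₗ[ℝ] ℝ)) : Fin 21 → (E5 →ₗ[ℝ] ℝ) :=
  ![c 0 + c 1, c 0 + c 2, c 0 + c 3, c 0 + c 4, c 1 + c 2, c 1 + c 3, c 1 + c 4, c 2 + c 3,
    c 2 + c 4, c 3 + c 4, c 0 - c 1, c 0 - c 2, c 0 - c 3, c 0 - c 4, c 1 - c 2, c 1 - c 3,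
    c 1 - c 4, c 2 - c 3, c 2 - c 4, c 3 - c 4, (2 : ℝ) • c 0]

lemma fl_apply (c : Fin 5 → (E5 →ₗ[ℝ] ℝ)) (v : E5) (w : Entry) (z : ℝ)
    (h0 : c 0 v = w.a * z) (h1 : c 1 v = w.b * z) (h2 : c 2 v = w.c * z) (h3 : c 3 v = w.d * z)
    (h4 : c 4 v = w.e * z) (k : Fin 21) : fl c k v = (fn k w : ℝ) * z := by
  fin_cases k <;> simp [fl, fn, h0, h1, h2, h3, h4] <;> ring

/-- The entry as a vector. -/
def vec (w : Entry) : Fin 5 → ℤ := ![w.a, w.b, w.c, w.d, w.e]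

section

variable {L : AddSubgroup E5} {r : ℝ} {f : Fin 5 → E5}

lemma frame_span (hL : ∀ y : E5, ∃ v ∈ L, ‖y - v‖ ≤ r) (hf : IsFrame L f) :
    ⊤ ≤ Submodule.span ℝ (Set.range f) := by
  rw [← span_top L r hL]
  apply Submodule.span_le.2
  intro v hv
  obtain ⟨c, _, h2⟩ := hf.gen v hv
  rw [h2]
  apply Submodule.sum_mem
  intro i _
  exact Submodule.smul_mem _ _ (Submodule.subset_span ⟨i, rfl⟩)

/-- The basis given by a frame. -/
noncomputable def frameBasis (hL : ∀ y : E5, ∃ v ∈ L, ‖y - v‖ ≤ r) (hf : IsFrame L f) :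
    Module.Basis (Fin 5) ℝ E5 :=
  basisOfTopLeSpanOfCardEqFinrank f (frame_span hL hf) (by simp)

lemma frameBasis_apply (hL : ∀ y : E5, ∃ v ∈ L, ‖y - v‖ ≤ r) (hf : IsFrame L f) (i : Fin 5) :
    frameBasis hL hf i = f i := by
  simp [frameBasis]

/-- The coordinates of a frame. -/
noncomputable def co (hL : ∀ y : E5, ∃ v ∈ L, ‖y - v‖ ≤ r) (hf : IsFrame L f) (i : Fin 5) :
    E5 →ₗ[ℝ] ℝ := (frameBasis hL hf).coord i

lemma co_sum (hL : ∀ y : E5, ∃ v ∈ L, ‖y - v‖ ≤ r) (hf : IsFrame L f) (x : Fin 5 → ℝ)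
    (i : Fin 5) : co hL hf i (∑ j, x j • f j) = x i := by
  unfold co
  have h : ∑ j, x j • f j = ∑ j, x j • frameBasis hL hf j := by
    simp only [frameBasis_apply]
  rw [h]
  simp [Finsupp.single_apply]

lemma sum_co (hL : ∀ y : E5, ∃ v ∈ L, ‖y - v‖ ≤ r) (hf : IsFrame L f) (v : E5) :
    ∑ j, co hL hf j v • f j = v := by
  have h := (frameBasis hL hf).sum_repr v
  simp only [frameBasis_apply] at h
  exact h

lemma fl_int (hL : ∀ y : E5, ∃ v ∈ L, ‖y - v‖ ≤ r) (hf : IsFrame L f) (k : Fin 21) (v : E5)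
    (hv : v ∈ L) : ∃ n : ℤ, fl (co hL hf) k v = n := by
  obtain ⟨c, h1, h2⟩ := hf.gen v hv
  have h3 : ∀ i, co hL hf i v = (c i : ℝ) * (1/2) := by
    intro i
    rw [h2]
    unfold hc
    rw [co_sum]
    ring
  have h4 := fl_apply (co hL hf) v ⟨0, c 0, c 1, c 2, c 3, c 4⟩ (1/2) (h3 0) (h3 1) (h3 2) (h3 3)
    (h3 4) k
  have h5 : ∃ n : ℤ, fn k ⟨0, c 0, c 1, c 2, c 3, c 4⟩ = 2 * n := by
    have h01 := h1 0 1
    have h02 := h1 0 2
    have h03 := h1 0 3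
    have h04 := h1 0 4
    refine ⟨fn k ⟨0, c 0, c 1, c 2, c 3, c 4⟩ / 2, ?_⟩
    fin_cases k <;> simp [fn] <;> omega
  obtain ⟨n, hn⟩ := h5
  refine ⟨n, ?_⟩
  rw [h4, hn]
  push_cast
  ring

/-- The bound from a point. -/
lemma point_bound (hL : ∀ y : E5, ∃ v ∈ L, ‖y - v‖ ≤ r) (hf : IsFrame L f) (lam : Fin 21 → ℝ)
    (hlam : ∀ k, 0 ≤ lam k) (hQ : ∀ v : E5, ‖v‖ ^ 2 = ∑ k, lam k * (fl (co hL hf) k v) ^ 2)
    (w : Entry) : ∑ k, lam k * (ph (fn k w) : ℝ) ≤ 144 * r ^ 2 := by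
  set x : E5 := ∑ i, ((vec w i : ℝ) * (1/12)) • f i with hx
  have hc : ∀ i, co hL hf i x = (vec w i : ℝ) * (1/12) := fun i => co_sum hL hf _ i
  have h4 : ∀ k, fl (co hL hf) k x = (fn k w : ℝ) * (1/12) := fun k =>
    fl_apply (co hL hf) x w (1/12) (hc 0) (hc 1) (hc 2) (hc 3) (hc 4) k
  have h5 := rank_one_bound (L : Set E5) r hL lam hlam (fl (co hL hf))
    (fun k v hv => fl_int hL hf k v hv) hQ x
    (fun k => ((fn k w % 12 : ℤ) * (12 - (fn k w % 12 : ℤ)) / 144 : ℝ))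
    (fun k => (1 - 2 * ((fn k w % 12 : ℤ) : ℝ) / 12)) (by
      intro k n
      rw [h4]
      have := minorant (fn k w) n
      rw [show (fn k w : ℝ) * (1/12) = (fn k w : ℝ) / 12 by ring]
      exact this)
  have h6 : ∑ k, lam k * (ph (fn k w) : ℝ) =
      144 * ∑ k, lam k * ((fn k w % 12 : ℤ) * (12 - (fn k w % 12 : ℤ)) / 144 : ℝ) := by
    rw [Finset.mul_sum]
    refine Finset.sum_congr rfl fun k _ => ?_
    unfold ph
    push_cast
    ring
  rw [h6]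
  linarith

/-- The bound from a lattice vector. -/
lemma vec_bound (hL : ∀ y : E5, ∃ v ∈ L, ‖y - v‖ ≤ r)
    (hs : ∀ x ∈ L, ∀ y ∈ L, x ≠ y → 2 ≤ ‖x - y‖) (hf : IsFrame L f) (lam : Fin 21 → ℝ)
    (hQ : ∀ v : E5, ‖v‖ ^ 2 = ∑ k, lam k * (fl (co hL hf) k v) ^ 2)
    (w : Entry) (hw : goodVec w = true) : 16 ≤ ∑ k, lam k * ((fn k w : ℝ)) ^ 2 := by
  simp only [goodVec, Bool.and_eq_true, beq_iff_eq, Bool.not_eq_true', Bool.and_eq_false_iff,
    beq_eq_false_iff_ne] at hw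
  obtain ⟨⟨⟨⟨h1, h2⟩, h3⟩, h4⟩, h5⟩ := hw
  have hpar : Par (vec w) := by
    intro i j
    fin_cases i <;> fin_cases j <;> simp [vec] <;> omega
  have hmem := hf.mem _ hpar
  have hc : ∀ i, co hL hf i (hc f (vec w)) = (vec w i : ℝ) * (1/2) := by
    intro i
    unfold hc
    rw [co_sum]
    ring
  have h6 : ∀ k, fl (co hL hf) k (Pool.Agent.N554.RG.hc f (vec w)) = (fn k w : ℝ) * (1/2) :=
    fun k => fl_apply (co hL hf) _ w (1/2) (hc 0) (hc 1) (hc 2) (hc 3) (hc 4) k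
  have hne : Pool.Agent.N554.RG.hc f (vec w) ≠ 0 := by
    intro h0
    have z : ∀ i, vec w i = 0 := by
      intro i
      have := hc i
      rw [h0, map_zero] at this
      have h8 : (vec w i : ℝ) = 0 := by linarith
      exact_mod_cast h8
    have z0 : w.a = 0 := z 0
    have z1 : w.b = 0 := z 1
    have z2 : w.c = 0 := z 2
    have z3 : w.d = 0 := z 3
    have z4 : w.e = 0 := z 4
    simp [z0, z1, z2, z3, z4] at h5
  have h7 := hs _ hmem 0 L.zero_mem hne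
  rw [sub_zero] at h7
  have h8 : (2 : ℝ) ^ 2 ≤ ‖Pool.Agent.N554.RG.hc f (vec w)‖ ^ 2 :=
    pow_le_pow_left₀ (by norm_num) h7 2
  rw [hQ] at h8
  have h9 : ∑ k, lam k * ((fn k w : ℝ)) ^ 2 =
      4 * ∑ k, lam k * (fl (co hL hf) k (Pool.Agent.N554.RG.hc f (vec w))) ^ 2 := by
    rw [Finset.mul_sum]
    refine Finset.sum_congr rfl fun k _ => ?_
    rw [h6]
    ring
  rw [h9]
  linarith

lemma sum_list (lam : Fin 21 → ℝ) (g : Fin 21 → Entry → ℤ) (l : List Entry) :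
    ∑ k, lam k * (((l.map fun v => (v.n : ℤ) * g k v).sum : ℤ) : ℝ) =
      (l.map fun v => (v.n : ℝ) * ∑ k, lam k * (g k v : ℝ)).sum := by
  induction l with
  | nil => simp
  | cons a l ih =>
    simp only [List.map_cons, List.sum_cons, Int.cast_add, Int.cast_mul, Int.cast_natCast]
    rw [← ih, Finset.mul_sum, ← Finset.sum_add_distrib]
    refine Finset.sum_congr rfl fun k _ => ?_
    ring

lemma list_le (l : List Entry) (g : Entry → ℝ) (M : ℝ) (h : ∀ v ∈ l, g v ≤ M) :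
    (l.map fun v => (v.n : ℝ) * g v).sum ≤ (total l : ℝ) * M := by
  induction l with
  | nil => simp [total]
  | cons a l ih =>
    have h1 := ih fun v hv => h v (List.mem_cons_of_mem _ hv)
    have h2 := mul_le_mul_of_nonneg_left (h a List.mem_cons_self) (Nat.cast_nonneg (α := ℝ) a.n)
    have h3 : (total (a :: l) : ℝ) = a.n + total l := by
      unfold total
      simp
    rw [h3]
    simp only [List.map_cons, List.sum_cons]
    linarith

lemma le_list (l : List Entry) (g : Entry → ℝ) (M : ℝ) (h : ∀ v ∈ l, M ≤ g v) :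
    (total l : ℝ) * M ≤ (l.map fun v => (v.n : ℝ) * g v).sum := by
  induction l with
  | nil => simp [total]
  | cons a l ih =>
    have h1 := ih fun v hv => h v (List.mem_cons_of_mem _ hv)
    have h2 := mul_le_mul_of_nonneg_left (h a List.mem_cons_self) (Nat.cast_nonneg (α := ℝ) a.n)
    have h3 : (total (a :: l) : ℝ) = a.n + total l := by
      unfold total
      simp
    rw [h3]
    simp only [List.map_cons, List.sum_cons]
    linarith

/-- The bound from a certificate. -/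
lemma cert_bound (hL : ∀ y : E5, ∃ v ∈ L, ‖y - v‖ ≤ r)
    (hs : ∀ x ∈ L, ∀ y ∈ L, x ≠ y → 2 ≤ ‖x - y‖) (hf : IsFrame L f) (lam : Fin 21 → ℝ)
    (hlam : ∀ k, 0 ≤ lam k) (hQ : ∀ v : E5, ‖v‖ ^ 2 = ∑ k, lam k * (fl (co hL hf) k v) ^ 2)
    (C : Cert) (hC : C.Z.all goodVec = true) :
    ∑ k, lam k * (score C k : ℝ) ≤ (total C.X : ℝ) * (144 * r ^ 2) - (total C.Z : ℝ) * 16 := by
  have h1 : ∑ k, lam k * (score C k : ℝ) =
      ∑ k, lam k * (((C.X.map fun v => (v.n : ℤ) * ph (fn k v)).sum : ℤ) : ℝ) -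
      ∑ k, lam k * (((C.Z.map fun v => (v.n : ℤ) * (fn k v) ^ 2).sum : ℤ) : ℝ) := by
    rw [← Finset.sum_sub_distrib]
    refine Finset.sum_congr rfl fun k _ => ?_
    unfold score
    push_cast
    ring
  rw [h1, sum_list lam (fun k v => ph (fn k v)), sum_list lam (fun k v => (fn k v) ^ 2)]
  have h2 := list_le C.X (fun v => ∑ k, lam k * (ph (fn k v) : ℝ)) (144 * r ^ 2)
    (fun v _ => point_bound hL hf lam hlam hQ v)
  have h3 := le_list C.Z (fun v => ∑ k, lam k * (((fn k v) ^ 2 : ℤ) : ℝ)) 16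
    (fun v hv => by
      have h4 := vec_bound hL hs hf lam hQ v (List.all_eq_true.1 hC v hv)
      push_cast
      exact h4)
  linarith

end

end Pool.Agent.N554.RG
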