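import Pool.Agent.N554.RG.Cover

/-!
# The point set, its separation and its density
-/

set_option autoImplicit false
set_option linter.unusedVariables false
set_option linter.unusedSimpArgs false

namespace Pool.Agent.N554.RG

/-- The scale `√15/2` of the first four coordinates. -/
noncomputable def sc : ℝ := Real.sqrt (15/4)

lemma sc_sq : sc ^ 2 = 15/4 := Real.sq_sqrt (by norm_num)

lemma sc_pos : 0 < sc := Real.sqrt_pos.2 (by norm_num)

/-- The point with doubled scaled coordinates `m` and doubled height `q`. -/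
noncomputable def pt (m : Fin 4 → ℤ) (q : ℤ) : EuclideanSpace ℝ (Fin 5) :=
  !₂[sc * (m 0 / 2), sc * (m 1 / 2), sc * (m 2 / 2), sc * (m 3 / 2), (q : ℝ) / 2]

/-- The point set: `ε ∈ {0, 1}`, all `m i ≡ ε` modulo `2` and `q ≡ ∑ m + ε` modulo `4`. -/
def pts : Set (EuclideanSpace ℝ (Fin 5)) :=
  {p | ∃ (ε : ℤ) (m : Fin 4 → ℤ) (q : ℤ), (ε = 0 ∨ ε = 1) ∧ (∀ i, m i % 2 = ε) ∧
    (q - (m 0 + m 1 + m 2 + m 3) - ε) % 4 = 0 ∧ p = pt m q}

lemma norm_sub_sq (p : EuclideanSpace ℝ (Fin 5)) (m : Fin 4 → ℤ) (q : ℤ) :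
    ‖p - pt m q‖ ^ 2 = (p 0 - sc * (m 0 / 2)) ^ 2 + (p 1 - sc * (m 1 / 2)) ^ 2 +
      (p 2 - sc * (m 2 / 2)) ^ 2 + (p 3 - sc * (m 3 / 2)) ^ 2 + (p 4 - (q : ℝ) / 2) ^ 2 := by
  rw [EuclideanSpace.norm_eq, Real.sq_sqrt (Finset.sum_nonneg fun i _ => sq_nonneg _)]
  simp [Fin.sum_univ_five, pt, sq_abs]

lemma norm_pt_sub_sq (m m' : Fin 4 → ℤ) (q q' : ℤ) :
    ‖pt m q - pt m' q'‖ ^ 2 = 15/16 * (((m 0 - m' 0 : ℤ) : ℝ) ^ 2 + ((m 1 - m' 1 : ℤ) : ℝ) ^ 2 +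
      ((m 2 - m' 2 : ℤ) : ℝ) ^ 2 + ((m 3 - m' 3 : ℤ) : ℝ) ^ 2) +
      1/4 * ((q - q' : ℤ) : ℝ) ^ 2 := by
  rw [norm_sub_sq]
  have e0 : pt m q 0 = sc * (m 0 / 2) := by simp [pt]
  have e1 : pt m q 1 = sc * (m 1 / 2) := by simp [pt]
  have e2 : pt m q 2 = sc * (m 2 / 2) := by simp [pt]
  have e3 : pt m q 3 = sc * (m 3 / 2) := by simp [pt]
  have e4 : pt m q 4 = (q : ℝ) / 2 := by simp [pt]
  rw [e0, e1, e2, e3, e4]
  push_cast
  have := sc_sq
  linear_combination (1/4 * (((m 0 : ℝ) - m' 0) ^ 2 + ((m 1 : ℝ) - m' 1) ^ 2 +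
    ((m 2 : ℝ) - m' 2) ^ 2 + ((m 3 : ℝ) - m' 3) ^ 2)) * this

lemma sq_par (x : ℤ) : ∃ u : ℤ, x ^ 2 = x + 2 * u := by
  obtain ⟨u, hu⟩ := Int.even_mul_pred_self x
  exact ⟨u, by linarith [show x ^ 2 = x * (x - 1) + x by ring]⟩

lemma even_bound (N q : ℤ) (hN0 : 0 ≤ N) (hN : (q - N) % 2 = 0) (hne : N = 0 → q ≠ 0) :
    64 ≤ 60 * N + 16 * q ^ 2 := by
  have pq := sq_nonneg q
  rcases (by omega : 2 ≤ N ∨ N = 1 ∨ N = 0) with h | h | h
  · linarith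
  · have h3 : q ≤ -1 ∨ 1 ≤ q := by omega
    rcases h3 with h3 | h3 <;> nlinarith
  · have := hne h
    have h3 : q ≤ -2 ∨ 2 ≤ q := by omega
    rcases h3 with h3 | h3 <;> nlinarith

lemma int_bound (ε ε' : ℤ) (hε : ε = 0 ∨ ε = 1) (hε' : ε' = 0 ∨ ε' = 1) (a b c d q : ℤ)
    (ha : (a - (ε - ε')) % 2 = 0) (hb : (b - (ε - ε')) % 2 = 0) (hc : (c - (ε - ε')) % 2 = 0)
    (hd : (d - (ε - ε')) % 2 = 0) (hq : (q - (a + b + c + d) - (ε - ε')) % 4 = 0)
    (hne : ¬ (a = 0 ∧ b = 0 ∧ c = 0 ∧ d = 0 ∧ q = 0)) :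
    64 ≤ 15 * (a ^ 2 + b ^ 2 + c ^ 2 + d ^ 2) + 4 * q ^ 2 := by
  by_cases h : ε = ε'
  · subst h
    simp only [sub_self, sub_zero] at ha hb hc hd hq
    obtain ⟨a', rfl⟩ : ∃ a', a = 2 * a' := ⟨a / 2, by omega⟩
    obtain ⟨b', rfl⟩ : ∃ a', b = 2 * a' := ⟨b / 2, by omega⟩
    obtain ⟨c', rfl⟩ : ∃ a', c = 2 * a' := ⟨c / 2, by omega⟩
    obtain ⟨d', rfl⟩ : ∃ a', d = 2 * a' := ⟨d / 2, by omega⟩
    obtain ⟨q', rfl⟩ : ∃ q', q = 2 * q' := ⟨q / 2, by omega⟩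
    have hsum : (q' - (a' + b' + c' + d')) % 2 = 0 := by omega
    obtain ⟨ua, hua⟩ := sq_par a'
    obtain ⟨ub, hub⟩ := sq_par b'
    obtain ⟨uc, huc⟩ := sq_par c'
    obtain ⟨ud, hud⟩ := sq_par d'
    have pa := sq_nonneg a'
    have pb := sq_nonneg b'
    have pc := sq_nonneg c'
    have pd := sq_nonneg d'
    have pq := sq_nonneg q'
    have e : 15 * ((2 * a') ^ 2 + (2 * b') ^ 2 + (2 * c') ^ 2 + (2 * d') ^ 2) + 4 * (2 * q') ^ 2 =
        60 * (a' ^ 2 + b' ^ 2 + c' ^ 2 + d' ^ 2) + 16 * q' ^ 2 := by ring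
    rw [e]
    have hN : (q' - (a' ^ 2 + b' ^ 2 + c' ^ 2 + d' ^ 2)) % 2 = 0 := by
      rw [hua, hub, huc, hud]
      omega
    have zero : ∀ x : ℤ, x ^ 2 = 0 → x = 0 := fun x hx => (pow_eq_zero_iff two_ne_zero).1 hx
    have hne2 : a' ^ 2 + b' ^ 2 + c' ^ 2 + d' ^ 2 = 0 → q' ≠ 0 := by
      intro h0 hq0
      have za := zero a' (by linarith)
      have zb := zero b' (by linarith)
      have zc := zero c' (by linarith)
      have zd := zero d' (by linarith)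
      exact hne ⟨by rw [za]; rfl, by rw [zb]; rfl, by rw [zc]; rfl, by rw [zd]; rfl,
        by rw [hq0]; rfl⟩
    have hN0 : 0 ≤ a' ^ 2 + b' ^ 2 + c' ^ 2 + d' ^ 2 := by linarith
    exact even_bound _ _ hN0 hN hne2
  · have key : ∀ x : ℤ, x ≠ 0 → 1 ≤ x ^ 2 := by
      intro x hx
      have : 0 < x ^ 2 := by positivity
      omega
    have ka := key a (by omega)
    have kb := key b (by omega)
    have kc := key c (by omega)
    have kd := key d (by omega)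
    have kq := key q (by omega)
    linarith

lemma pts_separated : ∀ x ∈ pts, ∀ y ∈ pts, x ≠ y → 2 ≤ ‖x - y‖ := by
  rintro x ⟨ε, m, q, hε, hm, hq, rfl⟩ y ⟨ε', m', q', hε', hm', hq', rfl⟩ hne
  have h : (2 : ℝ) ^ 2 ≤ ‖pt m q - pt m' q'‖ ^ 2 := by
    rw [norm_pt_sub_sq]
    have hne' : ¬ (m 0 - m' 0 = 0 ∧ m 1 - m' 1 = 0 ∧ m 2 - m' 2 = 0 ∧ m 3 - m' 3 = 0 ∧
        q - q' = 0) := by
      rintro ⟨h0, h1, h2, h3, h4⟩
      apply hne
      rw [sub_eq_zero] at h0 h1 h2 h3 h4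
      simp only [pt, h0, h1, h2, h3, h4]
    have h0 := hm 0
    have h1 := hm 1
    have h2 := hm 2
    have h3 := hm 3
    have h0' := hm' 0
    have h1' := hm' 1
    have h2' := hm' 2
    have h3' := hm' 3
    have := int_bound ε ε' hε hε' (m 0 - m' 0) (m 1 - m' 1) (m 2 - m' 2) (m 3 - m' 3) (q - q')
      (by omega) (by omega) (by omega) (by omega) (by omega) hne'
    have h5 : (64 : ℝ) ≤ 15 * (((m 0 - m' 0 : ℤ) : ℝ) ^ 2 + ((m 1 - m' 1 : ℤ) : ℝ) ^ 2 +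
      ((m 2 - m' 2 : ℤ) : ℝ) ^ 2 + ((m 3 - m' 3 : ℤ) : ℝ) ^ 2) +
      4 * ((q - q' : ℤ) : ℝ) ^ 2 := by exact_mod_cast this
    linarith
  exact (pow_le_pow_iff_left₀ (by norm_num) (norm_nonneg _) (by norm_num)).1 h

/-- A real number is `sc * (n + s b)` with `n` an integer, `s = ±1` and `0 ≤ b ≤ 1/2`. -/
lemma coord (y : ℝ) : ∃ (n s : ℤ) (b : ℝ), (s = 1 ∨ s = -1) ∧ 0 ≤ b ∧ b ≤ 1/2 ∧
    y = sc * (n + s * b) := by
  have h1 := abs_sub_round (y / sc)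
  have h2 : y = sc * (y / sc) := by field_simp [sc_pos.ne']
  rcases le_total 0 (y / sc - round (y / sc)) with h | h
  · rw [abs_of_nonneg h] at h1
    refine ⟨round (y / sc), 1, y / sc - round (y / sc), Or.inl rfl, h, h1, ?_⟩
    push_cast
    rw [show (round (y / sc) : ℝ) + 1 * (y / sc - round (y / sc)) = y / sc by ring]
    exact h2
  · rw [abs_of_nonpos h] at h1
    refine ⟨round (y / sc), -1, -(y / sc - round (y / sc)), Or.inr rfl, by linarith, h1, ?_⟩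
    push_cast
    rw [show (round (y / sc) : ℝ) + -1 * -(y / sc - round (y / sc)) = y / sc by ring]
    exact h2

lemma dist_le {p : EuclideanSpace ℝ (Fin 5)} {m : Fin 4 → ℤ} {q : ℤ}
    (h : ‖p - pt m q‖ ^ 2 ≤ 81/40) : ‖p - pt m q‖ ≤ 9 / (2 * Real.sqrt 10) := by
  have h10 : (0 : ℝ) < Real.sqrt 10 := Real.sqrt_pos.2 (by norm_num)
  have h2 : (9 / (2 * Real.sqrt 10)) ^ 2 = 81/40 := by
    rw [div_pow, mul_pow, Real.sq_sqrt (by norm_num)]
    norm_num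
  have h3 : (0 : ℝ) ≤ 9 / (2 * Real.sqrt 10) := by positivity
  rw [← h2] at h
  exact (pow_le_pow_iff_left₀ (norm_nonneg _) h3 (by norm_num)).1 h

lemma signs (a b c d : ℤ) (ha : a = 1 ∨ a = -1) (hb : b = 1 ∨ b = -1) (hc : c = 1 ∨ c = -1)
    (hd : d = 1 ∨ d = -1) : ∃ τ l : ℤ, (τ = 1 ∨ τ = -1) ∧ a + b + c + d = 4 * l + τ - 1 := by
  rcases (by omega : (a + b + c + d) % 4 = 0 ∨ (a + b + c + d) % 4 = 2) with h | h
  · exact ⟨1, (a + b + c + d) / 4, Or.inl rfl, by omega⟩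
  · exact ⟨-1, (a + b + c + d + 2) / 4, Or.inr rfl, by omega⟩

/-- The squared distance of a point to a member of the set, in the coordinates of `coord`. -/
lemma norm_formula (y : EuclideanSpace ℝ (Fin 5)) (n s : Fin 4 → ℤ) (b : Fin 4 → ℝ)
    (hs : ∀ i, s i = 1 ∨ s i = -1) (hy : ∀ i : Fin 4, y i.castSucc = sc * (n i + s i * b i))
    (c : Fin 4 → ℝ) (m : Fin 4 → ℤ) (hm : ∀ i, (m i : ℝ) = 2 * n i + s i * c i) (q : ℤ) :
    ‖y - pt m q‖ ^ 2 = 15/4 * ((b 0 - c 0 / 2) ^ 2 + (b 1 - c 1 / 2) ^ 2 + (b 2 - c 2 / 2) ^ 2 +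
      (b 3 - c 3 / 2) ^ 2) + (y 4 - q / 2) ^ 2 := by
  have y0 : y 0 = sc * (n 0 + s 0 * b 0) := hy 0
  have y1 : y 1 = sc * (n 1 + s 1 * b 1) := hy 1
  have y2 : y 2 = sc * (n 2 + s 2 * b 2) := hy 2
  have y3 : y 3 = sc * (n 3 + s 3 * b 3) := hy 3
  have hss : ∀ i, (s i : ℝ) ^ 2 = 1 := by
    intro i
    rcases hs i with h | h <;> rw [h] <;> norm_num
  have hsc := sc_sq
  have t : ∀ (n s b c : ℝ), s ^ 2 = 1 →
      (sc * (n + s * b) - sc * ((2 * n + s * c) / 2)) ^ 2 = 15/4 * (b - c / 2) ^ 2 := by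
    intro n s b c h
    linear_combination (s * (b - c / 2)) ^ 2 * hsc + 15/4 * (b - c / 2) ^ 2 * h
  rw [norm_sub_sq, y0, y1, y2, y3, hm 0, hm 1, hm 2, hm 3, t _ _ _ _ (hss 0), t _ _ _ _ (hss 1),
    t _ _ _ _ (hss 2), t _ _ _ _ (hss 3)]
  ring

lemma pts_dense (y : EuclideanSpace ℝ (Fin 5)) :
    ∃ p ∈ pts, ‖y - p‖ ≤ 9 / (2 * Real.sqrt 10) := by
  choose n s b hs h0 h1 hy using fun i : Fin 4 => coord (y i.castSucc)
  obtain ⟨τ, l, hτ1, hl⟩ := signs (s 0) (s 1) (s 2) (s 3) (hs 0) (hs 1) (hs 2) (hs 3)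
  have hττ : (τ : ℝ) ^ 2 = 1 := by
    rcases hτ1 with h | h <;> rw [h] <;> norm_num
  have hh : ∀ z : ℝ, (τ * (y 4 - (n 0 + n 1 + n 2 + n 3)) - z) ^ 2 =
      (y 4 - (n 0 + n 1 + n 2 + n 3) - τ * z) ^ 2 := by
    intro z
    linear_combination ((y 4 - (n 0 + n 1 + n 2 + n 3)) ^ 2 - z ^ 2) * hττ
  -- the height, reflected
  have key := height_cover b h0 h1 (τ * (y 4 - (n 0 + n 1 + n 2 + n 3)))
  simp only [Fin.sum_univ_four, hh] at key
  rcases key with ⟨k, hk⟩ | ⟨i, k, hk⟩ | ⟨k, hk⟩ | ⟨i, k, hk⟩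
  · -- the point `n`
    refine ⟨pt (fun i => 2 * n i) (2 * (n 0 + n 1 + n 2 + n 3) + τ * (4 * k)),
      ⟨0, _, _, Or.inl rfl, ?_, ?_, rfl⟩, dist_le ?_⟩
    · intro i
      show (2 * n i) % 2 = 0
      omega
    · show (2 * (n 0 + n 1 + n 2 + n 3) + τ * (4 * k) - (2 * n 0 + 2 * n 1 + 2 * n 2 + 2 * n 3)
        - 0) % 4 = 0
      rcases hτ1 with h | h <;> rw [h] <;> omega
    · rw [norm_formula y n s b hs hy (fun _ => 0) _ (by intro i; push_cast; ring)]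
      refine le_trans (le_of_eq ?_) hk
      push_cast
      ring
  · -- the point `n + s i e i`
    refine ⟨pt (fun j => 2 * n j + s j * (if j = i then 2 else 0))
      (2 * (n 0 + n 1 + n 2 + n 3) + τ * (4 * k + 2)),
      ⟨0, _, _, Or.inl rfl, ?_, ?_, rfl⟩, dist_le ?_⟩
    · intro j
      show (2 * n j + s j * (if j = i then 2 else 0)) % 2 = 0
      split_ifs <;> omega
    · have h2 : s i = 1 ∨ s i = -1 := hs i
      have h3 : (s 0 * (if (0 : Fin 4) = i then 2 else 0) + s 1 * (if (1 : Fin 4) = i then 2 else 0)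
        + s 2 * (if (2 : Fin 4) = i then 2 else 0) + s 3 * (if (3 : Fin 4) = i then 2 else 0) : ℤ)
        = 2 * s i := by
        fin_cases i <;> simp <;> ring
      show (2 * (n 0 + n 1 + n 2 + n 3) + τ * (4 * k + 2) -
        ((2 * n 0 + s 0 * (if (0 : Fin 4) = i then 2 else 0)) +
        (2 * n 1 + s 1 * (if (1 : Fin 4) = i then 2 else 0)) +
        (2 * n 2 + s 2 * (if (2 : Fin 4) = i then 2 else 0)) +
        (2 * n 3 + s 3 * (if (3 : Fin 4) = i then 2 else 0))) - 0) % 4 = 0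
      have h4 : (2 * (n 0 + n 1 + n 2 + n 3) + τ * (4 * k + 2) -
        ((2 * n 0 + s 0 * (if (0 : Fin 4) = i then 2 else 0)) +
        (2 * n 1 + s 1 * (if (1 : Fin 4) = i then 2 else 0)) +
        (2 * n 2 + s 2 * (if (2 : Fin 4) = i then 2 else 0)) +
        (2 * n 3 + s 3 * (if (3 : Fin 4) = i then 2 else 0))) - 0) =
        τ * (4 * k + 2) - 2 * s i := by linarith
      rw [h4]
      rcases hτ1 with h | h <;> rw [h] <;> omega
    · rw [norm_formula y n s b hs hy (fun j => if j = i then 2 else 0) _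
        (by intro j; push_cast; ring)]
      refine le_trans (le_of_eq ?_) hk
      push_cast
      fin_cases i <;> simp <;> ring
  · -- the point `n + s / 2`
    refine ⟨pt (fun j => 2 * n j + s j)
      (2 * (n 0 + n 1 + n 2 + n 3) + τ * (4 * k + 1)),
      ⟨1, _, _, Or.inr rfl, ?_, ?_, rfl⟩, dist_le ?_⟩
    · intro j
      show (2 * n j + s j) % 2 = 1
      rcases hs j with h | h <;> omega
    · show ((2 * (n 0 + n 1 + n 2 + n 3) + τ * (4 * k + 1)) -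
        (2 * n 0 + s 0 + (2 * n 1 + s 1) + (2 * n 2 + s 2) + (2 * n 3 + s 3)) - 1) % 4 = 0
      rcases hτ1 with h | h <;> rw [h] at hl ⊢ <;> omega
    · rw [norm_formula y n s b hs hy (fun _ => 1) _ (by intro i; push_cast; ring)]
      refine le_trans (le_of_eq ?_) hk
      push_cast
      ring
  · -- the point `n + s / 2 - s i e i`
    refine ⟨pt (fun j => 2 * n j + s j * (if j = i then -1 else 1))
      (2 * (n 0 + n 1 + n 2 + n 3) + τ * (4 * k - 1)),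
      ⟨1, _, _, Or.inr rfl, ?_, ?_, rfl⟩, dist_le ?_⟩
    · intro j
      show (2 * n j + s j * (if j = i then -1 else 1)) % 2 = 1
      rcases hs j with h | h <;> rw [h] <;> split_ifs <;> omega
    · have h2 : s i = 1 ∨ s i = -1 := hs i
      have h3 : (s 0 * (if (0 : Fin 4) = i then -1 else 1) +
        s 1 * (if (1 : Fin 4) = i then -1 else 1)
        + s 2 * (if (2 : Fin 4) = i then -1 else 1) + s 3 * (if (3 : Fin 4) = i then -1 else 1) : ℤ)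
        = s 0 + s 1 + s 2 + s 3 - 2 * s i := by
        fin_cases i <;> simp <;> ring
      show (2 * (n 0 + n 1 + n 2 + n 3) + τ * (4 * k - 1) -
        ((2 * n 0 + s 0 * (if (0 : Fin 4) = i then -1 else 1)) +
        (2 * n 1 + s 1 * (if (1 : Fin 4) = i then -1 else 1)) +
        (2 * n 2 + s 2 * (if (2 : Fin 4) = i then -1 else 1)) +
        (2 * n 3 + s 3 * (if (3 : Fin 4) = i then -1 else 1))) - 1) % 4 = 0
      have h4 : (2 * (n 0 + n 1 + n 2 + n 3) + τ * (4 * k - 1) -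
        ((2 * n 0 + s 0 * (if (0 : Fin 4) = i then -1 else 1)) +
        (2 * n 1 + s 1 * (if (1 : Fin 4) = i then -1 else 1)) +
        (2 * n 2 + s 2 * (if (2 : Fin 4) = i then -1 else 1)) +
        (2 * n 3 + s 3 * (if (3 : Fin 4) = i then -1 else 1))) - 1) =
        τ * (4 * k - 1) - (s 0 + s 1 + s 2 + s 3 - 2 * s i) - 1 := by linarith
      rw [h4]
      rcases hτ1 with h | h <;> rw [h] at hl ⊢ <;> omega
    · rw [norm_formula y n s b hs hy (fun j => if j = i then -1 else 1) _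
        (by intro j; push_cast; ring)]
      refine le_trans (le_of_eq ?_) hk
      push_cast
      fin_cases i <;> simp <;> ring

end Pool.Agent.N554.RG
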